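import Mathlib

/-!
# Conjunctive grammars with few long conjunctions
-/

namespace Pool.Agent.Results.MP_86a971_lc.FewLongConjunctions

open Set

/-- The symbols which may occur in a rule: a letter of the alphabet `α`, a nonterminal (the
nonterminals are `0, …, k - 1`), or a name `c : ι` of a constant language. -/
inductive Sym (α : Type) (k : ℕ) (ι : Type) : Type
  | letter (x : α) : Sym α k ι
  | var (A : Fin k) : Sym α k ι
  | const (c : ι) : Sym α k ι

/-- A conjunctive grammar over the alphabet `α` whose rules may contain names `c : ι` of constant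
languages. The pair `(A, [α₁, …, αₘ])` is the rule `A → α₁ & … & αₘ`. -/
structure Grammar (α ι : Type) : Type where
  /-- the nonterminals are `0, …, k - 1` -/
  k : ℕ
  /-- the rules -/
  rules : List (Fin k × List (List (Sym α k ι)))
  /-- the initial nonterminal -/
  start : Fin k

section Semantics

variable {α ι : Type} {k : ℕ}

/-- The language denoted by a symbol, when the nonterminals denote the languages `X` and the
constants denote the languages `κ`. -/
def val (κ : ι → Language α) (X : Fin k → Language α) : Sym α k ι → Language α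
  | Sym.letter x => {[x]}
  | Sym.var A => X A
  | Sym.const c => κ c

/-- The language denoted by a string of symbols (concatenation). -/
def cat (κ : ι → Language α) (X : Fin k → Language α) (s : List (Sym α k ι)) : Language α :=
  (s.map (val κ X)).prod

/-- `X` solves the system `A = ⋃_{A → α₁ & … & αₘ} ⋂_i αᵢ` of the grammar. -/
def IsSolution (G : Grammar α ι) (κ : ι → Language α) (X : Fin G.k → Language α) : Prop :=
  ∀ A w, w ∈ X A ↔ ∃ r, (A, r) ∈ G.rules ∧ ∀ s ∈ r, w ∈ cat κ X s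

/-- The words of `K` of length at most `l`. -/
def upTo (l : ℕ) (K : Language α) : Language α := {w | w ∈ K ∧ w.length ≤ l}

/-- The family `Y` is closed under frugal derivation: it contains the words of length at most `l`
of the languages `X`, it is closed under the rules `A → s` with one conjunct, and it is closed
under all rules for the pairs `(A, w) ∈ C`; constants contribute words of length at most `l`
only. -/
def Closed (G : Grammar α ι) (κ : ι → Language α) (X : Fin G.k → Language α) (l : ℕ)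
    (C : Finset (Fin G.k × List α)) (Y : Fin G.k → Language α) : Prop :=
  ∀ A w,
    ((w ∈ X A ∧ w.length ≤ l) ∨
      (∃ s, (A, [s]) ∈ G.rules ∧ w ∈ cat (fun c => upTo l (κ c)) Y s) ∨
      ((A, w) ∈ C ∧
        ∃ r, (A, r) ∈ G.rules ∧ ∀ s ∈ r, w ∈ cat (fun c => upTo l (κ c)) Y s)) →
    w ∈ Y A

/-- `w` is derived in such a way that on words longer than `l` constants are not used and rules
with a number of conjuncts different from one are used only for pairs in `C`. -/
def Frugal (G : Grammar α ι) (κ : ι → Language α) (X : Fin G.k → Language α) (l : ℕ)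
    (C : Finset (Fin G.k × List α)) (w : List α) : Prop :=
  ∀ Y, Closed G κ X l C Y → w ∈ Y G.start

/-- `L` is generated by a conjunctive grammar with constants such that every `w ∈ L` has a
derivation which uses conjunctions for at most `f |w|` pairs `(A, v)` with `v` longer than
`|w| - g |w|`. -/
def InClass (f g : ℕ → ℕ) (L : Language α) : Prop :=
  ∃ (ι : Type) (κ : ι → Language α) (G : Grammar α ι) (X : Fin G.k → Language α),
    IsLeast {X | IsSolution G κ X} X ∧ X G.start = L ∧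
    ∀ w ∈ L, ∃ C : Finset (Fin G.k × List α), C.card ≤ f w.length ∧
      Frugal G κ X (w.length - g w.length) C w

theorem val_mono {κ κ' : ι → Language α} (hκ : κ ≤ κ') {X Y : Fin k → Language α} (h : X ≤ Y)
    (σ : Sym α k ι) : val κ X σ ≤ val κ' Y σ := by
  cases σ with
  | letter x => exact le_rfl
  | var A => exact h A
  | const c => exact hκ c

theorem mem_cat_nil {κ : ι → Language α} {X : Fin k → Language α} {w : List α} :
    w ∈ cat κ X [] ↔ w = [] := by
  simp [cat, Language.mem_one]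

theorem mem_cat_cons {κ : ι → Language α} {X : Fin k → Language α} {σ : Sym α k ι}
    {s : List (Sym α k ι)} {w : List α} :
    w ∈ cat κ X (σ :: s) ↔ ∃ u ∈ val κ X σ, ∃ v ∈ cat κ X s, u ++ v = w := by
  simp [cat, Language.mem_mul]

theorem cat_append (κ : ι → Language α) (X : Fin k → Language α) (s t : List (Sym α k ι)) :
    cat κ X (s ++ t) = cat κ X s * cat κ X t := by
  simp [cat]

theorem mem_cat_append {κ : ι → Language α} {X : Fin k → Language α} {s t : List (Sym α k ι)}
    {w : List α} :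
    w ∈ cat κ X (s ++ t) ↔ ∃ u ∈ cat κ X s, ∃ v ∈ cat κ X t, u ++ v = w := by
  rw [cat_append, Language.mem_mul]

theorem cat_mono {κ κ' : ι → Language α} (hκ : κ ≤ κ') {X Y : Fin k → Language α} (h : X ≤ Y)
    (s : List (Sym α k ι)) : cat κ X s ≤ cat κ' Y s := by
  have key : ∀ w, w ∈ cat κ X s → w ∈ cat κ' Y s := by
    induction s with
    | nil => exact fun w h => h
    | cons σ s ih =>
      intro w hw
      rw [mem_cat_cons] at hw ⊢
      obtain ⟨u, hu, v, hv, rfl⟩ := hw
      exact ⟨u, val_mono hκ h σ hu, v, ih v hv, rfl⟩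
  exact key

theorem upTo_le (l : ℕ) (K : Language α) : upTo l K ≤ K := fun _ h => h.1

/-- The monotone operator of the system. -/
def op (G : Grammar α ι) (κ : ι → Language α) :
    (Fin G.k → Language α) →o (Fin G.k → Language α) where
  toFun X := fun A => {w | ∃ r, (A, r) ∈ G.rules ∧ ∀ s ∈ r, w ∈ cat κ X s}
  monotone' := by
    intro X Y h A w hw
    obtain ⟨r, hr, hs⟩ := hw
    exact ⟨r, hr, fun s hs' => cat_mono le_rfl h s (hs s hs')⟩

theorem isSolution_iff {G : Grammar α ι} {κ : ι → Language α} {X : Fin G.k → Language α} :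
    IsSolution G κ X ↔ op G κ X = X := by
  constructor
  · intro h
    funext A
    ext w
    exact (h A w).symm
  · intro h A w
    have h' : op G κ X A = X A := congrFun h A
    rw [← h']
    exact Iff.rfl

/-- Induction: a family closed under the rules contains the least solution. -/
theorem le_of_closed {G : Grammar α ι} {κ : ι → Language α} {X Z : Fin G.k → Language α}
    (hX : IsLeast {X | IsSolution G κ X} X)
    (h : ∀ A r, (A, r) ∈ G.rules → ∀ w, (∀ s ∈ r, w ∈ cat κ Z s) → w ∈ Z A) : X ≤ Z := by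
  have h1 : IsSolution G κ (OrderHom.lfp (op G κ)) :=
    isSolution_iff.2 (OrderHom.isLeast_lfp (op G κ)).1
  refine (hX.2 h1).trans ?_
  apply OrderHom.lfp_le
  intro A w hw
  obtain ⟨r, hr, hs⟩ := hw
  exact h A r hr w hs

/-- A factorisation of `x m y` along a string of symbols: one of the symbols takes the
occurrence of `m`. -/
theorem cat_split {κ : ι → Language α} {X : Fin k → Language α} {m : α} :
    ∀ {s : List (Sym α k ι)} {x y : List α}, x ++ m :: y ∈ cat κ X s →
      ∃ a σ b x1 x2 y1 y2, s = a ++ σ :: b ∧ x = x1 ++ x2 ∧ y = y2 ++ y1 ∧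
        x1 ∈ cat κ X a ∧ y1 ∈ cat κ X b ∧ x2 ++ m :: y2 ∈ val κ X σ := by
  intro s
  induction s with
  | nil =>
    intro x y h
    rw [mem_cat_nil] at h
    simp at h
  | cons σ s ih =>
    intro x y h
    rw [mem_cat_cons] at h
    obtain ⟨u, hu, v, hv, huv⟩ := h
    have key : (∃ x', x = u ++ x' ∧ v = x' ++ m :: y) ∨
        (∃ y2, u = x ++ m :: y2 ∧ y = y2 ++ v) := by
      rcases List.append_eq_append_iff.1 huv with ⟨a', h1, h2⟩ | ⟨c', h1, h2⟩
      · exact Or.inl ⟨a', h1, h2⟩
      · cases c' with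
        | nil =>
          left
          refine ⟨[], by simpa using h1.symm, by simpa using h2.symm⟩
        | cons z c' =>
          right
          simp only [List.cons_append, List.cons.injEq] at h2
          obtain ⟨rfl, h3⟩ := h2
          exact ⟨c', h1, h3⟩
    rcases key with ⟨x', rfl, rfl⟩ | ⟨y2, rfl, rfl⟩
    · obtain ⟨a, τ, b, x1, x2, y1, y2, h1, h2, h3, h4, h5, h6⟩ := ih hv
      refine ⟨σ :: a, τ, b, u ++ x1, x2, y1, y2, by simp [h1], by simp [h2], h3, ?_, h5, h6⟩
      rw [mem_cat_cons]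
      exact ⟨u, hu, x1, h4, rfl⟩
    · exact ⟨[], σ, s, [], x, v, y2, rfl, rfl, rfl, by rw [mem_cat_nil], hv, hu⟩

/-- Putting the pieces together. -/
theorem mem_cat_mid {κ : ι → Language α} {X : Fin k → Language α} {a b : List (Sym α k ι)}
    {σ : Sym α k ι} {x y v : List α} (hx : x ∈ cat κ X a) (hv : v ∈ val κ X σ)
    (hy : y ∈ cat κ X b) : x ++ (v ++ y) ∈ cat κ X (a ++ σ :: b) := by
  rw [mem_cat_append]
  refine ⟨x, hx, v ++ y, ?_, rfl⟩
  rw [mem_cat_cons]
  exact ⟨v, hv, y, hy, rfl⟩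

end Semantics

/-- The words `p x q c r y s` with `|p| = |r|` and `{x, y} = {a, b}`, where `a, b, c` are the
letters `0, 1, 2` and `p, q, r, s` are arbitrary words. -/
def mism : Language (Fin 3) :=
  {w | ∃ p q r s : List (Fin 3), ∃ x y : Fin 3, ((x = 0 ∧ y = 1) ∨ (x = 1 ∧ y = 0)) ∧
    p.length = r.length ∧ w = p ++ x :: (q ++ 2 :: (r ++ y :: s))}

/-- the words `p x q c r` with `|p| = |r|` -/
def mid (x : Fin 3) : Language (Fin 3) :=
  {w | ∃ p q r : List (Fin 3), p.length = r.length ∧ w = p ++ x :: (q ++ 2 :: r)}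

/-- The grammar `S → D₀ b Z | D₁ a Z`, `D₀ → X D₀ X | a Z c`, `D₁ → X D₁ X | b Z c`,
`Z → X Z | ε`, `X → a | b | c`. -/
def mismRules : List (Fin 5 × List (List (Sym (Fin 3) 5 Empty))) :=
    [(0, [[Sym.var 1, Sym.letter 1, Sym.var 3]]), (0, [[Sym.var 2, Sym.letter 0, Sym.var 3]]),
    (1, [[Sym.var 4, Sym.var 1, Sym.var 4]]), (1, [[Sym.letter 0, Sym.var 3, Sym.letter 2]]),
    (2, [[Sym.var 4, Sym.var 2, Sym.var 4]]), (2, [[Sym.letter 1, Sym.var 3, Sym.letter 2]]),
    (3, [[Sym.var 4, Sym.var 3]]), (3, [[]]),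
    (4, [[Sym.letter 0]]), (4, [[Sym.letter 1]]), (4, [[Sym.letter 2]])]

/-- The grammar with the rules `mismRules`. -/
def mismGrammar : Grammar (Fin 3) Empty := ⟨5, mismRules, 0⟩

/-- the languages of the nonterminals -/
def mismSol : Fin 5 → Language (Fin 3) :=
  ![mism, mid 0, mid 1, (Set.univ : Set (List (Fin 3))), {w : List (Fin 3) | w.length = 1}]

theorem mem_val_letter {α ι : Type} {k : ℕ} {κ : ι → Language α} {X : Fin k → Language α}
    {x : α} {w : List α} : w ∈ val κ X (Sym.letter x) ↔ w = [x] := Iff.rfl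

theorem mem_val_var {α ι : Type} {k : ℕ} {κ : ι → Language α} {X : Fin k → Language α}
    {A : Fin k} {w : List α} : w ∈ val κ X (Sym.var A) ↔ w ∈ X A := Iff.rfl

theorem mem_mid {x : Fin 3} {w : List (Fin 3)} :
    w ∈ mid x ↔ ∃ p q r : List (Fin 3), p.length = r.length ∧ w = p ++ x :: (q ++ 2 :: r) := Iff.rfl

theorem mem_mism {w : List (Fin 3)} :
    w ∈ mism ↔ ∃ p q r s : List (Fin 3), ∃ x y : Fin 3, ((x = 0 ∧ y = 1) ∨ (x = 1 ∧ y = 0)) ∧
    p.length = r.length ∧ w = p ++ x :: (q ++ 2 :: (r ++ y :: s)) := Iff.rfl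

/-- Closure under the rules, in plain words. -/
theorem mismSol_le {κ : Empty → Language (Fin 3)} {Y : Fin 5 → Language (Fin 3)}
    (hY : ∀ A s, (A, [s]) ∈ mismRules → ∀ w, w ∈ cat κ Y s → w ∈ Y A) :
    ∀ A w, w ∈ mismSol A → w ∈ Y A := by
  have h4 : ∀ x : Fin 3, [x] ∈ Y 4 := by
    intro x
    fin_cases x
    · exact hY 4 [Sym.letter 0] (by simp [mismRules]) [0]
        (by rw [mem_cat_cons]; exact ⟨[0], rfl, [], by rw [mem_cat_nil], rfl⟩)
    · exact hY 4 [Sym.letter 1] (by simp [mismRules]) [1]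
        (by rw [mem_cat_cons]; exact ⟨[1], rfl, [], by rw [mem_cat_nil], rfl⟩)
    · exact hY 4 [Sym.letter 2] (by simp [mismRules]) [2]
        (by rw [mem_cat_cons]; exact ⟨[2], rfl, [], by rw [mem_cat_nil], rfl⟩)
  have h3 : ∀ w : List (Fin 3), w ∈ Y 3 := by
    intro w
    induction w with
    | nil => exact hY 3 [] (by simp [mismRules]) [] (by rw [mem_cat_nil])
    | cons x w ih =>
      refine hY 3 [Sym.var 4, Sym.var 3] (by simp [mismRules]) _ ?_
      rw [mem_cat_cons]
      refine ⟨[x], h4 x, w, ?_, rfl⟩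
      rw [mem_cat_cons]
      exact ⟨w, ih, [], by rw [mem_cat_nil], by simp⟩
  have hD : ∀ (A : Fin 5) (x : Fin 3),
      (A, [[Sym.var 4, Sym.var A, Sym.var 4]]) ∈ mismRules →
      (A, [[Sym.letter x, Sym.var 3, Sym.letter 2]]) ∈ mismRules →
      ∀ w, w ∈ mid x → w ∈ Y A := by
    intro A x hr1 hr2 w hw
    rw [mem_mid] at hw
    obtain ⟨p, q, r, hpr, rfl⟩ := hw
    induction p generalizing r with
    | nil =>
      have hr : r = [] := List.length_eq_zero_iff.1 (by simpa using hpr.symm)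
      subst hr
      refine hY A _ hr2 _ ?_
      rw [mem_cat_cons]
      refine ⟨[x], rfl, q ++ [2], ?_, rfl⟩
      rw [mem_cat_cons]
      refine ⟨q, h3 q, [2], ?_, rfl⟩
      rw [mem_cat_cons]
      exact ⟨[2], rfl, [], by rw [mem_cat_nil], rfl⟩
    | cons z p ih =>
      have hne : r ≠ [] := by
        rintro rfl
        simp at hpr
      obtain ⟨r', y, rfl⟩ : ∃ r' y, r = r' ++ [y] := by
        exact ⟨r.dropLast, r.getLast hne, (List.dropLast_append_getLast hne).symm⟩
      have hpr' : p.length = r'.length := by simpa using hpr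
      refine hY A _ hr1 _ ?_
      rw [mem_cat_cons]
      refine ⟨[z], h4 z, (p ++ x :: (q ++ 2 :: r')) ++ [y], ?_, by simp⟩
      rw [mem_cat_cons]
      refine ⟨_, ih r' hpr', [y], ?_, rfl⟩
      rw [mem_cat_cons]
      exact ⟨[y], h4 y, [], by rw [mem_cat_nil], rfl⟩
  have h1 := hD 1 0 (by simp [mismRules]) (by simp [mismRules])
  have h2 := hD 2 1 (by simp [mismRules]) (by simp [mismRules])
  intro A w hw
  fin_cases A
  · change w ∈ mism at hw
    rw [mem_mism] at hw
    obtain ⟨p, q, r, s, x, y, hxy, hpr, rfl⟩ := hw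
    rcases hxy with ⟨rfl, rfl⟩ | ⟨rfl, rfl⟩
    · refine hY 0 [Sym.var 1, Sym.letter 1, Sym.var 3] (by simp [mismRules]) _ ?_
      rw [mem_cat_cons]
      refine ⟨p ++ 0 :: (q ++ 2 :: r), h1 _ ⟨p, q, r, hpr, rfl⟩, 1 :: s, ?_, by simp⟩
      rw [mem_cat_cons]
      refine ⟨[1], rfl, s, ?_, rfl⟩
      rw [mem_cat_cons]
      exact ⟨s, h3 s, [], by rw [mem_cat_nil], by simp⟩
    · refine hY 0 [Sym.var 2, Sym.letter 0, Sym.var 3] (by simp [mismRules]) _ ?_
      rw [mem_cat_cons]
      refine ⟨p ++ 1 :: (q ++ 2 :: r), h2 _ ⟨p, q, r, hpr, rfl⟩, 0 :: s, ?_, by simp⟩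
      rw [mem_cat_cons]
      refine ⟨[0], rfl, s, ?_, rfl⟩
      rw [mem_cat_cons]
      exact ⟨s, h3 s, [], by rw [mem_cat_nil], by simp⟩
  · exact h1 w hw
  · exact h2 w hw
  · exact h3 w
  · change w.length = 1 at hw
    obtain ⟨x, rfl⟩ := List.length_eq_one_iff.1 hw
    exact h4 x

theorem mem_cat_three {α ι : Type} {k : ℕ} {κ : ι → Language α} {X : Fin k → Language α}
    {σ τ υ : Sym α k ι} {w : List α} : w ∈ cat κ X [σ, τ, υ] ↔
      ∃ u ∈ val κ X σ, ∃ v ∈ val κ X τ, ∃ z ∈ val κ X υ, u ++ (v ++ z) = w := by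
  constructor
  · intro h
    rw [mem_cat_cons] at h
    obtain ⟨u, hu, w', h, rfl⟩ := h
    rw [mem_cat_cons] at h
    obtain ⟨v, hv, w'', h, rfl⟩ := h
    rw [mem_cat_cons] at h
    obtain ⟨z, hz, w3, h, rfl⟩ := h
    rw [mem_cat_nil] at h
    subst h
    exact ⟨u, hu, v, hv, z, hz, by simp⟩
  · rintro ⟨u, hu, v, hv, z, hz, rfl⟩
    rw [mem_cat_cons]
    refine ⟨u, hu, v ++ z, ?_, rfl⟩
    rw [mem_cat_cons]
    refine ⟨v, hv, z, ?_, rfl⟩
    rw [mem_cat_cons]
    exact ⟨z, hz, [], by rw [mem_cat_nil], by simp⟩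

theorem mismSol_closed {κ : Empty → Language (Fin 3)} :
    ∀ A r, (A, r) ∈ mismRules → ∀ w, (∀ s ∈ r, w ∈ cat κ mismSol s) → w ∈ mismSol A := by
  intro A r hr w h
  simp only [mismRules, List.mem_cons, Prod.mk.injEq, List.not_mem_nil, or_false] at hr
  rcases hr with ⟨rfl, rfl⟩ | ⟨rfl, rfl⟩ | ⟨rfl, rfl⟩ | ⟨rfl, rfl⟩ | ⟨rfl, rfl⟩ | ⟨rfl, rfl⟩ |
    ⟨rfl, rfl⟩ | ⟨rfl, rfl⟩ | ⟨rfl, rfl⟩ | ⟨rfl, rfl⟩ | ⟨rfl, rfl⟩
  · obtain ⟨u, ⟨p, q, r, hpr, rfl⟩, v, rfl, z, hz, rfl⟩ :=
      mem_cat_three.1 (h _ (List.mem_cons_self))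
    exact ⟨p, q, r, z, 0, 1, Or.inl ⟨rfl, rfl⟩, hpr, by simp⟩
  · obtain ⟨u, ⟨p, q, r, hpr, rfl⟩, v, rfl, z, hz, rfl⟩ :=
      mem_cat_three.1 (h _ (List.mem_cons_self))
    exact ⟨p, q, r, z, 1, 0, Or.inr ⟨rfl, rfl⟩, hpr, by simp⟩
  · obtain ⟨u, hu, v, ⟨p, q, r, hpr, rfl⟩, z, hz, rfl⟩ :=
      mem_cat_three.1 (h _ (List.mem_cons_self))
    have hu' : u.length = 1 := hu
    have hz' : z.length = 1 := hz
    exact ⟨u ++ p, q, r ++ z, by simp [hpr, hu', hz', Nat.add_comm], by simp⟩
  · obtain ⟨u, rfl, v, hv, z, rfl, rfl⟩ := mem_cat_three.1 (h _ (List.mem_cons_self))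
    exact ⟨[], v, [], rfl, rfl⟩
  · obtain ⟨u, hu, v, ⟨p, q, r, hpr, rfl⟩, z, hz, rfl⟩ :=
      mem_cat_three.1 (h _ (List.mem_cons_self))
    have hu' : u.length = 1 := hu
    have hz' : z.length = 1 := hz
    exact ⟨u ++ p, q, r ++ z, by simp [hpr, hu', hz', Nat.add_comm], by simp⟩
  · obtain ⟨u, rfl, v, hv, z, rfl, rfl⟩ := mem_cat_three.1 (h _ (List.mem_cons_self))
    exact ⟨[], v, [], rfl, rfl⟩
  · exact mem_univ w
  · exact mem_univ w
  all_goals
    have h' := h _ (List.mem_cons_self)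
    rw [mem_cat_cons] at h'
    obtain ⟨u, rfl, v, hv, rfl⟩ := h'
    rw [mem_cat_nil] at hv
    subst hv
    rfl

theorem mismSol_isLeast {κ : Empty → Language (Fin 3)} :
    IsLeast {X | IsSolution mismGrammar κ X} mismSol := by
  have hle : ∀ Y : Fin 5 → Language (Fin 3),
      (∀ A r, (A, r) ∈ mismRules → ∀ w, (∀ s ∈ r, w ∈ cat κ Y s) → w ∈ Y A) →
      mismSol ≤ Y := by
    intro Y hY A
    exact mismSol_le (κ := κ) (fun A s hs w hw => hY A [s] hs w (by
      intro s' hs'
      rw [List.mem_singleton] at hs'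
      rw [hs']
      exact hw)) A
  constructor
  · change ∀ (A : Fin 5) w, w ∈ mismSol A ↔ ∃ r, (A, r) ∈ mismRules ∧ ∀ s ∈ r, w ∈ cat κ mismSol s
    intro A w
    constructor
    · have h := hle (fun A => ({w | ∃ r, (A, r) ∈ mismRules ∧
        ∀ s ∈ r, w ∈ cat κ mismSol s} : Set (List (Fin 3)))) (by
          intro A r hr w hw
          refine ⟨r, hr, fun s hs => cat_mono le_rfl ?_ s (hw s hs)⟩
          intro B v hv
          obtain ⟨r', hr', hv'⟩ := hv
          exact mismSol_closed B r' hr' v hv')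
      exact fun hw => h A hw
    · rintro ⟨r, hr, hw⟩
      exact mismSol_closed A r hr w hw
  · intro Y hY
    have hY' : ∀ (A : Fin 5) w, w ∈ Y A ↔ ∃ r, (A, r) ∈ mismRules ∧ ∀ s ∈ r, w ∈ cat κ Y s := hY
    exact hle Y (fun A r hr w hw => (hY' A w).2 ⟨r, hr, hw⟩)

/-! ## Segments of infinite words -/

/-- the word `F i … F (j - 1)` -/
def seg (F : ℕ → Fin 3) (i j : ℕ) : List (Fin 3) := (List.Ico i j).map F

theorem seg_append (F : ℕ → Fin 3) {i j k : ℕ} (h1 : i ≤ j) (h2 : j ≤ k) :
    seg F i j ++ seg F j k = seg F i k := by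
  simp only [seg, ← List.map_append, List.Ico.append_consecutive h1 h2]

theorem length_seg (F : ℕ → Fin 3) (i j : ℕ) : (seg F i j).length = j - i := by
  simp [seg]

theorem seg_self (F : ℕ → Fin 3) (i : ℕ) : seg F i i = [] := by
  simp [seg]

theorem seg_congr {F F' : ℕ → Fin 3} {i j : ℕ} (h : ∀ x, i ≤ x → x < j → F x = F' x) :
    seg F i j = seg F' i j := by
  apply List.map_congr_left
  intro x hx
  rw [List.Ico.mem] at hx
  exact h x hx.1 hx.2

theorem seg_split {F : ℕ → Fin 3} {i j : ℕ} {x y : List (Fin 3)} (h : seg F i j = x ++ y)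
    (hij : i ≤ j) : ∃ k, i ≤ k ∧ k ≤ j ∧ x = seg F i k ∧ y = seg F k j := by
  have hlen : j - i = x.length + y.length := by
    rw [← length_seg F i j, h, List.length_append]
  refine ⟨i + x.length, by omega, by omega, ?_⟩
  have h2 : x ++ y = seg F i (i + x.length) ++ seg F (i + x.length) j := by
    rw [seg_append F (by omega) (by omega), h]
  have h3 := List.append_inj h2 (by rw [length_seg]; omega)
  exact h3

theorem seg_cons (F : ℕ → Fin 3) {i x j : ℕ} (h1 : i ≤ x) (h2 : x < j) :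
    seg F i j = seg F i x ++ F x :: seg F (x + 1) j := by
  rw [← seg_append F h1 h2.le, ← seg_append F (Nat.le_succ x) h2]
  congr 1
  simp [seg]

/-! ## Facts, items and paths -/

section Facts

variable {ι : Type} (G : Grammar (Fin 3) ι) (κ : ι → Language (Fin 3))
  (X : Fin G.k → Language (Fin 3)) (F₁ F₂ : ℕ → Fin 3) (M : ℕ)

/-- the word `F₁ i … F₁ (M - 1) c F₂ 0 … F₂ (j - 1)` -/
def fw (i j : ℕ) : List (Fin 3) := seg F₁ i M ++ 2 :: seg F₂ 0 j

theorem fw_split {i j i' j' : ℕ} (h1 : i ≤ i') (h2 : i' ≤ M) (h3 : j' ≤ j) :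
    fw F₁ F₂ M i j = seg F₁ i i' ++ (fw F₁ F₂ M i' j' ++ seg F₂ j' j) := by
  rw [fw, fw, ← seg_append F₁ h1 h2, ← seg_append F₂ (Nat.zero_le j') h3]
  simp

theorem length_fw (i j : ℕ) : (fw F₁ F₂ M i j).length = (M - i) + 1 + j := by
  rw [fw, List.length_append, List.length_cons, length_seg, length_seg]
  omega

/-- An item: a string of symbols, and two numbers `i`, `j` which describe the factor
`F₁ i … F₁ (M - 1) c F₂ 0 … F₂ (j - 1)`. -/
abbrev Item (k : ℕ) (ι : Type) : Type := List (Sym (Fin 3) k ι) × ℕ × ℕ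

/-- One step inwards along a rule with one conjunct; the new factor is still long. -/
def Step (p q : Item G.k ι) : Prop :=
  p.2.1 ≤ q.2.1 ∧ q.2.1 ≤ M ∧ q.2.2 ≤ p.2.2 ∧ q.2.1 < q.2.2 ∧
    ∃ a B b, p.1 = a ++ Sym.var B :: b ∧ (B, [q.1]) ∈ G.rules ∧
      seg F₁ p.2.1 q.2.1 ∈ cat κ X a ∧ seg F₂ q.2.2 p.2.2 ∈ cat κ X b

/-- an item, the last item of its path, the position of the symbol at which the path ends, and
the two numbers which describe the factor of this symbol -/
abbrev Elt (k : ℕ) (ι : Type) : Type := Item k ι × Item k ι × ℕ × ℕ × ℕ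

/-- The last part of the description of `e`: the factor of the last item is cut, the factor of
the distinguished symbol is short and lies in its language, or it is long, the symbol is a
nonterminal and the strings of one of its rules are listed with this factor in `ℓ`. -/
def Exit (ℓ : List (Elt G.k ι)) (e : Elt G.k ι) : Prop :=
  e.2.1.2.1 < e.2.1.2.2 ∧ e.2.1.2.1 ≤ e.2.2.2.1 ∧ e.2.2.2.1 ≤ M ∧ e.2.2.2.2 ≤ e.2.1.2.2 ∧
    ∃ a σ b, e.2.1.1 = a ++ σ :: b ∧ a.length = e.2.2.1 ∧
      seg F₁ e.2.1.2.1 e.2.2.2.1 ∈ cat κ X a ∧ seg F₂ e.2.2.2.2 e.2.1.2.2 ∈ cat κ X b ∧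
      ((e.2.2.2.2 ≤ e.2.2.2.1 ∧ fw F₁ F₂ M e.2.2.2.1 e.2.2.2.2 ∈ val κ X σ) ∨
        (e.2.2.2.1 < e.2.2.2.2 ∧ ∃ B r, σ = Sym.var B ∧ (B, r) ∈ G.rules ∧
          ∀ s ∈ r, (s, e.2.2.2.1, e.2.2.2.2) ∈ ℓ.map Prod.fst))

/-- `e` describes a correct way to reduce its item to the items of `ℓ`. -/
def Valid (ℓ : List (Elt G.k ι)) (e : Elt G.k ι) : Prop :=
  Relation.ReflTransGen (Step G κ X F₁ F₂ M) e.1 e.2.1 ∧ Exit G κ X F₁ F₂ M ℓ e

/-- every element of the list is reduced to later ones -/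
def Good : List (Elt G.k ι) → Prop
  | [] => True
  | e :: ℓ => Valid G κ X F₁ F₂ M ℓ e ∧ Good ℓ

variable {G κ X F₁ F₂ M}

/-- A string which generates the factor of a later item generates the factor of the first one. -/
theorem step_back (hX : IsSolution G κ X) {p q : Item G.k ι} (h : Step G κ X F₁ F₂ M p q)
    (hq : fw F₁ F₂ M q.2.1 q.2.2 ∈ cat κ X q.1) : fw F₁ F₂ M p.2.1 p.2.2 ∈ cat κ X p.1 := by
  obtain ⟨h1, h2, h3, -, a, B, b, h5, h6, h7, h8⟩ := h
  rw [fw_split F₁ F₂ M h1 h2 h3, h5]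
  refine mem_cat_mid h7 ?_ h8
  rw [mem_val_var, hX B]
  refine ⟨_, h6, ?_⟩
  intro s hs
  rw [List.mem_singleton] at hs
  rw [hs]
  exact hq

theorem path_back (hX : IsSolution G κ X) {p q : Item G.k ι}
    (h : Relation.ReflTransGen (Step G κ X F₁ F₂ M) p q)
    (hq : fw F₁ F₂ M q.2.1 q.2.2 ∈ cat κ X q.1) : fw F₁ F₂ M p.2.1 p.2.2 ∈ cat κ X p.1 := by
  induction h using Relation.ReflTransGen.head_induction_on with
  | refl => exact hq
  | head h _ ih => exact step_back hX h ih

theorem path_le {p q : Item G.k ι} (h : Relation.ReflTransGen (Step G κ X F₁ F₂ M) p q) :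
    p.2.1 ≤ q.2.1 ∧ q.2.2 ≤ p.2.2 := by
  induction h with
  | refl => exact ⟨le_rfl, le_rfl⟩
  | tail _ h ih => exact ⟨ih.1.trans h.1, h.2.2.1.trans ih.2⟩

/-- A path depends only on the letters which it reads. -/
theorem path_congr {F₁' F₂' : ℕ → Fin 3} {p q : Item G.k ι}
    (h : Relation.ReflTransGen (Step G κ X F₁ F₂ M) p q)
    (h1 : ∀ x, p.2.1 ≤ x → x < q.2.1 → F₁ x = F₁' x)
    (h2 : ∀ x, q.2.2 ≤ x → x < p.2.2 → F₂ x = F₂' x) :
    Relation.ReflTransGen (Step G κ X F₁' F₂' M) p q := by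
  induction h with
  | refl => exact Relation.ReflTransGen.refl
  | @tail r q hpr hrq ih =>
    have hle := path_le hpr
    obtain ⟨g1, g2, g3, g4, a, B, b, g5, g6, g7, g8⟩ := hrq
    refine (ih (fun x hx hx' => h1 x hx (hx'.trans_le g1))
      (fun x hx hx' => h2 x (g3.trans hx) hx')).tail ?_
    refine ⟨g1, g2, g3, g4, a, B, b, g5, g6, ?_, ?_⟩
    · rw [← seg_congr (F := F₁) (F' := F₁') (fun x hx hx' => h1 x (hle.1.trans hx) hx')]
      exact g7
    · rw [← seg_congr (F := F₂) (F' := F₂') (fun x hx hx' => h2 x hx (hx'.trans_le hle.2))]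
      exact g8

/-- The mixture lemma. If the same list is good for two infinite words which differ only in the
block `[l, r)`, and if no threshold of the list lies inside the block, then all items of the list
are correct for the mixture. -/
theorem mixture (hX : IsSolution G κ X) {l r : ℕ}
    (hF : ∀ x, x < l ∨ r ≤ x → F₁ x = F₂ x) (ℓ : List (Elt G.k ι))
    (h1 : Good G κ X F₁ F₁ M ℓ) (h2 : Good G κ X F₂ F₂ M ℓ)
    (hθ : ∀ e ∈ ℓ, min e.2.2.2.1 e.2.1.2.2 ≤ l ∨ r ≤ min e.2.2.2.1 e.2.1.2.2) :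
    ∀ e ∈ ℓ, fw F₁ F₂ M e.1.2.1 e.1.2.2 ∈ cat κ X e.1.1 := by
  induction ℓ with
  | nil => intro e he; simp at he
  | cons e ℓ ih =>
    have ih' := ih h1.2 h2.2 (fun e he => hθ e (List.mem_cons_of_mem _ he))
    intro e' he'
    rcases List.mem_cons.1 he' with rfl | he'
    swap
    · exact ih' e' he'
    obtain ⟨p1, a1, a2, a3, a4, a, σ, b, a5, a6, a7, a8, a9⟩ := h1.1
    obtain ⟨p2, b1, b2, b3, b4, a', σ', b', b5, b6, b7, b8, b9⟩ := h2.1
    obtain ⟨rfl, h3⟩ := List.append_inj (a5.symm.trans b5) (a6.trans b6.symm)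
    obtain ⟨rfl, rfl⟩ := List.cons.inj h3
    have hmid : fw F₁ F₂ M e'.2.2.2.1 e'.2.2.2.2 ∈ val κ X σ := by
      rcases a9 with ⟨a9, a10⟩ | ⟨a9, B, R, rfl, a11, a12⟩
      · rcases b9 with ⟨-, b10⟩ | ⟨b9, -⟩
        swap
        · omega
        rcases hθ e' List.mem_cons_self with h | h
        · have : seg F₂ 0 e'.2.2.2.2 = seg F₁ 0 e'.2.2.2.2 :=
            seg_congr fun x _ hx => (hF x (Or.inl (by
              rcases min_le_iff.1 h with h | h <;> omega))).symm
          rw [fw, this]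
          exact a10
        · have : seg F₁ e'.2.2.2.1 M = seg F₂ e'.2.2.2.1 M :=
            seg_congr fun x hx _ => hF x (Or.inr (by
              have := (le_min_iff.1 h).1
              omega))
          rw [fw, this]
          exact b10
      · rw [mem_val_var, hX B]
        refine ⟨R, a11, fun s hs => ?_⟩
        obtain ⟨e'', he'', h4⟩ := List.mem_map.1 (a12 s hs)
        have h5 := ih' e'' he''
        rw [h4] at h5
        exact h5
    have hlast : fw F₁ F₂ M e'.2.1.2.1 e'.2.1.2.2 ∈ cat κ X e'.2.1.1 := by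
      rw [fw_split F₁ F₂ M a2 a3 a4, a5]
      exact mem_cat_mid a7 hmid b8
    refine path_back hX (q := e'.2.1) ?_ hlast
    rcases hθ e' List.mem_cons_self with h | h
    · refine path_congr p2 (fun x _ hx => (hF x (Or.inl ?_)).symm) (fun x _ _ => rfl)
      rcases min_le_iff.1 h with h | h <;> omega
    · refine path_congr p1 (fun x _ _ => rfl) (fun x hx _ => hF x (Or.inr ?_))
      have := (le_min_iff.1 h).2
      omega

end Facts

/-! ## From a frugal derivation to a good list -/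

section Extraction

variable {ι : Type}

open Classical in
/-- the conjuncts of the rules, and the string which consists of the initial nonterminal -/
noncomputable def strs (G : Grammar (Fin 3) ι) : Finset (List (Sym (Fin 3) G.k ι)) :=
  insert [Sym.var G.start] (G.rules.flatMap Prod.snd).toFinset

theorem start_mem_strs (G : Grammar (Fin 3) ι) : [Sym.var G.start] ∈ strs G := by
  classical
  exact Finset.mem_insert_self _ _

theorem mem_strs {G : Grammar (Fin 3) ι} {A : Fin G.k} {r : List (List (Sym (Fin 3) G.k ι))}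
    (h : (A, r) ∈ G.rules) {s : List (Sym (Fin 3) G.k ι)} (hs : s ∈ r) : s ∈ strs G := by
  classical
  apply Finset.mem_insert_of_mem
  rw [List.mem_toFinset, List.mem_flatMap]
  exact ⟨(A, r), h, hs⟩

/-- the greatest length of a conjunct -/
noncomputable def maxLen (G : Grammar (Fin 3) ι) : ℕ := (strs G).sup List.length

/-- the finite set of all possible items -/
noncomputable def items (G : Grammar (Fin 3) ι) (M : ℕ) : Finset (Item G.k ι) :=
  strs G ×ˢ (Finset.range (M + 1) ×ˢ Finset.range (M + 1))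

/-- the finite set of all possible elements of a list -/
noncomputable def elts (G : Grammar (Fin 3) ι) (M : ℕ) : Finset (Elt G.k ι) :=
  items G M ×ˢ (items G M ×ˢ (Finset.range (maxLen G) ×ˢ
    (Finset.range (M + 1) ×ˢ Finset.range (M + 1))))

theorem card_elts (G : Grammar (Fin 3) ι) (M : ℕ) :
    (elts G M).card = (strs G).card ^ 2 * maxLen G * (M + 1) ^ 6 := by
  simp only [elts, items, Finset.card_product, Finset.card_range]
  ring

theorem eq_of_append_cons_eq {F : ℕ → Fin 3} (hF : ∀ x, F x ≠ 2) {M i j i' j' : ℕ}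
    (hi : i ≤ M) (hi' : i' ≤ M) (h : fw F F M i j = fw F F M i' j') : i = i' ∧ j = j' := by
  have h2 : ∀ a b, (2 : Fin 3) ∉ seg F a b := by
    intro a b hm
    simp only [seg, List.mem_map] at hm
    obtain ⟨x, -, hx⟩ := hm
    exact hF x hx
  have h3 := (List.append_cons_inj_of_notMem (h2 i M) (h2 0 j)).1 h
  have h4 := congrArg List.length h3.1
  have h5 := congrArg List.length h3.2.2
  rw [length_seg, length_seg] at h4 h5
  omega

theorem extraction {G : Grammar (Fin 3) ι} {κ : ι → Language (Fin 3)}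
    {X : Fin G.k → Language (Fin 3)} (hX : IsSolution G κ X) {F : ℕ → Fin 3}
    (hF : ∀ x, F x ≠ 2) {M n : ℕ} (hn : 0 < n) (hnM : n ≤ M) {C : Finset (Fin G.k × List (Fin 3))}
    (hw : Frugal G κ X (M + 1) C (fw F F M 0 n)) :
    ∃ ℓ : List (Elt G.k ι), Good G κ X F F M ℓ ∧ ([Sym.var G.start], 0, n) ∈ ℓ.map Prod.fst ∧
      ℓ.length ≤ (strs G).card * C.card + 1 ∧ ∀ e ∈ ℓ, e ∈ elts G M := by
  classical
  -- the admissible items
  set J : Finset (ℕ × ℕ) := (Finset.range (M + 1) ×ˢ Finset.range (M + 1)).filter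
    (fun ij => ∃ A, (A, fw F F M ij.1 ij.2) ∈ C) with hJ
  have hJcard : J.card ≤ C.card := by
    refine le_trans ?_ (Finset.card_image_le (s := C) (f := Prod.snd))
    apply Finset.card_le_card_of_injOn (fun ij => fw F F M ij.1 ij.2)
    · intro ij hij
      rw [Finset.mem_coe, hJ, Finset.mem_filter] at hij
      obtain ⟨-, A, hA⟩ := hij
      rw [Finset.mem_coe, Finset.mem_image]
      exact ⟨_, hA, rfl⟩
    · intro ij hij ij' hij' h
      rw [Finset.mem_coe, hJ, Finset.mem_filter, Finset.mem_product, Finset.mem_range] at hij hij'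
      have := eq_of_append_cons_eq hF (by omega) (by omega) h
      exact Prod.ext this.1 this.2
  set I : Finset (Item G.k ι) := strs G ×ˢ J with hI
  have hIcard : I.card ≤ (strs G).card * C.card := by
    rw [hI, Finset.card_product]
    exact Nat.mul_le_mul_left _ hJcard
  -- a longest good list with different admissible items
  let S : Set (List (Elt G.k ι)) := {ℓ | Good G κ X F F M ℓ ∧ (ℓ.map Prod.fst).Nodup ∧
    (∀ p ∈ ℓ.map Prod.fst, p ∈ I) ∧ ∀ e ∈ ℓ, e ∈ elts G M}
  have hSlen : ∀ ℓ ∈ S, ℓ.length ≤ I.card := by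
    rintro ℓ ⟨-, h1, h2, -⟩
    rw [← List.length_map (f := Prod.fst) (as := ℓ), ← List.toFinset_card_of_nodup h1]
    apply Finset.card_le_card
    intro p hp
    exact h2 p (List.mem_toFinset.1 hp)
  obtain ⟨ℓ, hℓS, hmax⟩ : ∃ ℓ ∈ S, ∀ ℓ' ∈ S, ℓ'.length ≤ ℓ.length := by
    by_contra hcon
    push Not at hcon
    have : ∀ m, ∃ ℓ ∈ S, m ≤ ℓ.length := by
      intro m
      induction m with
      | zero => exact ⟨[], ⟨trivial, by simp, by simp, by simp⟩, Nat.zero_le _⟩
      | succ m ih =>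
        obtain ⟨ℓ, hℓ, h⟩ := ih
        obtain ⟨ℓ', hℓ', h'⟩ := hcon ℓ hℓ
        exact ⟨ℓ', hℓ', by omega⟩
    obtain ⟨ℓ, hℓ, h⟩ := this (I.card + 1)
    have := hSlen ℓ hℓ
    omega
  obtain ⟨hgood, hnodup, hadm, helts⟩ := hℓS
  -- justified items
  let JI : Item G.k ι → Prop := fun p => ∃ e : Elt G.k ι, e.1 = p ∧ e ∈ elts G M ∧
    Valid G κ X F F M ℓ e
  have hJI : ∀ p ∈ I, JI p → p ∈ ℓ.map Prod.fst := by
    rintro p hp ⟨e, rfl, he, hv⟩
    by_contra hcon
    have : (e :: ℓ) ∈ S := by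
      refine ⟨⟨hv, hgood⟩, ?_, ?_, ?_⟩
      · rw [List.map_cons, List.nodup_cons]
        exact ⟨hcon, hnodup⟩
      · intro p' hp'
        rw [List.map_cons, List.mem_cons] at hp'
        rcases hp' with rfl | hp'
        · exact hp
        · exact hadm p' hp'
      · intro e' he'
        rcases List.mem_cons.1 he' with rfl | he'
        · exact he
        · exact helts e' he'
    have := hmax _ this
    simp at this
  let Just : Fin G.k → ℕ → ℕ → Prop := fun A i j =>
    (∃ s, (A, [s]) ∈ G.rules ∧ JI (s, i, j)) ∨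
      (∃ r, (A, r) ∈ G.rules ∧ ∀ s ∈ r, (s, i, j) ∈ ℓ.map Prod.fst)
  let Y : Fin G.k → Language (Fin 3) := fun A =>
    {v | v ∈ X A ∧ ∀ i j, i < j → j ≤ n → i ≤ M → v = fw F F M i j → Just A i j}
  have hYX : Y ≤ X := fun A v hv => hv.1
  have hmemY : ∀ {A : Fin G.k} {v : List (Fin 3)}, v ∈ Y A ↔
      v ∈ X A ∧ ∀ i j, i < j → j ≤ n → i ≤ M → v = fw F F M i j → Just A i j := Iff.rfl
  set κ' : ι → Language (Fin 3) := fun c => upTo (M + 1) (κ c) with hκ'
  have hκκ : κ' ≤ κ := fun c => upTo_le _ _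
  have hitems : ∀ {s : List (Sym (Fin 3) G.k ι)} {i j : ℕ}, s ∈ strs G → i ≤ M → j ≤ M →
      ((s, i, j) : Item G.k ι) ∈ items G M := by
    intro s i j hs hi hj
    rw [items, Finset.mem_product, Finset.mem_product, Finset.mem_range, Finset.mem_range]
    exact ⟨hs, Nat.lt_succ_of_le hi, Nat.lt_succ_of_le hj⟩
  have hlenlt : ∀ {a b : List (Sym (Fin 3) G.k ι)} {σ : Sym (Fin 3) G.k ι},
      a ++ σ :: b ∈ strs G → a.length < maxLen G := by
    intro a b σ h
    have h1 : (a ++ σ :: b).length ≤ maxLen G := Finset.le_sup (f := List.length) h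
    simp at h1
    omega
  -- every string with its factor is justified
  have hkey : ∀ (s : List (Sym (Fin 3) G.k ι)) (i j : ℕ), s ∈ strs G → i < j → j ≤ n → i ≤ M →
      fw F F M i j ∈ cat κ' Y s → JI (s, i, j) := by
    intro s i j hs hij hjn hiM hcat
    obtain ⟨a, σ, b, x1, x2, y1, y2, rfl, h1, h2, h3, h4, h5⟩ := cat_split hcat
    obtain ⟨i', hi1, hi2, rfl, rfl⟩ := seg_split h1 hiM
    obtain ⟨j', -, hj2, rfl, rfl⟩ := seg_split h2 (Nat.zero_le j)
    have h3' : seg F i i' ∈ cat κ X a := cat_mono hκκ hYX a h3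
    have h4' : seg F j' j ∈ cat κ X b := cat_mono hκκ hYX b h4
    have hp := hlenlt hs
    rcases Nat.lt_or_ge i' j' with hlong | hshort
    · -- the new factor is long
      have hlen : (fw F F M i' j').length = (M - i') + 1 + j' := length_fw F F M i' j'
      cases σ with
      | letter x =>
        exfalso
        have h6 := congrArg List.length (mem_val_letter.1 h5)
        change (fw F F M i' j').length = 1 at h6
        omega
      | const c =>
        exfalso
        have h6 : (fw F F M i' j').length ≤ M + 1 := h5.2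
        omega
      | var B =>
        have h6 := (hmemY.1 (mem_val_var.1 h5)).2 i' j' hlong (by omega) hi2 rfl
        rcases h6 with ⟨t, ht, e, he1, he2, he3⟩ | ⟨r, hr, hr2⟩
        · -- one more step in front of a path
          refine ⟨((a ++ Sym.var B :: b, i, j), e.2), rfl, ?_, ?_, ?_⟩
          · rw [elts, Finset.mem_product] at he2 ⊢
            exact ⟨hitems hs hiM (by omega), he2.2⟩
          · refine Relation.ReflTransGen.head ?_ he3.1
            rw [he1]
            exact ⟨hi1, hi2, hj2, hlong, a, B, b, rfl, ht, h3', h4'⟩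
          · exact he3.2
        · refine ⟨((a ++ Sym.var B :: b, i, j), (a ++ Sym.var B :: b, i, j), a.length, i', j'),
            rfl, ?_, Relation.ReflTransGen.refl, ?_⟩
          · simp only [elts, Finset.mem_product, Finset.mem_range]
            exact ⟨hitems hs hiM (by omega), hitems hs hiM (by omega), hp, by omega, by omega⟩
          · exact ⟨hij, hi1, hi2, hj2, a, Sym.var B, b, rfl, rfl, h3', h4',
              Or.inr ⟨hlong, B, r, rfl, hr, hr2⟩⟩
    · refine ⟨((a ++ σ :: b, i, j), (a ++ σ :: b, i, j), a.length, i', j'),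
        rfl, ?_, Relation.ReflTransGen.refl, ?_⟩
      · simp only [elts, Finset.mem_product, Finset.mem_range]
        exact ⟨hitems hs hiM (by omega), hitems hs hiM (by omega), hp, by omega, by omega⟩
      · exact ⟨hij, hi1, hi2, hj2, a, σ, b, rfl, rfl, h3', h4',
          Or.inl ⟨hshort, val_mono hκκ hYX σ h5⟩⟩
  have hclosed : Closed G κ X (M + 1) C Y := by
    intro A v hv
    rcases hv with ⟨hv, hlen⟩ | ⟨s, hs, hv⟩ | ⟨hC, r, hr, hv⟩
    · refine ⟨hv, fun i j hij hjn hiM hvij => ?_⟩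
      exfalso
      rw [hvij, length_fw] at hlen
      omega
    · refine ⟨(hX A v).2 ⟨[s], hs, ?_⟩, fun i j hij hjn hiM hvij => Or.inl ⟨s, hs, ?_⟩⟩
      · intro s' hs'
        rw [List.mem_singleton] at hs'
        rw [hs']
        exact cat_mono hκκ hYX s hv
      · rw [hvij] at hv
        exact hkey s i j (mem_strs hs List.mem_cons_self) hij hjn hiM hv
    · refine ⟨(hX A v).2 ⟨r, hr, fun s hs => cat_mono hκκ hYX s (hv s hs)⟩,
        fun i j hij hjn hiM hvij => Or.inr ⟨r, hr, fun s hs => ?_⟩⟩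
      have hs' := mem_strs hr hs
      subst hvij
      refine hJI _ ?_ (hkey s i j hs' hij hjn hiM (hv s hs))
      rw [hI, Finset.mem_product, hJ, Finset.mem_filter, Finset.mem_product, Finset.mem_range,
        Finset.mem_range]
      exact ⟨hs', ⟨by change i < M + 1; omega, by change j < M + 1; omega⟩, A, hC⟩
  have hroot := (hmemY.1 (hw Y hclosed)).2 0 n hn le_rfl (Nat.zero_le M) rfl
  have hrootJI : JI ([Sym.var G.start], 0, n) := by
    have hs0 := start_mem_strs G
    rcases hroot with ⟨s, hs, e, he1, he2, he3⟩ | ⟨r, hr, hr2⟩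
    · refine ⟨(([Sym.var G.start], 0, n), e.2), rfl, ?_, ?_, he3.2⟩
      · rw [elts, Finset.mem_product] at he2 ⊢
        exact ⟨hitems hs0 (Nat.zero_le _) hnM, he2.2⟩
      · refine Relation.ReflTransGen.head ?_ he3.1
        rw [he1]
        refine ⟨le_rfl, Nat.zero_le _, le_rfl, hn, [], G.start, [], rfl, hs, ?_, ?_⟩
        · rw [mem_cat_nil]
          exact seg_self F 0
        · rw [mem_cat_nil]
          exact seg_self F n
    · refine ⟨(([Sym.var G.start], 0, n), ([Sym.var G.start], 0, n), 0, 0, n), rfl, ?_,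
        Relation.ReflTransGen.refl, ?_⟩
      · have h0 : 0 < maxLen G := by
          have : ([] ++ Sym.var G.start :: [] : List (Sym (Fin 3) G.k ι)) ∈ strs G := hs0
          exact hlenlt this
        simp only [elts, Finset.mem_product, Finset.mem_range]
        exact ⟨hitems hs0 (Nat.zero_le _) hnM, hitems hs0 (Nat.zero_le _) hnM, h0, by omega,
          by omega⟩
      · refine ⟨hn, le_rfl, Nat.zero_le _, le_rfl, [], Sym.var G.start, [], rfl, rfl, ?_, ?_,
          Or.inr ⟨hn, G.start, r, rfl, hr, hr2⟩⟩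
        · rw [mem_cat_nil]
          exact seg_self F 0
        · rw [mem_cat_nil]
          exact seg_self F n
  obtain ⟨e, he1, he2, he3⟩ := hrootJI
  refine ⟨e :: ℓ, ⟨he3, hgood⟩, ?_, ?_, ?_⟩
  · rw [List.map_cons, he1]
    exact List.mem_cons_self
  · rw [List.length_cons]
    have := hSlen ℓ ⟨hgood, hnodup, hadm, helts⟩
    omega
  · intro e' he'
    rcases List.mem_cons.1 he' with rfl | he'
    · exact he2
    · exact helts e' he'

end Extraction

/-! ## Counting -/

/-- the letters `a, b` given by a Boolean word, continued by the letter `a` -/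
def ext {n : ℕ} (u : Fin n → Bool) (x : ℕ) : Fin 3 :=
  if h : x < n then (if u ⟨x, h⟩ then 1 else 0) else 0

theorem ext_ne_two {n : ℕ} (u : Fin n → Bool) (x : ℕ) : ext u x ≠ 2 := by
  unfold ext
  split_ifs <;> decide

theorem card_block {n a b : ℕ} (h : a + b ≤ n) :
    (Finset.univ.filter (fun x : Fin n => a ≤ x.val ∧ x.val < a + b)).card = b := by
  rw [← Finset.card_map Fin.valEmbedding]
  have : (Finset.univ.filter (fun x : Fin n => a ≤ x.val ∧ x.val < a + b)).map Fin.valEmbedding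
      = Finset.Ico a (a + b) := by
    ext y
    simp only [Finset.mem_map, Finset.mem_filter, Finset.mem_univ, true_and,
      Fin.valEmbedding_apply, Finset.mem_Ico]
    constructor
    · rintro ⟨x, hx, rfl⟩
      exact hx
    · intro hy
      exact ⟨⟨y, by omega⟩, hy, rfl⟩
  rw [this, Nat.card_Ico]
  omega

/-- the Boolean words which vanish on the block `[a, a + b)` -/
def blk (n a b : ℕ) : Finset (Fin n → Bool) :=
  Fintype.piFinset (fun x : Fin n => if a ≤ x.val ∧ x.val < a + b then {false} else Finset.univ)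

theorem card_blk {n a b : ℕ} (h : a + b ≤ n) : (blk n a b).card = 2 ^ (n - b) := by
  have h1 : ∀ x : Fin n, (if a ≤ x.val ∧ x.val < a + b then ({false} : Finset Bool)
      else Finset.univ).card = if a ≤ x.val ∧ x.val < a + b then 1 else 2 := by
    intro x
    split_ifs <;> rfl
  rw [blk, Fintype.card_piFinset, Finset.prod_congr rfl (fun x _ => h1 x), Finset.prod_ite,
    Finset.prod_const_one, one_mul, Finset.prod_const]
  congr 1
  have h2 := Finset.card_filter_add_card_filter_not (s := (Finset.univ : Finset (Fin n)))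
    (fun x : Fin n => a ≤ x.val ∧ x.val < a + b)
  rw [card_block h, Finset.card_univ, Fintype.card_fin] at h2
  omega

/-- Among `T + 1` disjoint blocks there is one without a threshold in its interior. -/
theorem exists_free_block {β : Type*} (ℓ : List β) (θ : β → ℕ) {T : ℕ} (hT : ℓ.length ≤ T)
    (b : ℕ) : ∃ s ≤ T, ∀ e ∈ ℓ, θ e ≤ s * b ∨ s * b + b ≤ θ e := by
  by_contra hcon
  push Not at hcon
  have h1 : ∀ s : Fin (T + 1), ∃ i : Fin ℓ.length,
      s.val * b < θ (ℓ.get i) ∧ θ (ℓ.get i) < s.val * b + b := by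
    intro s
    obtain ⟨e, he, h⟩ := hcon s.val (Nat.lt_succ_iff.1 s.isLt)
    obtain ⟨i, rfl⟩ := List.get_of_mem he
    exact ⟨i, h⟩
  choose f hf using h1
  have hinj : Function.Injective f := by
    intro s t hst
    have h2 := hf s
    have h3 := hf t
    rw [hst] at h2
    apply Fin.ext
    rcases lt_trichotomy s.val t.val with h | h | h
    · have : (s.val + 1) * b ≤ t.val * b := Nat.mul_le_mul_right b h
      rw [Nat.add_mul] at this
      omega
    · exact h
    · have : (t.val + 1) * b ≤ s.val * b := Nat.mul_le_mul_right b h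
      rw [Nat.add_mul] at this
      omega
  have := Fintype.card_le_of_injective f hinj
  simp only [Fintype.card_fin] at this
  omega

/-- The main lower bound. -/
theorem core {ι : Type} {G : Grammar (Fin 3) ι} {κ : ι → Language (Fin 3)}
    {X : Fin G.k → Language (Fin 3)} (hX : IsSolution G κ X)
    (hT : ∀ w ∈ X G.start, w ∉ mism) {M n t T b : ℕ} (hn : 0 < n) (hnM : n ≤ M)
    (hTt : (strs G).card * t + 1 ≤ T) (hb : (T + 1) * b ≤ n)
    (hbig : ((elts G M).card + 1) ^ T < 2 ^ b) :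
    ∃ u : Fin n → Bool, ∀ C : Finset (Fin G.k × List (Fin 3)), C.card ≤ t →
      ¬ Frugal G κ X (M + 1) C (fw (ext u) (ext u) M 0 n) := by
  classical
  by_contra hcon
  push Not at hcon
  have h1 : ∀ u : Fin n → Bool, ∃ ℓ : List (Elt G.k ι), Good G κ X (ext u) (ext u) M ℓ ∧
      ([Sym.var G.start], 0, n) ∈ ℓ.map Prod.fst ∧ ℓ.length ≤ T ∧ ∀ e ∈ ℓ, e ∈ elts G M := by
    intro u
    obtain ⟨C, hC, hfr⟩ := hcon u
    obtain ⟨ℓ, h1, h2, h3, h4⟩ := extraction hX (ext_ne_two u) hn hnM hfr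
    refine ⟨ℓ, h1, h2, ?_, h4⟩
    have : (strs G).card * C.card ≤ (strs G).card * t := Nat.mul_le_mul_left _ hC
    omega
  choose L hL1 hL2 hL3 hL4 using h1
  -- first pigeonhole: the list
  let Φ : (Fin n → Bool) → (Fin T → Option (Elt G.k ι)) := fun u s => (L u)[s.val]?
  let D : Finset (Fin T → Option (Elt G.k ι)) :=
    Fintype.piFinset (fun _ => Finset.insertNone (elts G M))
  have hΦ : ∀ u ∈ (Finset.univ : Finset (Fin n → Bool)), Φ u ∈ D := by
    intro u _
    rw [Fintype.mem_piFinset]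
    intro s
    change (L u)[s.val]? ∈ _
    rcases Nat.lt_or_ge s.val (L u).length with h | h
    · rw [List.getElem?_eq_getElem h, Finset.some_mem_insertNone]
      exact hL4 u _ (List.getElem_mem h)
    · rw [List.getElem?_eq_none h]
      exact Finset.none_mem_insertNone
  have hDcard : D.card = ((elts G M).card + 1) ^ T := by
    rw [Fintype.card_piFinset, Finset.prod_const, Finset.card_univ, Fintype.card_fin,
      Finset.card_insertNone]
  have hbn : b ≤ n := by
    calc b ≤ (T + 1) * b := Nat.le_mul_of_pos_left b (Nat.succ_pos T)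
      _ ≤ n := hb
  have hcard1 : D.card * 2 ^ (n - b) < (Finset.univ : Finset (Fin n → Bool)).card := by
    rw [hDcard, Finset.card_univ, Fintype.card_fun, Fintype.card_bool, Fintype.card_fin]
    calc ((elts G M).card + 1) ^ T * 2 ^ (n - b) < 2 ^ b * 2 ^ (n - b) :=
          Nat.mul_lt_mul_of_pos_right hbig (by positivity)
      _ = 2 ^ n := by rw [← pow_add]; congr 1; omega
  obtain ⟨y, -, hy⟩ := Finset.exists_lt_card_fiber_of_mul_lt_card_of_maps_to hΦ hcard1
  set W : Finset (Fin n → Bool) := Finset.univ.filter (fun u => Φ u = y) with hW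
  have hWne : W.Nonempty := by
    rw [← Finset.card_pos]
    exact (Nat.zero_le _).trans_lt hy
  obtain ⟨u₀, hu₀⟩ := hWne
  have hsame : ∀ u ∈ W, L u = L u₀ := by
    intro u hu
    rw [hW, Finset.mem_filter] at hu hu₀
    apply List.ext_getElem?
    intro s
    rcases Nat.lt_or_ge s T with h | h
    · exact congrFun (hu.2.trans hu₀.2.symm) ⟨s, h⟩
    · rw [List.getElem?_eq_none ((hL3 u).trans h), List.getElem?_eq_none ((hL3 u₀).trans h)]
  -- a block without thresholds
  obtain ⟨s, hs, hfree⟩ := exists_free_block (L u₀)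
    (fun e => min e.2.2.2.1 e.2.1.2.2) (hL3 u₀) b
  have hsb : s * b + b ≤ n := by
    calc s * b + b = (s + 1) * b := by ring
      _ ≤ (T + 1) * b := Nat.mul_le_mul_right b (by omega)
      _ ≤ n := hb
  -- second pigeonhole: the part outside the block
  let ψ : (Fin n → Bool) → (Fin n → Bool) := fun u x =>
    if s * b ≤ x.val ∧ x.val < s * b + b then false else u x
  have hψ : ∀ u ∈ W, ψ u ∈ blk n (s * b) b := by
    intro u _
    rw [blk, Fintype.mem_piFinset]
    intro x
    change (if s * b ≤ x.val ∧ x.val < s * b + b then false else u x) ∈ _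
    split_ifs
    · exact Finset.mem_singleton_self _
    · exact Finset.mem_univ _
  obtain ⟨u₁, hu₁, u₂, hu₂, hne, heq⟩ := Finset.exists_ne_map_eq_of_card_lt_of_maps_to
    (s := W) (t := blk n (s * b) b) (by rw [card_blk hsb]; exact hy) hψ
  have hagree : ∀ x, x < s * b ∨ s * b + b ≤ x → ext u₁ x = ext u₂ x := by
    intro x hx
    unfold ext
    by_cases hxn : x < n
    · rw [dif_pos hxn, dif_pos hxn]
      have h2 := congrFun heq ⟨x, hxn⟩
      change (if s * b ≤ x ∧ x < s * b + b then false else u₁ ⟨x, hxn⟩) =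
        (if s * b ≤ x ∧ x < s * b + b then false else u₂ ⟨x, hxn⟩) at h2
      rw [if_neg (by omega), if_neg (by omega)] at h2
      rw [h2]
    · rw [dif_neg hxn, dif_neg hxn]
  have hg1 := hL1 u₁
  have hg2 := hL1 u₂
  rw [hsame u₁ hu₁] at hg1
  rw [hsame u₂ hu₂] at hg2
  obtain ⟨e, he, he2⟩ := List.mem_map.1 (hL2 u₀)
  have hmix := mixture hX hagree (L u₀) hg1 hg2 hfree e he
  rw [he2] at hmix
  change fw (ext u₁) (ext u₂) M 0 n ∈ cat κ X [Sym.var G.start] at hmix
  rw [mem_cat_cons] at hmix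
  obtain ⟨w, hw, v, hv, hwv⟩ := hmix
  rw [mem_cat_nil] at hv
  rw [hv, List.append_nil] at hwv
  rw [hwv] at hw
  refine hT _ hw ?_
  obtain ⟨x, hx⟩ := Function.ne_iff.1 hne
  refine ⟨seg (ext u₁) 0 x, seg (ext u₁) (x + 1) M, seg (ext u₂) 0 x, seg (ext u₂) (x + 1) n,
    ext u₁ x, ext u₂ x, ?_, ?_, ?_⟩
  · unfold ext
    rw [dif_pos x.isLt, dif_pos x.isLt]
    change ((if u₁ x then (1 : Fin 3) else 0) = 0 ∧ (if u₂ x then (1 : Fin 3) else 0) = 1) ∨
      ((if u₁ x then (1 : Fin 3) else 0) = 1 ∧ (if u₂ x then (1 : Fin 3) else 0) = 0)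
    revert hx
    cases u₁ x <;> cases u₂ x <;> simp
  · rw [length_seg, length_seg]
  · rw [fw, seg_cons (ext u₁) (Nat.zero_le x.val) (x.isLt.trans_le hnM),
      seg_cons (ext u₂) (Nat.zero_le x.val) x.isLt]
    simp

/-! ## The words `u a^m c u` -/

/-- the word `u a^m c u`, where `true`, `false` stand for the letters `b`, `a` of `u` -/
def dbl {n : ℕ} (u : Fin n → Bool) (m : ℕ) : List (Fin 3) :=
  List.ofFn (fun i => if u i then (1 : Fin 3) else 0) ++
    (List.replicate m 0 ++ 2 :: List.ofFn (fun i => if u i then (1 : Fin 3) else 0))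

theorem seg_ext {n : ℕ} (u : Fin n → Bool) :
    seg (ext u) 0 n = List.ofFn (fun i => if u i then (1 : Fin 3) else 0) := by
  apply List.ext_getElem
  · rw [length_seg, List.length_ofFn]
    omega
  · intro i h1 h2
    rw [List.length_ofFn] at h2
    simp only [seg, List.getElem_map, List.getElem_ofFn, List.Ico, List.getElem_range']
    rw [ext, dif_pos (by omega)]
    congr 2
    simp

theorem seg_ext_tail {n : ℕ} (u : Fin n → Bool) (m : ℕ) :
    seg (ext u) n (n + m) = List.replicate m 0 := by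
  rw [List.eq_replicate_iff]
  constructor
  · rw [length_seg]
    omega
  · intro x hx
    simp only [seg, List.mem_map, List.Ico.mem] at hx
    obtain ⟨y, hy, rfl⟩ := hx
    rw [ext, dif_neg (by omega)]

theorem dbl_eq_fw {n : ℕ} (u : Fin n → Bool) (m : ℕ) :
    dbl u m = fw (ext u) (ext u) (n + m) 0 n := by
  rw [fw, ← seg_append (ext u) (Nat.zero_le n) (Nat.le_add_right n m), seg_ext, seg_ext_tail, dbl,
    List.append_assoc]

theorem length_dbl {n : ℕ} (u : Fin n → Bool) (m : ℕ) : (dbl u m).length = 2 * n + m + 1 := by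
  rw [dbl_eq_fw, length_fw]
  omega

theorem two_notMem_seg {F : ℕ → Fin 3} (hF : ∀ x, F x ≠ 2) (a b : ℕ) : (2 : Fin 3) ∉ seg F a b := by
  intro hm
  simp only [seg, List.mem_map] at hm
  obtain ⟨x, -, hx⟩ := hm
  exact hF x hx

theorem head_of_seg {F : ℕ → Fin 3} {i j : ℕ} {p q : List (Fin 3)} {x : Fin 3}
    (hij : i ≤ j) (h : seg F i j = p ++ x :: q) : x = F (i + p.length) := by
  obtain ⟨k, h1, h2, h3, h4⟩ := seg_split h hij
  have h5 : p.length = k - i := by rw [h3, length_seg]
  have hk : k < j := by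
    by_contra hcon
    have : seg F k j = [] := by
      have : k = j := by omega
      rw [this, seg_self]
    rw [this] at h4
    simp at h4
  rw [seg_cons F le_rfl hk, seg_self] at h4
  simp only [List.nil_append, List.cons.injEq] at h4
  rw [h4.1]
  congr 1
  omega

theorem dbl_notMem_mism {n : ℕ} (u : Fin n → Bool) (m : ℕ) : dbl u m ∉ mism := by
  rw [dbl_eq_fw, mem_mism]
  rintro ⟨p, q, r, s, x, y, hxy, hpr, h⟩
  have h1 : seg (ext u) 0 (n + m) ++ 2 :: seg (ext u) 0 n = (p ++ x :: q) ++ 2 :: (r ++ y :: s) := by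
    rw [fw] at h
    rw [h]
    simp
  have h2 := (List.append_cons_inj_of_notMem (two_notMem_seg (ext_ne_two u) _ _)
    (two_notMem_seg (ext_ne_two u) _ _)).1 h1
  have h3 := head_of_seg (Nat.zero_le _) h2.1
  have h4 := head_of_seg (Nat.zero_le _) h2.2.2
  rw [hpr] at h3
  rw [← h4] at h3
  rcases hxy with ⟨rfl, rfl⟩ | ⟨rfl, rfl⟩ <;> simp at h3

/-! ## The quantitative theorem -/

/-- the constant of the lower bound -/
noncomputable def bound {ι : Type} (G : Grammar (Fin 3) ι) : ℕ :=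
  ((strs G).card + 2) ^ 2 * ((strs G).card ^ 2 * maxLen G + 8)

theorem quantitative {ι : Type} {G : Grammar (Fin 3) ι} {κ : ι → Language (Fin 3)}
    {X : Fin G.k → Language (Fin 3)} (hX : IsSolution G κ X)
    (hT : ∀ w ∈ X G.start, w ∉ mism) {n m t : ℕ}
    (h : bound G * (t + 1) ^ 2 * (Nat.log 2 (n + m + 1) + 1) ≤ n) :
    ∃ u : Fin n → Bool, ∀ C : Finset (Fin G.k × List (Fin 3)), C.card ≤ t →
      ¬ Frugal G κ X (n + m + 1) C (dbl u m) := by
  set q := (strs G).card with hq
  set P := q ^ 2 * maxLen G with hP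
  set Λ := Nat.log 2 (n + m + 1) + 1 with hΛ
  have hΛ1 : 1 ≤ Λ := by omega
  have hn : 0 < n := by
    refine lt_of_lt_of_le ?_ h
    have : 0 < bound G := by unfold bound; positivity
    positivity
  set T := q * t + 1 with hT'
  set b := T * ((P + 7) * Λ) + 1 with hb
  have hcard : (elts G (n + m)).card + 1 ≤ 2 ^ ((P + 7) * Λ) := by
    rw [card_elts, ← hq, ← hP]
    have h1 : n + m + 1 < 2 ^ Λ := Nat.lt_pow_succ_log_self (by norm_num) _
    have h2 : (n + m + 1) ^ 6 ≤ (2 ^ Λ) ^ 6 := Nat.pow_le_pow_left h1.le 6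
    have h3 : P + 1 ≤ 2 ^ P := Nat.lt_two_pow_self
    have h4 : 1 ≤ (n + m + 1) ^ 6 := Nat.one_le_pow _ _ (by omega)
    calc P * (n + m + 1) ^ 6 + 1 ≤ (P + 1) * (n + m + 1) ^ 6 := by
          rw [Nat.add_mul, one_mul]
          omega
      _ ≤ 2 ^ P * (2 ^ Λ) ^ 6 := Nat.mul_le_mul h3 h2
      _ = 2 ^ (P + 6 * Λ) := by rw [← pow_mul, ← pow_add, Nat.mul_comm Λ 6]
      _ ≤ 2 ^ ((P + 7) * Λ) := by
          apply Nat.pow_le_pow_right (by norm_num)
          have : P ≤ P * Λ := Nat.le_mul_of_pos_right P hΛ1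
          nlinarith
  have hbig : ((elts G (n + m)).card + 1) ^ T < 2 ^ b := by
    calc ((elts G (n + m)).card + 1) ^ T ≤ (2 ^ ((P + 7) * Λ)) ^ T := Nat.pow_le_pow_left hcard T
      _ = 2 ^ (T * ((P + 7) * Λ)) := by rw [← pow_mul, Nat.mul_comm]
      _ < 2 ^ b := Nat.pow_lt_pow_right (by norm_num) (by omega)
  have hTb : (T + 1) * b ≤ n := by
    refine le_trans ?_ h
    have h1 : T + 1 ≤ (q + 2) * (t + 1) := by
      rw [hT']
      nlinarith
    have h2 : b ≤ (q + 2) * (t + 1) * ((P + 8) * Λ) := by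
      have h3 : T ≤ (q + 2) * (t + 1) := by omega
      have h4 : T * ((P + 7) * Λ) ≤ (q + 2) * (t + 1) * ((P + 7) * Λ) := Nat.mul_le_mul_right _ h3
      have h5 : 1 ≤ (q + 2) * (t + 1) * Λ := by
        have : 0 < (q + 2) * (t + 1) * Λ := by positivity
        omega
      calc b = T * ((P + 7) * Λ) + 1 := rfl
        _ ≤ (q + 2) * (t + 1) * ((P + 7) * Λ) + (q + 2) * (t + 1) * Λ := by omega
        _ = (q + 2) * (t + 1) * ((P + 8) * Λ) := by ring
    calc (T + 1) * b ≤ ((q + 2) * (t + 1)) * ((q + 2) * (t + 1) * ((P + 8) * Λ)) :=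
          Nat.mul_le_mul h1 h2
      _ = bound G * (t + 1) ^ 2 * Λ := by
          rw [bound, ← hq, ← hP]
          ring
  obtain ⟨u, hu⟩ := core hX hT (M := n + m) (t := t) hn (Nat.le_add_right n m) le_rfl hTb hbig
  refine ⟨u, fun C hC => ?_⟩
  rw [dbl_eq_fw]
  exact hu C hC

/-! ## The classes -/

theorem Frugal.mono {α ι : Type} {G : Grammar α ι} {κ : ι → Language α}
    {X : Fin G.k → Language α} {l l' : ℕ} (hl : l ≤ l') {C C' : Finset (Fin G.k × List α)}
    (hC : C ⊆ C') {w : List α} (h : Frugal G κ X l C w) : Frugal G κ X l' C' w := by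
  intro Y hY
  apply h
  intro A v hv
  apply hY
  have hκ : (fun c => upTo l (κ c)) ≤ (fun c => upTo l' (κ c)) :=
    fun c v hv => ⟨hv.1, hv.2.trans hl⟩
  rcases hv with ⟨hv, hlen⟩ | ⟨s, hs, hv⟩ | ⟨hC', r, hr, hv⟩
  · exact Or.inl ⟨hv, hlen.trans hl⟩
  · exact Or.inr (Or.inl ⟨s, hs, cat_mono hκ le_rfl s hv⟩)
  · exact Or.inr (Or.inr ⟨hC hC', r, hr, fun s hs => cat_mono hκ le_rfl s (hv s hs)⟩)

theorem inClass_mism (f g : ℕ → ℕ) : InClass f g mism := by
  refine ⟨Empty, fun c => c.elim, mismGrammar, mismSol, mismSol_isLeast, rfl, ?_⟩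
  intro w hw
  refine ⟨∅, Nat.zero_le _, fun Y hY => ?_⟩
  have e : (fun c : Empty => upTo (w.length - g w.length)
      ((fun c : Empty => (c.elim : Language (Fin 3))) c)) = fun c => c.elim :=
    funext fun c => c.elim
  have hY' : ∀ (A : Fin 5) s, (A, [s]) ∈ mismRules → ∀ v,
      v ∈ cat (fun c : Empty => (c.elim : Language (Fin 3))) Y s → v ∈ Y A := by
    intro A s hs v hv
    apply hY A v
    refine Or.inr (Or.inl ⟨s, hs, ?_⟩)
    rw [e]
    exact hv
  exact mismSol_le (κ := fun c => c.elim) hY' 0 w hw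

theorem notInClass {f g : ℕ → ℕ}
    (hfg : ∀ K : ℕ, ∃ N, K * (f N + 1) ^ 2 * (Nat.log 2 N + 1) ≤ g N ∧ g N ≤ N)
    {L : Language (Fin 3)} (hL1 : ∀ w ∈ L, w ∉ mism)
    (hL2 : ∀ (n m : ℕ) (u : Fin n → Bool), dbl u m ∈ L) : ¬ InClass f g L := by
  rintro ⟨ι, κ, G, X, hX, rfl, hC⟩
  obtain ⟨N, hN1, hN2⟩ := hfg (4 * bound G)
  set Z := bound G * (f N + 1) ^ 2 * (Nat.log 2 N + 1) with hZ
  have hZpos : 0 < Z := by
    have : 0 < bound G := by unfold bound; positivity
    positivity
  have hZ4 : 4 * Z ≤ g N := by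
    calc 4 * Z = 4 * bound G * (f N + 1) ^ 2 * (Nat.log 2 N + 1) := by rw [hZ]; ring
      _ ≤ g N := hN1
  set n := min (g N) ((N - 1) / 2) with hn
  have hnZ : Z ≤ n := by
    rw [hn, le_min_iff]
    constructor <;> omega
  have hn2 : n ≤ (N - 1) / 2 := min_le_right _ _
  have hn1 : n ≤ g N := min_le_left _ _
  set m := N - 1 - 2 * n with hm
  have hlen : 2 * n + m + 1 = N := by omega
  have hlog : Nat.log 2 (n + m + 1) ≤ Nat.log 2 N := Nat.log_mono_right (by omega)
  obtain ⟨u, hu⟩ := quantitative hX.1 hL1 (n := n) (m := m) (t := f N) (by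
    refine le_trans ?_ hnZ
    rw [hZ]
    exact Nat.mul_le_mul_left _ (by omega))
  obtain ⟨C, hC1, hC2⟩ := hC (dbl u m) (hL2 n m u)
  rw [length_dbl, hlen] at hC1 hC2
  exact hu C hC1 (hC2.mono (by omega) (Finset.Subset.refl C))

/-! ## Grammars without recursion through conjunctions -/

/-- There is a rank function on the nonterminals which does not increase along the rules and
decreases along the rules with a number of conjuncts different from one. So conjunctions are not
used recursively. -/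
def Stratified {α ι : Type} (G : Grammar α ι) : Prop :=
  ∃ rk : Fin G.k → ℕ, ∀ A r, (A, r) ∈ G.rules → ∀ s ∈ r, ∀ B, Sym.var B ∈ s →
    rk B ≤ rk A ∧ (r.length ≠ 1 → rk B < rk A)

theorem mem_cat_of_short {α ι : Type} {G : Grammar α ι} {κ : ι → Language α}
    {X Y : Fin G.k → Language α} {l : ℕ} {C : Finset (Fin G.k × List α)}
    (hY : Closed G κ X l C Y) :
    ∀ {s : List (Sym α G.k ι)} {x : List α}, x ∈ cat κ X s → x.length ≤ l →
      x ∈ cat (fun c => upTo l (κ c)) Y s := by
  intro s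
  induction s with
  | nil =>
    intro x hx _
    rw [mem_cat_nil] at hx ⊢
    exact hx
  | cons σ s ih =>
    intro x hx hl
    rw [mem_cat_cons] at hx ⊢
    obtain ⟨u, hu, v, hv, rfl⟩ := hx
    rw [List.length_append] at hl
    refine ⟨u, ?_, v, ih hv (by omega), rfl⟩
    cases σ with
    | letter x => exact hu
    | var A => exact hY A u (Or.inl ⟨hu, by omega⟩)
    | const c => exact ⟨hu, by omega⟩

/-- In a stratified grammar whose constants do not contain words with the letter `c`, the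
factors which contain the letter `c` need only a bounded number of conjunctions. -/
theorem stratified_frugal {ι : Type} {G : Grammar (Fin 3) ι} {κ : ι → Language (Fin 3)}
    (hκ : ∀ c, ∀ w ∈ κ c, (2 : Fin 3) ∉ w) {X : Fin G.k → Language (Fin 3)}
    (hX : IsLeast {X | IsSolution G κ X} X) {rk : Fin G.k → ℕ}
    (hrk : ∀ A r, (A, r) ∈ G.rules → ∀ s ∈ r, ∀ B, Sym.var B ∈ s →
      rk B ≤ rk A ∧ (r.length ≠ 1 → rk B < rk A)) {Q : ℕ}
    (hQ : ∀ A r, (A, r) ∈ G.rules → r.length ≤ Q) {F : ℕ → Fin 3} (M : ℕ) :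
    ∀ A i j, i ≤ M → j ≤ M → fw F F M i j ∈ X A →
      ∃ C : Finset (Fin G.k × List (Fin 3)), C.card ≤ (Q + 1) ^ rk A ∧
        ∀ Y, Closed G κ X (M + 1) C Y → fw F F M i j ∈ Y A := by
  classical
  let P : Fin G.k → List (Fin 3) → Prop := fun A v => ∀ i j, i ≤ M → j ≤ M → v = fw F F M i j →
    ∃ C : Finset (Fin G.k × List (Fin 3)), C.card ≤ (Q + 1) ^ rk A ∧
        ∀ Y, Closed G κ X (M + 1) C Y → v ∈ Y A
  let Z : Fin G.k → Language (Fin 3) := fun A => {v | v ∈ X A ∧ P A v}
  have hZX : Z ≤ X := fun A v hv => hv.1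
  have hXZ : X ≤ Z := by
    refine le_of_closed hX ?_
    intro A r hr v hv
    have hvX : v ∈ X A := (hX.1 A v).2 ⟨r, hr, fun s hs => cat_mono le_rfl hZX s (hv s hs)⟩
    refine ⟨hvX, fun i j hi hj hvij => ?_⟩
    subst hvij
    -- one conjunct
    have h1 : ∀ s ∈ r, ∃ C : Finset (Fin G.k × List (Fin 3)),
        (C = ∅ ∨ ∃ B, Sym.var B ∈ s ∧ C.card ≤ (Q + 1) ^ rk B) ∧
        ∀ Y, Closed G κ X (M + 1) C Y →
          fw F F M i j ∈ cat (fun c => upTo (M + 1) (κ c)) Y s := by
      intro s hs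
      obtain ⟨a, σ, b, x1, x2, y1, y2, rfl, g1, g2, g3, g4, g5⟩ := cat_split (hv s hs)
      obtain ⟨i', hi1, hi2, rfl, rfl⟩ := seg_split g1 hi
      obtain ⟨j', -, hj2, rfl, rfl⟩ := seg_split g2 (Nat.zero_le j)
      have g3' : seg F i i' ∈ cat κ X a := cat_mono le_rfl hZX a g3
      have g4' : seg F j' j ∈ cat κ X b := cat_mono le_rfl hZX b g4
      have hl1 : (seg F i i').length ≤ M + 1 := by rw [length_seg]; omega
      have hl2 : (seg F j' j).length ≤ M + 1 := by rw [length_seg]; omega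
      cases σ with
      | letter x =>
        refine ⟨∅, Or.inl rfl, fun Y hY => ?_⟩
        rw [fw_split F F M hi1 hi2 hj2]
        exact mem_cat_mid (mem_cat_of_short hY g3' hl1) g5 (mem_cat_of_short hY g4' hl2)
      | const c =>
        exfalso
        refine hκ c _ g5 ?_
        simp
      | var B =>
        obtain ⟨C, hC1, hC2⟩ := g5.2 i' j' hi2 (by omega) rfl
        refine ⟨C, Or.inr ⟨B, by simp, hC1⟩, fun Y hY => ?_⟩
        rw [fw_split F F M hi1 hi2 hj2]
        exact mem_cat_mid (mem_cat_of_short hY g3' hl1) (hC2 Y hY) (mem_cat_of_short hY g4' hl2)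
    choose! Cs hCs1 hCs2 using h1
    have hpos : 1 ≤ (Q + 1) ^ rk A := Nat.one_le_pow _ _ (by omega)
    by_cases hone : r.length = 1
    · obtain ⟨s, rfl⟩ := List.length_eq_one_iff.1 hone
      have hs : s ∈ [s] := List.mem_cons_self
      refine ⟨Cs s, ?_, fun Y hY => hY A _ (Or.inr (Or.inl ⟨s, hr, hCs2 s hs Y hY⟩))⟩
      rcases hCs1 s hs with h | ⟨B, hB, h⟩
      · rw [h, Finset.card_empty]
        exact Nat.zero_le _
      · exact h.trans (Nat.pow_le_pow_right (by omega) ((hrk A [s] hr s hs B hB).1))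
    · refine ⟨insert (A, fw F F M i j) (r.toFinset.biUnion Cs), ?_, fun Y hY => ?_⟩
      · have hcard : (r.toFinset.biUnion Cs).card + 1 ≤ (Q + 1) ^ rk A := by
          rcases Nat.eq_zero_or_pos (rk A) with h0 | h0
          · have : r.toFinset.biUnion Cs = ∅ := by
              apply Finset.eq_empty_of_forall_notMem
              intro p hp
              obtain ⟨s, hs, hps⟩ := Finset.mem_biUnion.1 hp
              rw [List.mem_toFinset] at hs
              rcases hCs1 s hs with h | ⟨B, hB, -⟩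
              · rw [h] at hps
                exact Finset.notMem_empty _ hps
              · have := (hrk A r hr s hs B hB).2 hone
                omega
            rw [this, Finset.card_empty]
            omega
          · have h2 : (r.toFinset.biUnion Cs).card ≤ r.toFinset.card * (Q + 1) ^ (rk A - 1) := by
              apply Finset.card_biUnion_le_card_mul
              intro s hs
              rw [List.mem_toFinset] at hs
              rcases hCs1 s hs with h | ⟨B, hB, h⟩
              · rw [h, Finset.card_empty]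
                exact Nat.zero_le _
              · refine h.trans (Nat.pow_le_pow_right (by omega) ?_)
                have := (hrk A r hr s hs B hB).2 hone
                omega
            have h3 : r.toFinset.card ≤ Q := (List.toFinset_card_le r).trans (hQ A r hr)
            have h4 : 1 ≤ (Q + 1) ^ (rk A - 1) := Nat.one_le_pow _ _ (by omega)
            calc (r.toFinset.biUnion Cs).card + 1
                ≤ Q * (Q + 1) ^ (rk A - 1) + (Q + 1) ^ (rk A - 1) := by
                  have := Nat.mul_le_mul_right ((Q + 1) ^ (rk A - 1)) h3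
                  omega
              _ = (Q + 1) ^ (rk A - 1 + 1) := by rw [pow_succ]; ring
              _ = (Q + 1) ^ rk A := by congr 1; omega
        exact (Finset.card_insert_le _ _).trans hcard
      · refine hY A _ (Or.inr (Or.inr ⟨Finset.mem_insert_self _ _, r, hr, fun s hs => ?_⟩))
        refine hCs2 s hs Y ?_
        intro A' v' hv'
        apply hY A' v'
        rcases hv' with h | h | ⟨h, h'⟩
        · exact Or.inl h
        · exact Or.inr (Or.inl h)
        · refine Or.inr (Or.inr ⟨Finset.mem_insert_of_mem ?_, h'⟩)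
          rw [Finset.mem_biUnion]
          exact ⟨s, List.mem_toFinset.2 hs, h⟩
  intro A i j hi hj hA
  exact (hXZ A hA).2 i j hi hj rfl

theorem exists_large (K : ℕ) : ∃ n, K * (Nat.log 2 (n + 1) + 1) ≤ n := by
  refine ⟨2 ^ (3 * (K + 2)), ?_⟩
  have h1 : Nat.log 2 (2 ^ (3 * (K + 2)) + 1) ≤ 3 * (K + 2) := by
    rw [← Nat.lt_succ_iff]
    apply Nat.log_lt_of_lt_pow (Nat.succ_ne_zero _)
    have : 1 < 2 ^ (3 * (K + 2)) := Nat.one_lt_two_pow (by omega)
    rw [Nat.succ_eq_add_one, pow_succ]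
    omega
  have h2 : K + 3 ≤ 2 ^ (K + 2) := Nat.lt_two_pow_self
  calc K * (Nat.log 2 (2 ^ (3 * (K + 2)) + 1) + 1) ≤ K * (3 * (K + 2) + 1) :=
        Nat.mul_le_mul_left _ (by omega)
    _ ≤ (K + 3) ^ 3 := by nlinarith [sq_nonneg (K : ℤ), Nat.zero_le K]
    _ ≤ (2 ^ (K + 2)) ^ 3 := Nat.pow_le_pow_left h2 3
    _ = 2 ^ (3 * (K + 2)) := by rw [← pow_mul, Nat.mul_comm]

theorem not_stratified {ι : Type} {G : Grammar (Fin 3) ι} {κ : ι → Language (Fin 3)}
    (hκ : ∀ c, ∀ w ∈ κ c, (2 : Fin 3) ∉ w) {X : Fin G.k → Language (Fin 3)}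
    (hX : IsLeast {X | IsSolution G κ X} X) (hG : Stratified G)
    (hL1 : ∀ w ∈ X G.start, w ∉ mism)
    (hL2 : ∀ (n : ℕ) (u : Fin n → Bool), dbl u 0 ∈ X G.start) : False := by
  obtain ⟨rk, hrk⟩ := hG
  set Q := (G.rules.map (fun p => p.2.length)).sum with hQdef
  have hQ : ∀ A r, (A, r) ∈ G.rules → r.length ≤ Q := by
    intro A r hr
    rw [hQdef]
    exact List.single_le_sum (fun _ _ => Nat.zero_le _) _
      (List.mem_map.2 ⟨(A, r), hr, rfl⟩)
  set t := (Q + 1) ^ rk G.start with ht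
  obtain ⟨n, hn⟩ := exists_large (bound G * (t + 1) ^ 2)
  obtain ⟨u, hu⟩ := quantitative hX.1 hL1 (n := n) (m := 0) (t := t) hn
  have h1 := hL2 n u
  rw [dbl_eq_fw] at h1
  obtain ⟨C, hC1, hC2⟩ := stratified_frugal hκ hX hrk hQ (F := ext u) (n + 0) G.start 0 n
    (Nat.zero_le _) (by omega) h1
  refine hu C hC1 ?_
  intro Y hY
  rw [dbl_eq_fw]
  exact hC2 Y hY

/-! ## The main theorem -/

/-- **Few long conjunctions do not suffice.** The language `mism` is context-free, but no
language `L` which is disjoint from `mism` and contains the words `u a^m c u`, such as the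
complement of `mism`, is generated with few long conjunctions or without recursion through
conjunctions. -/
theorem result :
    -- `mism` is generated by an ordinary context-free grammar, so it belongs to all classes
    ((∀ A r, (A, r) ∈ mismGrammar.rules → r.length = 1) ∧
      (∃ X, IsLeast {X | IsSolution mismGrammar (fun c => c.elim) X} X ∧
        X mismGrammar.start = mism) ∧
      ∀ f g : ℕ → ℕ, InClass f g mism) ∧
    -- the complement of `mism` is not in the class if `g` is not bounded by a multiple of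
    -- `f ^ 2 * log`
    (∀ f g : ℕ → ℕ, (∀ K : ℕ, ∃ N, K * (f N + 1) ^ 2 * (Nat.log 2 N + 1) ≤ g N ∧ g N ≤ N) →
      ∀ L : Language (Fin 3), (∀ w ∈ L, w ∉ mism) →
        (∀ (n m : ℕ) (u : Fin n → Bool), dbl u m ∈ L) → ¬ InClass f g L) ∧
    -- a lower bound for every grammar
    (∀ (ι : Type) (κ : ι → Language (Fin 3)) (G : Grammar (Fin 3) ι)
      (X : Fin G.k → Language (Fin 3)), IsLeast {X | IsSolution G κ X} X →
      (∀ w ∈ X G.start, w ∉ mism) →
      ∃ K : ℕ, ∀ n m t : ℕ, K * (t + 1) ^ 2 * (Nat.log 2 (n + m + 1) + 1) ≤ n →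
        ∃ u : Fin n → Bool, ∀ C : Finset (Fin G.k × List (Fin 3)), C.card ≤ t →
          ¬ Frugal G κ X (n + m + 1) C (dbl u m)) ∧
    -- no grammar without recursion through conjunctions
    (∀ (ι : Type) (κ : ι → Language (Fin 3)) (G : Grammar (Fin 3) ι)
      (X : Fin G.k → Language (Fin 3)), (∀ c, ∀ w ∈ κ c, (2 : Fin 3) ∉ w) →
      IsLeast {X | IsSolution G κ X} X → Stratified G →
      (∀ w ∈ X G.start, w ∉ mism) → ¬ ∀ (n : ℕ) (u : Fin n → Bool), dbl u 0 ∈ X G.start) ∧
    -- the words used above are not in `mism`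
    ∀ (n m : ℕ) (u : Fin n → Bool), dbl u m ∈ mismᶜ := by
  refine ⟨⟨?_, ⟨mismSol, mismSol_isLeast, rfl⟩, inClass_mism⟩, ?_, ?_, ?_, ?_⟩
  · have h : ∀ p ∈ mismRules, p.2.length = 1 := by
      intro p hp
      simp only [mismRules, List.mem_cons, List.not_mem_nil, or_false] at hp
      rcases hp with rfl | rfl | rfl | rfl | rfl | rfl | rfl | rfl | rfl | rfl | rfl <;> rfl
    intro A r hr
    exact h (A, r) hr
  · intro f g hfg L hL1 hL2
    exact notInClass hfg hL1 hL2
  · intro ι κ G X hX hT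
    exact ⟨bound G, fun n m t h => quantitative hX.1 hT h⟩
  · intro ι κ G X hκ hX hG hL1 hL2
    exact not_stratified hκ hX hG hL1 hL2
  · intro n m u
    exact dbl_notMem_mism u m

end Pool.Agent.Results.MP_86a971_lc.FewLongConjunctions
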