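import Mathlib

/-!
# Conjunctive grammars with constant languages: non-closure under complement

For every countable family `F` of languages over the alphabet `{a, b, c} = {0, 1, 2}` and for all
pairs `(P, Q)` of sets of natural numbers outside a meagre set the following holds for
`K = {a b^i : i ∈ P}` and `L = {b^j c : j ∈ Q}`: the complement of `K L` is not generated by a
conjunctive grammar in which `K`, `L`, their complements and the languages of `F` may be used as
constants.
-/

namespace Pool.Agent.Results.MP_86a971_lc.GenericConstants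

open Set Filter Topology

/-- The symbols which may occur in a rule: a letter of the alphabet `α`, a nonterminal (the
nonterminals are `0, …, k - 1`), or a name `c : ι` of a constant language. -/
inductive Sym (α : Type) (k : ℕ) (ι : Type) : Type
  | letter (x : α) : Sym α k ι
  | var (A : Fin k) : Sym α k ι
  | const (c : ι) : Sym α k ι

/-- A conjunctive grammar over the alphabet `α` whose rules may contain names `c : ι` of constant
languages. The pair `(A, [α₁, …, αₘ])` is the rule `A → α₁ & … & αₘ`. -/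
structure Grammar (α ι : Type) : Type where
  /-- the nonterminals are `0, …, k - 1` -/
  k : ℕ
  /-- the rules -/
  rules : List (Fin k × List (List (Sym α k ι)))
  /-- the initial nonterminal -/
  start : Fin k

section Semantics

variable {α ι : Type} {k : ℕ}

/-- The language denoted by a symbol, when the nonterminals denote the languages `X` and the
constants denote the languages `κ`. -/
def val (κ : ι → Language α) (X : Fin k → Language α) : Sym α k ι → Language α
  | Sym.letter x => {[x]}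
  | Sym.var A => X A
  | Sym.const c => κ c

/-- The language denoted by a string of symbols (concatenation). -/
def cat (κ : ι → Language α) (X : Fin k → Language α) (s : List (Sym α k ι)) : Language α :=
  (s.map (val κ X)).prod

/-- `X` solves the system `A = ⋃_{A → α₁ & … & αₘ} ⋂_i αᵢ` of the grammar. -/
def IsSolution (G : Grammar α ι) (κ : ι → Language α) (X : Fin G.k → Language α) : Prop :=
  ∀ A w, w ∈ X A ↔ ∃ r, (A, r) ∈ G.rules ∧ ∀ s ∈ r, w ∈ cat κ X s

/-- The grammar generates `T` if `T` is the component of the initial nonterminal in the least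
solution. -/
def Generates (G : Grammar α ι) (κ : ι → Language α) (T : Language α) : Prop :=
  ∃ X, IsLeast {X | IsSolution G κ X} X ∧ X G.start = T

theorem val_mono {κ : ι → Language α} {X Y : Fin k → Language α} (h : X ≤ Y)
    (σ : Sym α k ι) : val κ X σ ≤ val κ Y σ := by
  cases σ with
  | letter x => exact le_rfl
  | var A => exact h A
  | const c => exact le_rfl

theorem mem_cat_nil {κ : ι → Language α} {X : Fin k → Language α} {w : List α} :
    w ∈ cat κ X [] ↔ w = [] := by
  simp [cat, Language.mem_one]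

theorem mem_cat_cons {κ : ι → Language α} {X : Fin k → Language α} {σ : Sym α k ι}
    {s : List (Sym α k ι)} {w : List α} :
    w ∈ cat κ X (σ :: s) ↔ ∃ u ∈ val κ X σ, ∃ v ∈ cat κ X s, u ++ v = w := by
  simp [cat, Language.mem_mul]

theorem cat_append (κ : ι → Language α) (X : Fin k → Language α) (s t : List (Sym α k ι)) :
    cat κ X (s ++ t) = cat κ X s * cat κ X t := by
  simp [cat]

/-- Transfer on a set of words closed under prefixes and suffixes. -/
theorem cat_on {D : Set (List α)} (hD : ∀ u v, u ++ v ∈ D → u ∈ D ∧ v ∈ D)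
    {κ κ' : ι → Language α} {X X' : Fin k → Language α}
    (hκ : ∀ c, ∀ w ∈ D, w ∈ κ c → w ∈ κ' c) (hX : ∀ A, ∀ w ∈ D, w ∈ X A → w ∈ X' A)
    (s : List (Sym α k ι)) : ∀ w ∈ D, w ∈ cat κ X s → w ∈ cat κ' X' s := by
  induction s with
  | nil =>
    intro w _ hw
    rw [mem_cat_nil] at hw ⊢
    exact hw
  | cons σ s ih =>
    intro w hw h
    rw [mem_cat_cons] at h ⊢
    obtain ⟨u, hu, v, hv, rfl⟩ := h
    obtain ⟨h1, h2⟩ := hD u v hw
    refine ⟨u, ?_, v, ih v h2 hv, rfl⟩
    cases σ with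
    | letter x => exact hu
    | var A => exact hX A u h1 hu
    | const c => exact hκ c u h1 hu

theorem cat_mono {κ : ι → Language α} {X Y : Fin k → Language α} (h : X ≤ Y)
    (s : List (Sym α k ι)) : cat κ X s ≤ cat κ Y s := by
  intro w hw
  exact cat_on (D := univ) (fun _ _ _ => ⟨trivial, trivial⟩) (fun _ _ _ h => h)
    (fun A w _ hw => h A hw) s w trivial hw

/-- The monotone operator of the system. -/
def op (G : Grammar α ι) (κ : ι → Language α) :
    (Fin G.k → Language α) →o (Fin G.k → Language α) where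
  toFun X := fun A => {w | ∃ r, (A, r) ∈ G.rules ∧ ∀ s ∈ r, w ∈ cat κ X s}
  monotone' := by
    intro X Y h A w hw
    obtain ⟨r, hr, hs⟩ := hw
    exact ⟨r, hr, fun s hs' => cat_mono h s (hs s hs')⟩

/-- The least solution. -/
noncomputable def sol (G : Grammar α ι) (κ : ι → Language α) : Fin G.k → Language α :=
  OrderHom.lfp (op G κ)

theorem isSolution_iff {G : Grammar α ι} {κ : ι → Language α} {X : Fin G.k → Language α} :
    IsSolution G κ X ↔ op G κ X = X := by
  constructor
  · intro h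
    funext A
    ext w
    exact (h A w).symm
  · intro h A w
    have h' : op G κ X A = X A := congrFun h A
    rw [← h']
    exact Iff.rfl

theorem isLeast_sol (G : Grammar α ι) (κ : ι → Language α) :
    IsLeast {X | IsSolution G κ X} (sol G κ) := by
  have h := OrderHom.isLeast_lfp (op G κ)
  constructor
  · exact isSolution_iff.2 h.1
  · intro X hX
    exact h.2 (isSolution_iff.1 hX)

theorem generates_iff {G : Grammar α ι} {κ : ι → Language α} {T : Language α} :
    Generates G κ T ↔ sol G κ G.start = T := by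
  constructor
  · rintro ⟨X, hX, h⟩
    rw [← h, (isLeast_sol G κ).unique hX]
  · intro h
    exact ⟨sol G κ, isLeast_sol G κ, h⟩

theorem mem_sol {G : Grammar α ι} {κ : ι → Language α} {A : Fin G.k} {w : List α} :
    w ∈ sol G κ A ↔ ∃ r, (A, r) ∈ G.rules ∧ ∀ s ∈ r, w ∈ cat κ (sol G κ) s :=
  (isLeast_sol G κ).1 A w

/-- Induction: a family closed under the rules contains the least solution. -/
theorem sol_le {G : Grammar α ι} {κ : ι → Language α} {Z : Fin G.k → Language α}
    (h : ∀ A r, (A, r) ∈ G.rules → ∀ w, (∀ s ∈ r, w ∈ cat κ Z s) → w ∈ Z A) : sol G κ ≤ Z := by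
  apply OrderHom.lfp_le
  intro A w hw
  obtain ⟨r, hr, hs⟩ := hw
  exact h A r hr w hs

/-- Locality: on a set of words closed under prefixes and suffixes the solution depends only on
the constants on this set. -/
theorem sol_on (G : Grammar α ι) {D : Set (List α)} (hD : ∀ u v, u ++ v ∈ D → u ∈ D ∧ v ∈ D)
    {κ κ' : ι → Language α} (hκ : ∀ c, ∀ w ∈ D, w ∈ κ c → w ∈ κ' c) :
    ∀ A, ∀ w ∈ D, w ∈ sol G κ A → w ∈ sol G κ' A := by
  have h : sol G κ ≤ fun A => ({w | w ∈ D → w ∈ sol G κ' A} : Language α) := by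
    apply sol_le
    intro A r hr w hw hwD
    rw [mem_sol]
    refine ⟨r, hr, fun s hs => ?_⟩
    exact cat_on hD hκ (X := fun A => ({w | w ∈ D → w ∈ sol G κ' A} : Language α))
      (fun B v hv (hv' : v ∈ D → v ∈ sol G κ' B) => hv' hv) s w hwD (hw s hs)
  intro A w hw h'
  exact h A h' hw

theorem cat_sol_on (G : Grammar α ι) {D : Set (List α)}
    (hD : ∀ u v, u ++ v ∈ D → u ∈ D ∧ v ∈ D)
    {κ κ' : ι → Language α} (hκ : ∀ c, ∀ w ∈ D, w ∈ κ c → w ∈ κ' c) (s : List (Sym α G.k ι)) :
    ∀ w ∈ D, w ∈ cat κ (sol G κ) s → w ∈ cat κ' (sol G κ') s :=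
  cat_on hD hκ (sol_on G hD hκ) s

end Semantics

/-! ## The words `a b^n c` -/

/-- `a b^i` -/
def lw (i : ℕ) : List (Fin 3) := 0 :: List.replicate i 1

/-- `b^j c` -/
def rw' (j : ℕ) : List (Fin 3) := List.replicate j 1 ++ [2]

/-- `a b^n c` -/
def ww (n : ℕ) : List (Fin 3) := 0 :: (List.replicate n 1 ++ [2])

theorem lw_append_rw' (i j : ℕ) : lw i ++ rw' j = ww (i + j) := by
  simp only [lw, rw', ww, List.cons_append, ← List.append_assoc,
    List.replicate_append_replicate]

/-- The prefixes of `b^n c`. -/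
theorem split_rw' {n : ℕ} {u v : List (Fin 3)} (h : u ++ v = rw' n) :
    (∃ i ≤ n, u = List.replicate i 1 ∧ v = rw' (n - i)) ∨ (u = rw' n ∧ v = []) := by
  induction n generalizing u with
  | zero =>
    simp only [rw', List.replicate_zero, List.nil_append] at h ⊢
    cases u with
    | nil => left; exact ⟨0, le_rfl, by simp, by simpa using h⟩
    | cons x u =>
      right
      simp only [List.cons_append, List.cons.injEq, List.append_eq_nil_iff] at h
      obtain ⟨rfl, rfl, rfl⟩ := h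
      simp
  | succ n ih =>
    cases u with
    | nil => left; exact ⟨0, Nat.zero_le _, by simp, by simpa using h⟩
    | cons x u =>
      have h' : x = 1 ∧ u ++ v = rw' n := by
        simpa [rw', List.replicate_succ] using h
      obtain ⟨rfl, h2⟩ := h'
      rcases ih h2 with ⟨i, hi, rfl, rfl⟩ | ⟨rfl, rfl⟩
      · left
        refine ⟨i + 1, by omega, by simp [List.replicate_succ], by congr 1; omega⟩
      · right
        simp [rw', List.replicate_succ]

/-- The prefixes of `a b^n c`. -/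
theorem split_ww {n : ℕ} {u v : List (Fin 3)} (h : u ++ v = ww n) :
    (u = [] ∧ v = ww n) ∨ (∃ i ≤ n, u = lw i ∧ v = rw' (n - i)) ∨ (u = ww n ∧ v = []) := by
  cases u with
  | nil => left; exact ⟨rfl, by simpa using h⟩
  | cons x u =>
    right
    have h' : x = 0 ∧ u ++ v = rw' n := by
      simpa [ww, rw'] using h
    obtain ⟨rfl, h2⟩ := h'
    rcases split_rw' h2 with ⟨i, hi, rfl, rfl⟩ | ⟨rfl, rfl⟩
    · left; exact ⟨i, hi, rfl, rfl⟩
    · right; simp [ww, rw']

theorem ww_ne_nil (n : ℕ) : ww n ≠ [] := by simp [ww]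

section Split

variable {ι : Type} {k : ℕ}

/-- A concatenation contains `a b^n c` because of a factor which is this word, or because of a cut
between the letters `a` and `c`. -/
theorem cat_ww {κ : ι → Language (Fin 3)} {X : Fin k → Language (Fin 3)} {n : ℕ}
    (s : List (Sym (Fin 3) k ι)) (h : ww n ∈ cat κ X s) :
    (∃ β γ, s = β ++ γ ∧ ∃ i ≤ n, lw i ∈ cat κ X β ∧ rw' (n - i) ∈ cat κ X γ) ∨
      ∃ β σ γ, s = β ++ σ :: γ ∧ [] ∈ cat κ X β ∧ ww n ∈ val κ X σ ∧ [] ∈ cat κ X γ := by
  induction s with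
  | nil =>
    rw [mem_cat_nil] at h
    exact absurd h (ww_ne_nil n)
  | cons σ s ih =>
    rw [mem_cat_cons] at h
    obtain ⟨u, hu, v, hv, huv⟩ := h
    rcases split_ww huv with ⟨rfl, rfl⟩ | ⟨i, hi, rfl, rfl⟩ | ⟨rfl, rfl⟩
    · rcases ih hv with ⟨β, γ, rfl, i, hi, h1, h2⟩ | ⟨β, τ, γ, rfl, h1, h2, h3⟩
      · left
        refine ⟨σ :: β, γ, rfl, i, hi, ?_, h2⟩
        rw [mem_cat_cons]
        exact ⟨[], hu, lw i, h1, rfl⟩
      · right
        refine ⟨σ :: β, τ, γ, rfl, ?_, h2, h3⟩
        rw [mem_cat_cons]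
        exact ⟨[], hu, [], h1, rfl⟩
    · left
      refine ⟨[σ], s, rfl, i, hi, ?_, hv⟩
      rw [mem_cat_cons]
      exact ⟨lw i, hu, [], mem_cat_nil.2 rfl, by simp⟩
    · right
      exact ⟨[], σ, s, rfl, mem_cat_nil.2 rfl, hu, hv⟩

theorem cat_ww_cut {κ : ι → Language (Fin 3)} {X : Fin k → Language (Fin 3)} {n : ℕ}
    {β γ : List (Sym (Fin 3) k ι)} {i : ℕ} (hi : i ≤ n) (h1 : lw i ∈ cat κ X β)
    (h2 : rw' (n - i) ∈ cat κ X γ) : ww n ∈ cat κ X (β ++ γ) := by
  rw [cat_append, Language.mem_mul]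
  exact ⟨_, h1, _, h2, by rw [lw_append_rw']; congr 1; omega⟩

theorem cat_ww_same {κ : ι → Language (Fin 3)} {X : Fin k → Language (Fin 3)} {n : ℕ}
    {β γ : List (Sym (Fin 3) k ι)} {σ : Sym (Fin 3) k ι} (h1 : [] ∈ cat κ X β)
    (h2 : ww n ∈ val κ X σ) (h3 : [] ∈ cat κ X γ) : ww n ∈ cat κ X (β ++ σ :: γ) := by
  rw [cat_append, Language.mem_mul]
  refine ⟨[], h1, ww n, ?_, rfl⟩
  rw [mem_cat_cons]
  exact ⟨ww n, h2, [], h3, by simp⟩

end Split

/-! ## The constants -/

/-- `K = {a b^i : i ∈ P}` -/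
def KK (P : ℕ → Bool) : Language (Fin 3) := {w | ∃ i, P i = true ∧ w = 0 :: List.replicate i 1}

/-- `L = {b^j c : j ∈ Q}` -/
def LL (Q : ℕ → Bool) : Language (Fin 3) := {w | ∃ j, Q j = true ∧ w = List.replicate j 1 ++ [2]}

/-- The constants: the family `F`, and `K`, its complement, `L`, its complement. -/
def consts (F : ℕ → Language (Fin 3)) (P Q : ℕ → Bool) : ℕ ⊕ Fin 4 → Language (Fin 3) :=
  Sum.elim F ![KK P, (KK P)ᶜ, LL Q, (LL Q)ᶜ]

theorem replicate_inj' {i j : ℕ} {x : Fin 3} (h : List.replicate i x = List.replicate j x) :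
    i = j := by
  have := congrArg List.length h
  simpa using this

theorem ww_mem_mul {P Q : ℕ → Bool} {n : ℕ} :
    ww n ∈ KK P * LL Q ↔ ∃ i ≤ n, P i = true ∧ Q (n - i) = true := by
  rw [Language.mem_mul]
  constructor
  · rintro ⟨u, ⟨i, hi, rfl⟩, v, ⟨j, hj, rfl⟩, h⟩
    have h2 : lw i ++ rw' j = ww n := h
    rw [lw_append_rw'] at h2
    have h3 : i + j = n := by
      have := congrArg List.length h2
      simpa [ww] using this
    refine ⟨i, by omega, hi, ?_⟩
    rw [← h3, Nat.add_sub_cancel_left]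
    exact hj
  · rintro ⟨i, hi, h1, h2⟩
    refine ⟨lw i, ⟨i, h1, rfl⟩, rw' (n - i), ⟨n - i, h2, rfl⟩, ?_⟩
    rw [lw_append_rw']
    congr 1
    omega

/-- agreement of the constants on words which contain no `c`, when only `Q` changes. -/
theorem consts_left (F : ℕ → Language (Fin 3)) (P Q Q' : ℕ → Bool) (c : ℕ ⊕ Fin 4) (w : List (Fin 3))
    (hw : (2 : Fin 3) ∉ w) : w ∈ consts F P Q c → w ∈ consts F P Q' c := by
  have hL : ∀ Q : ℕ → Bool, w ∉ LL Q := by
    rintro Q ⟨j, _, rfl⟩
    simp at hw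
  rcases c with c | c
  · exact id
  · fin_cases c
    · exact id
    · exact id
    · intro h; exact absurd h (hL Q)
    · intro _; exact hL Q'

theorem consts_right (F : ℕ → Language (Fin 3)) (P P' Q : ℕ → Bool) (c : ℕ ⊕ Fin 4)
    (w : List (Fin 3)) (hw : (0 : Fin 3) ∉ w) : w ∈ consts F P Q c → w ∈ consts F P' Q c := by
  have hL : ∀ P : ℕ → Bool, w ∉ KK P := by
    rintro P ⟨j, _, rfl⟩
    simp at hw
  rcases c with c | c
  · exact id
  · fin_cases c
    · intro h; exact absurd h (hL P)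
    · intro _; exact hL P'
    · exact id
    · exact id

theorem consts_ww (F : ℕ → Language (Fin 3)) (P P' Q Q' : ℕ → Bool) (c : ℕ ⊕ Fin 4) (n : ℕ) :
    ww n ∈ consts F P Q c → ww n ∈ consts F P' Q' c := by
  have hK : ∀ P : ℕ → Bool, ww n ∉ KK P := by
    rintro P ⟨j, _, h⟩
    have h2 : (2 : Fin 3) ∈ ww n := by simp [ww]
    rw [h] at h2
    simp at h2
  have hL : ∀ Q : ℕ → Bool, ww n ∉ LL Q := by
    rintro Q ⟨j, _, h⟩
    have h2 : (0 : Fin 3) ∈ ww n := by simp [ww]
    rw [h] at h2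
    simp at h2
  rcases c with c | c
  · exact id
  · fin_cases c
    · intro h; exact absurd h (hK P)
    · intro _; exact hK P'
    · intro h; exact absurd h (hL Q)
    · intro _; exact hL Q'

/-- locality in the length. -/
theorem consts_short (F : ℕ → Language (Fin 3)) {P P' Q Q' : ℕ → Bool} {M : ℕ}
    (hP : ∀ i < M, P i = P' i) (hQ : ∀ i < M, Q i = Q' i) (c : ℕ ⊕ Fin 4) (w : List (Fin 3))
    (hw : w.length ≤ M) : w ∈ consts F P Q c → w ∈ consts F P' Q' c := by
  have hK : w ∈ KK P ↔ w ∈ KK P' := by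
    constructor
    · rintro ⟨i, hi, rfl⟩
      refine ⟨i, ?_, rfl⟩
      rw [← hP i (by simp at hw; omega)]
      exact hi
    · rintro ⟨i, hi, rfl⟩
      refine ⟨i, ?_, rfl⟩
      rw [hP i (by simp at hw; omega)]
      exact hi
  have hL : w ∈ LL Q ↔ w ∈ LL Q' := by
    constructor
    · rintro ⟨i, hi, rfl⟩
      refine ⟨i, ?_, rfl⟩
      rw [← hQ i (by simp at hw; omega)]
      exact hi
    · rintro ⟨i, hi, rfl⟩
      refine ⟨i, ?_, rfl⟩
      rw [hQ i (by simp at hw; omega)]
      exact hi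
  rcases c with c | c
  · exact id
  · fin_cases c
    · exact hK.1
    · exact fun h h' => h (hK.2 h')
    · exact hL.1
    · exact fun h h' => h (hL.2 h')

/-! ## Facts about the two ends -/

section Ends

variable (F : ℕ → Language (Fin 3)) (G : Grammar (Fin 3) (ℕ ⊕ Fin 4))

/-- the least solution for the constants given by `P`, `Q`. -/
noncomputable abbrev so (P Q : ℕ → Bool) : Fin G.k → Language (Fin 3) := sol G (consts F P Q)

theorem lw_fact {P Q Q' : ℕ → Bool} {i : ℕ} {s : List (Sym (Fin 3) G.k (ℕ ⊕ Fin 4))}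
    (h : lw i ∈ cat (consts F P Q) (so F G P Q) s) :
    lw i ∈ cat (consts F P Q') (so F G P Q') s := by
  refine cat_sol_on G (D := {w | (2 : Fin 3) ∉ w}) ?_ (consts_left F P Q Q') s _ ?_ h
  · intro u v h
    simp only [mem_ofPred_eq, List.mem_append, not_or] at h ⊢
    exact h
  · simp [lw]

theorem rw'_fact {P P' Q : ℕ → Bool} {j : ℕ} {s : List (Sym (Fin 3) G.k (ℕ ⊕ Fin 4))}
    (h : rw' j ∈ cat (consts F P Q) (so F G P Q) s) :
    rw' j ∈ cat (consts F P' Q) (so F G P' Q) s := by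
  refine cat_sol_on G (D := {w | (0 : Fin 3) ∉ w}) ?_ (consts_right F P P' Q) s _ ?_ h
  · intro u v h
    simp only [mem_ofPred_eq, List.mem_append, not_or] at h ⊢
    exact h
  · simp [rw']

theorem nil_fact {P P' Q Q' : ℕ → Bool} {s : List (Sym (Fin 3) G.k (ℕ ⊕ Fin 4))}
    (h : [] ∈ cat (consts F P Q) (so F G P Q) s) :
    [] ∈ cat (consts F P' Q') (so F G P' Q') s := by
  have h1 : [] ∈ cat (consts F P Q') (so F G P Q') s := by
    refine cat_sol_on G (D := {w | (2 : Fin 3) ∉ w}) ?_ (consts_left F P Q Q') s _ ?_ h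
    · intro u v h
      simp only [mem_ofPred_eq, List.mem_append, not_or] at h ⊢
      exact h
    · simp
  refine cat_sol_on G (D := {w | (0 : Fin 3) ∉ w}) ?_ (consts_right F P P' Q') s _ ?_ h1
  · intro u v h
    simp only [mem_ofPred_eq, List.mem_append, not_or] at h ⊢
    exact h
  · simp

/-- The crossing lemma. -/
theorem cross {n : ℕ} {P Q Q' : ℕ → Bool}
    (hat : ∀ A r, (A, r) ∈ G.rules → ∀ s ∈ r, ∀ β γ, s = β ++ γ →
      (∃ i ≤ n, lw i ∈ cat (consts F P Q) (so F G P Q) β ∧
        rw' (n - i) ∈ cat (consts F P Q) (so F G P Q) γ) →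
      ∃ i ≤ n, lw i ∈ cat (consts F P Q') (so F G P Q') β ∧
        rw' (n - i) ∈ cat (consts F P Q') (so F G P Q') γ) (A : Fin G.k)
    (h : ww n ∈ so F G P Q A) : ww n ∈ so F G P Q' A := by
  let Z : Fin G.k → Language (Fin 3) := fun A =>
    ({w | w ∈ so F G P Q A ∧ (w = ww n → w ∈ so F G P Q' A)} : Language (Fin 3))
  have hZ : Z ≤ so F G P Q := fun A w hw => hw.1
  have key : so F G P Q ≤ Z := by
    apply sol_le
    intro A r hr w hw
    refine ⟨mem_sol.2 ⟨r, hr, fun s hs => cat_mono hZ s (hw s hs)⟩, ?_⟩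
    rintro rfl
    rw [mem_sol]
    refine ⟨r, hr, fun s hs => ?_⟩
    rcases cat_ww s (hw s hs) with ⟨β, γ, e, i, hi, h1, h2⟩ | ⟨β, σ, γ, e, h1, h2, h3⟩
    · obtain ⟨i', hi', h1', h2'⟩ := hat A r hr s hs β γ e
        ⟨i, hi, cat_mono hZ β h1, cat_mono hZ γ h2⟩
      rw [e]
      exact cat_ww_cut hi' h1' h2'
    · rw [e]
      refine cat_ww_same (nil_fact F G (cat_mono hZ β h1)) ?_ (nil_fact F G (cat_mono hZ γ h3))
      cases σ with
      | letter x => exact h2
      | var B =>
        have h4 : ww n ∈ Z B := h2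
        exact h4.2 rfl
      | const c => exact consts_ww F P P Q Q' c n h2
  exact (key A h).2 rfl

end Ends

/-! ## Counting certificates -/

section Count

variable (F : ℕ → Language (Fin 3)) (G : Grammar (Fin 3) (ℕ ⊕ Fin 4))

/-- all strings of the rules. -/
def strs : List (List (Sym (Fin 3) G.k (ℕ ⊕ Fin 4))) := G.rules.flatMap fun p => p.2

theorem mem_strs {A : Fin G.k} {r : List (List (Sym (Fin 3) G.k (ℕ ⊕ Fin 4)))}
    (hr : (A, r) ∈ G.rules) {s : List (Sym (Fin 3) G.k (ℕ ⊕ Fin 4))} (hs : s ∈ r) :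
    s ∈ strs G := by
  unfold strs
  rw [List.mem_flatMap]
  exact ⟨(A, r), hr, hs⟩

/-- the cuts of the strings of the rules. -/
abbrev Cut : Type := Σ a : Fin (strs G).length, Fin (((strs G).get a).length + 1)

/-- a cut is satisfied at the position `i`. -/
def Sat (P Q : ℕ → Bool) (n : ℕ) (x : Cut G) (i : ℕ) : Prop :=
  lw i ∈ cat (consts F P Q) (so F G P Q) (((strs G).get x.1).take x.2) ∧
    rw' (n - i) ∈ cat (consts F P Q) (so F G P Q) (((strs G).get x.1).drop x.2)

open scoped Classical in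
/-- the certificate. -/
noncomputable def cert (P Q : ℕ → Bool) (n : ℕ) : Cut G → Option (Fin (n + 1)) := fun x =>
  if h : ∃ i : Fin (n + 1), Sat F G P Q n x i then some h.choose else none

theorem cert_some {P Q : ℕ → Bool} {n : ℕ} {x : Cut G} {i : Fin (n + 1)}
    (h : cert F G P Q n x = some i) : Sat F G P Q n x i := by
  unfold cert at h
  split_ifs at h with h'
  rw [Option.some.injEq] at h
  rw [← h]
  exact h'.choose_spec

theorem cert_exists {P Q : ℕ → Bool} {n : ℕ} {x : Cut G} {i : ℕ} (hi : i ≤ n)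
    (h : Sat F G P Q n x i) : ∃ i', cert F G P Q n x = some i' := by
  unfold cert
  have h' : ∃ i : Fin (n + 1), Sat F G P Q n x i := ⟨⟨i, by omega⟩, h⟩
  rw [dif_pos h']
  exact ⟨_, rfl⟩

theorem cross_cert {n : ℕ} {P Q P' Q' : ℕ → Bool} (he : cert F G P Q n = cert F G P' Q' n)
    (A : Fin G.k) (h : ww n ∈ so F G P Q A) : ww n ∈ so F G P Q' A := by
  refine cross F G ?_ A h
  rintro B r hr s hs β γ rfl ⟨i, hi, h1, h2⟩
  obtain ⟨a, ha⟩ := List.mem_iff_get.1 (mem_strs G hr hs)
  have hm : β.length < ((strs G).get a).length + 1 := by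
    rw [ha, List.length_append]; omega
  let x : Cut G := ⟨a, ⟨β.length, hm⟩⟩
  have e1 : ((strs G).get x.1).take x.2 = β := by
    change ((strs G).get a).take β.length = β
    rw [ha, List.take_left']
    rfl
  have e2 : ((strs G).get x.1).drop x.2 = γ := by
    change ((strs G).get a).drop β.length = γ
    rw [ha, List.drop_left']
    rfl
  have hS : Sat F G P Q n x i := by
    unfold Sat
    rw [e1, e2]
    exact ⟨h1, h2⟩
  obtain ⟨i', hi'⟩ := cert_exists F G hi hS
  have g1 := cert_some F G hi'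
  rw [he] at hi'
  have g2 := cert_some F G hi'
  unfold Sat at g1 g2
  rw [e1, e2] at g1 g2
  exact ⟨i', by have := i'.2; omega, lw_fact F G g1.1, rw'_fact F G g2.2⟩

/-- the sets of the fooling family. -/
def PP (P₀ : ℕ → Bool) (m : ℕ) (A : Finset ℕ) : ℕ → Bool := fun i =>
  if i < m then P₀ i else decide (i ∈ A)

/-- the sets of the fooling family. -/
def QQ (Q₀ : ℕ → Bool) (m n : ℕ) (A : Finset ℕ) : ℕ → Bool := fun j =>
  if j < m then Q₀ j else decide (j ≤ n - m ∧ n - j ∉ A)

theorem fool {P₀ Q₀ : ℕ → Bool} {m n : ℕ} (hn : 2 * m ≤ n) {A B : Finset ℕ}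
    (hA : A ⊆ Finset.Icc m (n - m)) :
    (∃ i ≤ n, PP P₀ m A i = true ∧ QQ Q₀ m n B (n - i) = true) ↔ ¬ A ⊆ B := by
  constructor
  · rintro ⟨i, hi, h1, h2⟩ hAB
    by_cases him : i < m
    · unfold QQ at h2
      rw [if_neg (by omega)] at h2
      simp only [decide_eq_true_eq] at h2
      omega
    · unfold PP at h1
      rw [if_neg him] at h1
      simp only [decide_eq_true_eq] at h1
      have h3 := Finset.mem_Icc.1 (hA h1)
      unfold QQ at h2
      rw [if_neg (by omega)] at h2
      simp only [decide_eq_true_eq] at h2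
      have h4 : n - (n - i) = i := by omega
      rw [h4] at h2
      exact h2.2 (hAB h1)
  · intro h
    rw [Finset.not_subset] at h
    obtain ⟨i, h1, h2⟩ := h
    have h3 := Finset.mem_Icc.1 (hA h1)
    refine ⟨i, by omega, ?_, ?_⟩
    · unfold PP
      rw [if_neg (by omega)]
      simpa using h1
    · unfold QQ
      rw [if_neg (by omega)]
      simp only [decide_eq_true_eq]
      have h4 : n - (n - i) = i := by omega
      rw [h4]
      exact ⟨by omega, h2⟩

theorem growth (c m : ℕ) : ∃ n, 2 * m ≤ n ∧ (n + 2) ^ c < 2 ^ (n + 1 - 2 * m) := by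
  have h := tendsto_pow_const_div_const_pow_of_one_lt c (one_lt_two : (1 : ℝ) < 2)
  have h2 : ∀ᶠ N : ℕ in atTop, (N : ℝ) ^ c / 2 ^ N < (2 ^ (2 * m + 1))⁻¹ :=
    h.eventually_lt_const (by positivity)
  obtain ⟨N, hN, hN2⟩ := (h2.and (eventually_ge_atTop (2 * m + 2))).exists
  refine ⟨N - 2, by omega, ?_⟩
  have e1 : N - 2 + 2 = N := by omega
  have e2 : N - 2 + 1 - 2 * m = N - (2 * m + 1) := by omega
  rw [e1, e2]
  rw [div_lt_iff₀ (by positivity)] at hN
  have h3 : ((2 : ℝ) ^ (2 * m + 1))⁻¹ * 2 ^ N = 2 ^ (N - (2 * m + 1)) := by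
    have h4 : (2 : ℝ) ^ N = 2 ^ (2 * m + 1) * 2 ^ (N - (2 * m + 1)) := by
      rw [← pow_add]; congr 1; omega
    rw [h4, ← mul_assoc, inv_mul_cancel₀ (by positivity), one_mul]
  rw [h3] at hN
  exact_mod_cast hN

/-- the pairs for which the grammar fails on some word `a b^n c`. -/
def Fail : Set ((ℕ → Bool) × (ℕ → Bool)) :=
  {x | ∃ n, ¬ (ww n ∈ so F G x.1 x.2 G.start ↔
    ¬ ∃ i ≤ n, x.1 i = true ∧ x.2 (n - i) = true)}

theorem exists_fail (P₀ Q₀ : ℕ → Bool) (m : ℕ) : ∃ P Q : ℕ → Bool, (∀ i < m, P i = P₀ i) ∧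
    (∀ i < m, Q i = Q₀ i) ∧ (P, Q) ∈ Fail F G := by
  classical
  by_contra hcon
  push Not at hcon
  obtain ⟨n, hn, hlt⟩ := growth (Fintype.card (Cut G)) m
  have hall : ∀ A B : Finset ℕ, A ⊆ Finset.Icc m (n - m) →
      (ww n ∈ so F G (PP P₀ m A) (QQ Q₀ m n B) G.start ↔ A ⊆ B) := by
    intro A B hA
    have h := hcon (PP P₀ m A) (QQ Q₀ m n B) (fun i hi => by unfold PP; rw [if_pos hi])
      (fun i hi => by unfold QQ; rw [if_pos hi])
    have h2 : ¬ ∃ n', ¬ (ww n' ∈ so F G (PP P₀ m A) (QQ Q₀ m n B) G.start ↔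
      ¬ ∃ i ≤ n', PP P₀ m A i = true ∧ QQ Q₀ m n B (n' - i) = true) := h
    push Not at h2
    have h3 := h2 n
    rw [h3]
    have h4 := fool (P₀ := P₀) (Q₀ := Q₀) (B := B) hn hA
    constructor
    · intro h5
      by_contra h6
      obtain ⟨i, hi, h7, h8⟩ := h4.2 h6
      exact h5 i hi h7 h8
    · intro h5 i hi h7 h8
      exact h4.1 ⟨i, hi, h7, h8⟩ h5
  -- pigeonhole
  have hcard : (Finset.univ : Finset (Cut G → Option (Fin (n + 1)))).card <
      (Finset.Icc m (n - m)).powerset.card := by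
    rw [Finset.card_univ, Fintype.card_fun, Fintype.card_option, Fintype.card_fin,
      Finset.card_powerset, Nat.card_Icc]
    have e : n - m + 1 - m = n + 1 - 2 * m := by omega
    rw [e]
    exact hlt
  obtain ⟨A, hA, B, hB, hne, hf⟩ := Finset.exists_ne_map_eq_of_card_lt_of_maps_to hcard
    (f := fun A => cert F G (PP P₀ m A) (QQ Q₀ m n A) n) (fun A _ => Finset.mem_univ _)
  rw [Finset.mem_powerset] at hA hB
  have hAB : A ⊆ B := (hall A B hA).1
    (cross_cert F G hf G.start ((hall A A hA).2 (Finset.Subset.refl _)))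
  have hBA : B ⊆ A := (hall B A hB).1
    (cross_cert F G hf.symm G.start ((hall B B hB).2 (Finset.Subset.refl _)))
  exact hne (Finset.Subset.antisymm hAB hBA)

theorem isOpen_fail : IsOpen (Fail F G) := by
  rw [isOpen_iff_mem_nhds]
  rintro ⟨P, Q⟩ ⟨n, hn⟩
  have hop : IsOpen (PiNat.cylinder P (n + 2) ×ˢ PiNat.cylinder Q (n + 2)) :=
    (PiNat.isOpen_cylinder _ _ _).prod (PiNat.isOpen_cylinder _ _ _)
  refine mem_of_superset (hop.mem_nhds ⟨PiNat.self_mem_cylinder _ _, PiNat.self_mem_cylinder _ _⟩) ?_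
  rintro ⟨P', Q'⟩ ⟨h1, h2⟩
  rw [PiNat.mem_cylinder_iff] at h1 h2
  simp only at h1 h2
  refine ⟨n, fun hc => hn ?_⟩
  have hD : ∀ u v : List (Fin 3), u ++ v ∈ {w : List (Fin 3) | w.length ≤ n + 2} →
      u ∈ {w : List (Fin 3) | w.length ≤ n + 2} ∧ v ∈ {w : List (Fin 3) | w.length ≤ n + 2} := by
    intro u v h
    simp only [mem_ofPred_eq, List.length_append] at h ⊢
    omega
  have hlen : ww n ∈ {w : List (Fin 3) | w.length ≤ n + 2} := by
    simp [ww]
  have e1 : ww n ∈ so F G P Q G.start ↔ ww n ∈ so F G P' Q' G.start := by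
    constructor
    · exact sol_on G hD (fun c w hw => consts_short F (fun i hi => (h1 i hi).symm)
        (fun i hi => (h2 i hi).symm) c w hw) G.start _ hlen
    · exact sol_on G hD (fun c w hw => consts_short F (fun i hi => h1 i hi)
        (fun i hi => h2 i hi) c w hw) G.start _ hlen
  have e2 : (∃ i ≤ n, P i = true ∧ Q (n - i) = true) ↔
      ∃ i ≤ n, P' i = true ∧ Q' (n - i) = true := by
    constructor
    · rintro ⟨i, hi, a, b⟩
      exact ⟨i, hi, by rw [h1 i (by omega)]; exact a, by rw [h2 (n - i) (by omega)]; exact b⟩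
    · rintro ⟨i, hi, a, b⟩
      exact ⟨i, hi, by rw [← h1 i (by omega)]; exact a, by rw [← h2 (n - i) (by omega)]; exact b⟩
  change ww n ∈ so F G P Q G.start ↔ ¬ ∃ i ≤ n, P i = true ∧ Q (n - i) = true
  rw [e1, e2]
  exact hc

theorem dense_fail : Dense (Fail F G) := by
  rw [dense_iff_inter_open]
  rintro U hU ⟨⟨P₀, Q₀⟩, hx⟩
  obtain ⟨V, hV, W, hW, hVW⟩ := mem_nhds_prod_iff.1 (hU.mem_nhds hx)
  obtain ⟨V', hV', h1, h1'⟩ :=
    (PiNat.isTopologicalBasis_cylinders (fun _ : ℕ => Bool)).mem_nhds_iff.1 hV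
  obtain ⟨W', hW', h2, h2'⟩ :=
    (PiNat.isTopologicalBasis_cylinders (fun _ : ℕ => Bool)).mem_nhds_iff.1 hW
  obtain ⟨p, m1, rfl⟩ := hV'
  obtain ⟨q, m2, rfl⟩ := hW'
  rw [PiNat.mem_cylinder_iff] at h1 h2
  obtain ⟨P, Q, hP, hQ, hF⟩ := exists_fail F G P₀ Q₀ (max m1 m2)
  refine ⟨(P, Q), hVW ⟨h1' ?_, h2' ?_⟩, hF⟩
  · rw [PiNat.mem_cylinder_iff]
    intro i hi
    change P i = p i
    rw [hP i (lt_of_lt_of_le hi (le_max_left _ _))]
    exact h1 i hi
  · rw [PiNat.mem_cylinder_iff]
    intro i hi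
    change Q i = q i
    rw [hQ i (lt_of_lt_of_le hi (le_max_right _ _))]
    exact h2 i hi

end Count

/-! ## Countably many grammars -/

instance {α ι : Type} {k : ℕ} [Countable α] [Countable ι] : Countable (Sym α k ι) := by
  have hinj : Function.Injective (fun σ : Sym α k ι =>
      (match σ with
        | Sym.letter x => Sum.inl x
        | Sym.var A => Sum.inr (Sum.inl A)
        | Sym.const c => Sum.inr (Sum.inr c) : α ⊕ (Fin k ⊕ ι))) := by
    intro σ τ h
    cases σ <;> cases τ <;> simp_all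
  exact hinj.countable

instance {α ι : Type} [Countable α] [Countable ι] : Countable (Grammar α ι) := by
  have hinj : Function.Injective (fun G : Grammar α ι =>
      (⟨G.k, (G.rules, G.start)⟩ : Σ k : ℕ, List (Fin k × List (List (Sym α k ι))) × Fin k)) := by
    rintro ⟨k, r, s⟩ ⟨k', r', s'⟩ h
    simp only [Sigma.mk.injEq] at h
    obtain ⟨rfl, h⟩ := h
    simp only [heq_eq_eq, Prod.mk.injEq] at h
    obtain ⟨rfl, rfl⟩ := h
    rfl
  exact hinj.countable

/-- `K L` itself is generated by the grammar with the single rule `0 → K L`. -/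
def prodGrammar : Grammar (Fin 3) (ℕ ⊕ Fin 4) where
  k := 1
  rules := [(0, [[Sym.const (Sum.inr 0), Sym.const (Sum.inr 2)]])]
  start := 0

theorem prod_generates (F : ℕ → Language (Fin 3)) (P Q : ℕ → Bool) :
    Generates prodGrammar (consts F P Q) (KK P * LL Q) := by
  rw [generates_iff]
  ext w
  rw [mem_sol]
  constructor
  · rintro ⟨r, hr, hs⟩
    obtain rfl : r = [[Sym.const (Sum.inr 0), Sym.const (Sum.inr 2)]] :=
      (Prod.mk.inj (List.mem_singleton.1 hr)).2
    have h := hs _ (List.mem_singleton.2 rfl)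
    simpa [cat, val, consts] using h
  · intro h
    refine ⟨[[Sym.const (Sum.inr 0), Sym.const (Sum.inr 2)]],
      List.mem_singleton.2 (Prod.ext (Subsingleton.elim (α := Fin 1) _ _) rfl), ?_⟩
    intro s hs
    obtain rfl := List.mem_singleton.1 hs
    simpa [cat, val, consts] using h

/-- **Theorem.** For every countable family `F` of languages over `{a, b, c} = {0, 1, 2}` and all
pairs `(P, Q)` outside a meagre set: with `K = {a b^i : i ∈ P}` and `L = {b^j c : j ∈ Q}`, the
language `K L` is generated by a conjunctive grammar with the constants `K`, `L`, their complements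
and the languages of `F`, but the complement of `K L` is not. -/
theorem result (F : ℕ → Language (Fin 3)) :
    ∀ᶠ x in residual ((ℕ → Bool) × (ℕ → Bool)),
      (∃ G : Grammar (Fin 3) (ℕ ⊕ Fin 4), Generates G (consts F x.1 x.2) (KK x.1 * LL x.2)) ∧
      ∀ G : Grammar (Fin 3) (ℕ ⊕ Fin 4), ¬ Generates G (consts F x.1 x.2) (KK x.1 * LL x.2)ᶜ := by
  have h : ∀ᶠ x in residual ((ℕ → Bool) × (ℕ → Bool)), ∀ G : Grammar (Fin 3) (ℕ ⊕ Fin 4),
      x ∈ Fail F G := by
    rw [eventually_countable_forall]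
    intro G
    exact residual_of_dense_open (isOpen_fail F G) (dense_fail F G)
  filter_upwards [h] with x hx
  refine ⟨⟨prodGrammar, prod_generates F x.1 x.2⟩, fun G hG => ?_⟩
  rw [generates_iff] at hG
  obtain ⟨n, hn⟩ := hx G
  apply hn
  rw [← ww_mem_mul]
  change ww n ∈ sol G (consts F x.1 x.2) G.start ↔ _
  rw [hG]
  exact Iff.rfl

end Pool.Agent.Results.MP_86a971_lc.GenericConstants
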