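import Mathlib

/-!
# Context-free grammars over linear conjunctive languages

A context-free grammar may be given constants, each of which denotes a linear conjunctive language
(a language of a linear conjunctive grammar, equivalently of a triangular trellis automaton) or an
arbitrary language over two of the three letters `e`, `f`, `#`. The languages generated in this way
contain the context-free and the linear conjunctive languages and are closed under all context-free
operations. They are not closed under complement: let `K₀` be the language of all words `e^i z e^i`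
and `K₁` the language of all words `f^j z f^j`, where `z` begins and ends with `#`. These are linear
context-free languages, and the complement of `T = K₀ K₁` is not generated by any such grammar.

Sketch of the proof. For a list `S` of pairs of numbers let `code S` be the concatenation of the
words `# e^x f^y` over the pairs `(x, y)` of `S`. The word `e^i code(S) # f^j` is in `T` if and only
if `(i, j)` is in `S`. Take a relation `S` on `{1, …, k}`, write its code twice, and consider the
words `e^i m f^j`, `m = code(S) code(S) #`, with `(i, j)` not in `S`. Follow the factor `m` in a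
derivation of such a word. Either all of `m` is taken by a constant (then the constant is linear
conjunctive, because `m` contains all three letters), or there is a rule `B → s₁ s₂` where `m` is cut
into two non-empty parts. The cut rule, the side of the cut which contains a whole copy of the code
and the exponent of the outer letter on this side determine a set `Q` of pairs `(i, j)`, and mixing
two derivations shows that `Q` is disjoint from `S`. There are only `O(k)` sets `Q`, so for most `S`
all sets `Q` disjoint from `S` have only `O(log k)` elements, and `O(k log k)` in total. In the case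
of a constant the membership of the words `e^i' m f^j'` in a linear conjunctive language is determined
by a table of states, of which only two strips of length `O(k)` depend on `S`; hence there are at most
`2^O(k)` different behaviours, but there are `2^(k^2)` relations `S`.
-/

namespace Pool.Agent.Results.MP_86a971_lc.LinearConcatenation

open Set

/-- The symbols which may occur in a rule: a letter of the alphabet `α`, a nonterminal (the
nonterminals are `0, …, k - 1`), or a name `c : ι` of a constant language. -/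
inductive Sym (α : Type) (k : ℕ) (ι : Type) : Type
  | letter (x : α) : Sym α k ι
  | var (A : Fin k) : Sym α k ι
  | const (c : ι) : Sym α k ι

/-- A conjunctive grammar over the alphabet `α` whose rules may contain names `c : ι` of constant
languages. The pair `(A, [α₁, …, αₘ])` is the rule `A → α₁ & … & αₘ`. -/
structure Grammar (α ι : Type) : Type where
  /-- the nonterminals are `0, …, k - 1` -/
  k : ℕ
  /-- the rules -/
  rules : List (Fin k × List (List (Sym α k ι)))
  /-- the initial nonterminal -/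
  start : Fin k

section Semantics

variable {α ι : Type} {k : ℕ}

/-- The language denoted by a symbol, when the nonterminals denote the languages `X` and the
constants denote the languages `κ`. -/
def val (κ : ι → Language α) (X : Fin k → Language α) : Sym α k ι → Language α
  | Sym.letter x => {[x]}
  | Sym.var A => X A
  | Sym.const c => κ c

/-- The language denoted by a string of symbols (concatenation). -/
def cat (κ : ι → Language α) (X : Fin k → Language α) (s : List (Sym α k ι)) : Language α :=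
  (s.map (val κ X)).prod

/-- `X` solves the system `A = ⋃_{A → α₁ & … & αₘ} ⋂_i αᵢ` of the grammar. -/
def IsSolution (G : Grammar α ι) (κ : ι → Language α) (X : Fin G.k → Language α) : Prop :=
  ∀ A w, w ∈ X A ↔ ∃ r, (A, r) ∈ G.rules ∧ ∀ s ∈ r, w ∈ cat κ X s

/-- The grammar `G`, with the languages `κ` as constants, generates `K`: `K` is the component of
the initial nonterminal of the least solution of the system. -/
def Generates (G : Grammar α ι) (κ : ι → Language α) (K : Language α) : Prop :=
  ∃ X, IsLeast {X | IsSolution G κ X} X ∧ X G.start = K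

/-- A context-free grammar (with constants): every rule has exactly one conjunct. -/
def ContextFree (G : Grammar α ι) : Prop := ∀ A r, (A, r) ∈ G.rules → r.length = 1

/-- A linear conjunctive grammar: every conjunct is a string of letters or of the form `u B v`
with strings of letters `u`, `v` and a nonterminal `B`. -/
def Linear (G : Grammar α ι) : Prop := ∀ A r, (A, r) ∈ G.rules → ∀ s ∈ r,
  (∃ u : List α, s = u.map Sym.letter) ∨
    ∃ (u : List α) (B : Fin G.k) (v : List α), s = u.map Sym.letter ++ Sym.var B :: v.map Sym.letter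

/-- Linear conjunctive languages: generated by a linear conjunctive grammar without constants. -/
def IsLinearConjunctive (K : Language α) : Prop :=
  ∃ G : Grammar α Empty, Linear G ∧ Generates G (fun c => c.elim) K

theorem val_mono {κ κ' : ι → Language α} (hκ : κ ≤ κ') {X Y : Fin k → Language α} (h : X ≤ Y)
    (σ : Sym α k ι) : val κ X σ ≤ val κ' Y σ := by
  cases σ with
  | letter x => exact le_rfl
  | var A => exact h A
  | const c => exact hκ c

theorem mem_cat_nil {κ : ι → Language α} {X : Fin k → Language α} {w : List α} :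
    w ∈ cat κ X [] ↔ w = [] := by
  simp [cat, Language.mem_one]

theorem mem_cat_cons {κ : ι → Language α} {X : Fin k → Language α} {σ : Sym α k ι}
    {s : List (Sym α k ι)} {w : List α} :
    w ∈ cat κ X (σ :: s) ↔ ∃ u ∈ val κ X σ, ∃ v ∈ cat κ X s, u ++ v = w := by
  simp [cat, Language.mem_mul]

theorem cat_append (κ : ι → Language α) (X : Fin k → Language α) (s t : List (Sym α k ι)) :
    cat κ X (s ++ t) = cat κ X s * cat κ X t := by
  simp [cat]

theorem mem_cat_append {κ : ι → Language α} {X : Fin k → Language α} {s t : List (Sym α k ι)}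
    {w : List α} :
    w ∈ cat κ X (s ++ t) ↔ ∃ u ∈ cat κ X s, ∃ v ∈ cat κ X t, u ++ v = w := by
  rw [cat_append, Language.mem_mul]

theorem cat_mono {κ κ' : ι → Language α} (hκ : κ ≤ κ') {X Y : Fin k → Language α} (h : X ≤ Y)
    (s : List (Sym α k ι)) : cat κ X s ≤ cat κ' Y s := by
  have key : ∀ w, w ∈ cat κ X s → w ∈ cat κ' Y s := by
    induction s with
    | nil => exact fun w h => h
    | cons σ s ih =>
      intro w hw
      rw [mem_cat_cons] at hw ⊢
      obtain ⟨u, hu, v, hv, rfl⟩ := hw
      exact ⟨u, val_mono hκ h σ hu, v, ih v hv, rfl⟩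
  exact key

/-- The monotone operator of the system. -/
def op (G : Grammar α ι) (κ : ι → Language α) :
    (Fin G.k → Language α) →o (Fin G.k → Language α) where
  toFun X := fun A => {w | ∃ r, (A, r) ∈ G.rules ∧ ∀ s ∈ r, w ∈ cat κ X s}
  monotone' := by
    intro X Y h A w hw
    obtain ⟨r, hr, hs⟩ := hw
    exact ⟨r, hr, fun s hs' => cat_mono le_rfl h s (hs s hs')⟩

theorem isSolution_iff {G : Grammar α ι} {κ : ι → Language α} {X : Fin G.k → Language α} :
    IsSolution G κ X ↔ op G κ X = X := by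
  constructor
  · intro h
    funext A
    ext w
    exact (h A w).symm
  · intro h A w
    have h' : op G κ X A = X A := congrFun h A
    rw [← h']
    exact Iff.rfl

/-- Induction: a family closed under the rules contains the least solution. -/
theorem le_of_closed {G : Grammar α ι} {κ : ι → Language α} {X Z : Fin G.k → Language α}
    (hX : IsLeast {X | IsSolution G κ X} X)
    (h : ∀ A r, (A, r) ∈ G.rules → ∀ w, (∀ s ∈ r, w ∈ cat κ Z s) → w ∈ Z A) : X ≤ Z := by
  have h1 : IsSolution G κ (OrderHom.lfp (op G κ)) :=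
    isSolution_iff.2 (OrderHom.isLeast_lfp (op G κ)).1
  refine (hX.2 h1).trans ?_
  apply OrderHom.lfp_le
  intro A w hw
  obtain ⟨r, hr, hs⟩ := hw
  exact h A r hr w hs

/-- A factorisation of `x m y` along a string of symbols: one of the symbols takes the
occurrence of `m`. -/
theorem cat_split {κ : ι → Language α} {X : Fin k → Language α} {m : α} :
    ∀ {s : List (Sym α k ι)} {x y : List α}, x ++ m :: y ∈ cat κ X s →
      ∃ a σ b x1 x2 y1 y2, s = a ++ σ :: b ∧ x = x1 ++ x2 ∧ y = y2 ++ y1 ∧
        x1 ∈ cat κ X a ∧ y1 ∈ cat κ X b ∧ x2 ++ m :: y2 ∈ val κ X σ := by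
  intro s
  induction s with
  | nil =>
    intro x y h
    rw [mem_cat_nil] at h
    simp at h
  | cons σ s ih =>
    intro x y h
    rw [mem_cat_cons] at h
    obtain ⟨u, hu, v, hv, huv⟩ := h
    have key : (∃ x', x = u ++ x' ∧ v = x' ++ m :: y) ∨
        (∃ y2, u = x ++ m :: y2 ∧ y = y2 ++ v) := by
      rcases List.append_eq_append_iff.1 huv with ⟨a', h1, h2⟩ | ⟨c', h1, h2⟩
      · exact Or.inl ⟨a', h1, h2⟩
      · cases c' with
        | nil =>
          left
          refine ⟨[], by simpa using h1.symm, by simpa using h2.symm⟩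
        | cons z c' =>
          right
          simp only [List.cons_append, List.cons.injEq] at h2
          obtain ⟨rfl, h3⟩ := h2
          exact ⟨c', h1, h3⟩
    rcases key with ⟨x', rfl, rfl⟩ | ⟨y2, rfl, rfl⟩
    · obtain ⟨a, τ, b, x1, x2, y1, y2, h1, h2, h3, h4, h5, h6⟩ := ih hv
      refine ⟨σ :: a, τ, b, u ++ x1, x2, y1, y2, by simp [h1], by simp [h2], h3, ?_, h5, h6⟩
      rw [mem_cat_cons]
      exact ⟨u, hu, x1, h4, rfl⟩
    · exact ⟨[], σ, s, [], x, v, y2, rfl, rfl, rfl, by rw [mem_cat_nil], hv, hu⟩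

/-- Putting the pieces together. -/
theorem mem_cat_mid {κ : ι → Language α} {X : Fin k → Language α} {a b : List (Sym α k ι)}
    {σ : Sym α k ι} {x y v : List α} (hx : x ∈ cat κ X a) (hv : v ∈ val κ X σ)
    (hy : y ∈ cat κ X b) : x ++ (v ++ y) ∈ cat κ X (a ++ σ :: b) := by
  rw [mem_cat_append]
  refine ⟨x, hx, v ++ y, ?_, rfl⟩
  rw [mem_cat_cons]
  exact ⟨v, hv, y, hy, rfl⟩

theorem mem_val_letter {κ : ι → Language α} {X : Fin k → Language α}
    {x : α} {w : List α} : w ∈ val κ X (Sym.letter x) ↔ w = [x] := Iff.rfl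

theorem mem_val_var {κ : ι → Language α} {X : Fin k → Language α}
    {A : Fin k} {w : List α} : w ∈ val κ X (Sym.var A) ↔ w ∈ X A := Iff.rfl

theorem mem_val_const {κ : ι → Language α} {X : Fin k → Language α}
    {c : ι} {w : List α} : w ∈ val κ X (Sym.const c) ↔ w ∈ κ c := Iff.rfl

theorem mem_cat_letters {κ : ι → Language α} {X : Fin k → Language α} {u w : List α} :
    w ∈ cat κ X (u.map Sym.letter) ↔ w = u := by
  induction u generalizing w with
  | nil => simp [mem_cat_nil]
  | cons x u ih =>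
    rw [List.map_cons, mem_cat_cons]
    constructor
    · rintro ⟨a, ha, b, hb, rfl⟩
      rw [mem_val_letter] at ha
      rw [ih] at hb
      rw [ha, hb]
      rfl
    · rintro rfl
      exact ⟨[x], rfl, u, ih.2 rfl, rfl⟩

theorem mem_cat_lin {κ : ι → Language α} {X : Fin k → Language α} {u v w : List α} {B : Fin k} :
    w ∈ cat κ X (u.map Sym.letter ++ Sym.var B :: v.map Sym.letter) ↔
      ∃ z ∈ X B, w = u ++ (z ++ v) := by
  rw [mem_cat_append]
  constructor
  · rintro ⟨a, ha, b, hb, rfl⟩
    rw [mem_cat_letters] at ha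
    rw [mem_cat_cons] at hb
    obtain ⟨z, hz, b', hb', rfl⟩ := hb
    rw [mem_cat_letters] at hb'
    exact ⟨z, hz, by rw [ha, hb']⟩
  · rintro ⟨z, hz, rfl⟩
    refine ⟨u, mem_cat_letters.2 rfl, z ++ v, ?_, rfl⟩
    rw [mem_cat_cons]
    exact ⟨z, hz, v, mem_cat_letters.2 rfl, rfl⟩

end Semantics

/-! ## Strips: a finite description of the factors around a word -/

section Strips

variable {α : Type}

/-- the sum of the lengths of the conjuncts -/
def width (G : Grammar α Empty) : ℕ := ((G.rules.flatMap Prod.snd).map List.length).sum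

theorem le_width {G : Grammar α Empty} {A : Fin G.k} {r : List (List (Sym α G.k Empty))}
    (h : (A, r) ∈ G.rules) {s : List (Sym α G.k Empty)} (hs : s ∈ r) : s.length ≤ width G := by
  apply List.single_le_sum (fun _ _ => Nat.zero_le _)
  exact List.mem_map.2 ⟨s, List.mem_flatMap.2 ⟨(A, r), h, hs⟩, rfl⟩

/-- In a linear conjunctive grammar the factors `u m v` of `L m R` are determined by those with
short `u` or short `v`. -/
theorem strip {G : Grammar α Empty} (hG : Linear G) {κ : Empty → Language α}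
    {X : Fin G.k → Language α} (hX : IsLeast {X | IsSolution G κ X} X) {d : ℕ}
    (hd : width G ≤ d) {L R m m' : List α} (hm : m ≠ [])
    (h : ∀ A u v, u <:+ L → v <+: R → (u.length < d ∨ v.length < d) →
      (u ++ (m ++ v) ∈ X A → u ++ (m' ++ v) ∈ X A)) :
    ∀ A u v, u <:+ L → v <+: R → u ++ (m ++ v) ∈ X A → u ++ (m' ++ v) ∈ X A := by
  let Z : Fin G.k → Language α := fun A => {w | w ∈ X A ∧ ∀ u v, u <:+ L → v <+: R →
    w = u ++ (m ++ v) → u ++ (m' ++ v) ∈ X A}
  have hZX : Z ≤ X := fun A w hw => hw.1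
  have hXZ : X ≤ Z := by
    refine le_of_closed hX ?_
    intro A r hr w hw
    have hwX : w ∈ X A := (hX.1 A w).2 ⟨r, hr, fun s hs => cat_mono le_rfl hZX s (hw s hs)⟩
    refine ⟨hwX, fun u v hu hv huv => ?_⟩
    by_cases hlen : u.length < d ∨ v.length < d
    · rw [huv] at hwX
      exact h A u v hu hv hlen hwX
    · push Not at hlen
      refine (hX.1 A _).2 ⟨r, hr, fun s hs => ?_⟩
      have hs1 := hw s hs
      have hs2 := (le_width hr hs).trans hd
      have hm0 : 0 < m.length := List.length_pos_of_ne_nil hm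
      rcases hG A r hr s hs with ⟨x, rfl⟩ | ⟨x, B, y, rfl⟩
      · exfalso
        rw [mem_cat_letters] at hs1
        have := congrArg List.length (hs1.symm.trans huv)
        rw [List.length_map] at hs2
        simp only [List.length_append] at this
        omega
      · rw [mem_cat_lin] at hs1 ⊢
        obtain ⟨z, hz, hwz⟩ := hs1
        simp only [List.length_append, List.length_map, List.length_cons] at hs2
        have hzlen := congrArg List.length (hwz.symm.trans huv)
        simp only [List.length_append] at hzlen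
        -- split `u` and `v`
        have e1 : x ++ (z ++ y) = u ++ (m ++ v) := hwz.symm.trans huv
        obtain ⟨u', rfl⟩ : ∃ u', u = x ++ u' := by
          rcases List.append_eq_append_iff.1 e1 with ⟨a, h1, -⟩ | ⟨a, h1, -⟩
          · exact ⟨a, h1⟩
          · have : a = [] := by
              have := congrArg List.length h1
              rw [List.length_append] at this
              apply List.length_eq_zero_iff.1
              omega
            exact ⟨[], by rw [h1, this]; simp⟩
        have e3 : z ++ y = (u' ++ m) ++ v := by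
          have : x ++ (z ++ y) = x ++ ((u' ++ m) ++ v) := by rw [e1]; simp
          exact List.append_cancel_left this
        obtain ⟨v', rfl⟩ : ∃ v', v = v' ++ y := by
          rcases List.append_eq_append_iff.1 e3 with ⟨a, h1, h2⟩ | ⟨a, h1, h2⟩
          · have : a = [] := by
              have := congrArg List.length h2
              rw [List.length_append] at this
              apply List.length_eq_zero_iff.1
              omega
            exact ⟨[], by rw [h2, this]; simp⟩
          · exact ⟨a, h2⟩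
        have e2 : z = u' ++ (m ++ v') := by
          have : z ++ y = (u' ++ (m ++ v')) ++ y := by rw [e3]; simp
          exact List.append_cancel_right this
        refine ⟨u' ++ (m' ++ v'), hz.2 u' v' ?_ ?_ e2, by simp⟩
        · exact (List.suffix_append x u').trans hu
        · exact (List.prefix_append v' y).trans hv
  intro A u v hu hv hA
  exact (hXZ A hA).2 u v hu hv rfl

/-! ## Patterns -/

variable {V : Type} [Fintype V]

open Classical in
/-- the short factors around `m` in `L m R` -/
noncomputable def pat (Xs : V → Language α) (d : ℕ) (L R m : List α) :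
    Finset (V × Fin d × Fin (R.length + 1)) × Finset (V × Fin (L.length + 1) × Fin d) :=
  (Finset.univ.filter (fun t => L.drop (L.length - t.2.1.val) ++ (m ++ R.take t.2.2.val) ∈ Xs t.1),
   Finset.univ.filter (fun t => L.drop (L.length - t.2.1.val) ++ (m ++ R.take t.2.2.val) ∈ Xs t.1))

theorem suffix_eq_drop {u L : List α} (h : u <:+ L) : u = L.drop (L.length - u.length) := by
  obtain ⟨t, rfl⟩ := h
  simp

theorem pat_imp {Xs : V → Language α} {d : ℕ} {L R m m' : List α}
    (h : pat Xs d L R m = pat Xs d L R m') {v : V} {u w : List α} (hu : u <:+ L) (hw : w <+: R)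
    (hlen : u.length < d ∨ w.length < d) (hmem : u ++ (m ++ w) ∈ Xs v) :
    u ++ (m' ++ w) ∈ Xs v := by
  classical
  have hul := hu.length_le
  have hwl := hw.length_le
  have hu' := suffix_eq_drop hu
  have hw' : w = R.take w.length := List.prefix_iff_eq_take.1 hw
  rcases hlen with hlen | hlen
  · have h1 : ((v, ⟨u.length, hlen⟩, ⟨w.length, by omega⟩) : V × Fin d × Fin (R.length + 1)) ∈
        (pat Xs d L R m).1 := by
      rw [pat, Finset.mem_filter]
      refine ⟨Finset.mem_univ _, ?_⟩
      change L.drop (L.length - u.length) ++ (m ++ R.take w.length) ∈ Xs v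
      rw [← hu', ← hw']
      exact hmem
    rw [h, pat, Finset.mem_filter] at h1
    have h2 : L.drop (L.length - u.length) ++ (m' ++ R.take w.length) ∈ Xs v := h1.2
    rw [← hu', ← hw'] at h2
    exact h2
  · have h1 : ((v, ⟨u.length, by omega⟩, ⟨w.length, hlen⟩) : V × Fin (L.length + 1) × Fin d) ∈
        (pat Xs d L R m).2 := by
      rw [pat, Finset.mem_filter]
      refine ⟨Finset.mem_univ _, ?_⟩
      change L.drop (L.length - u.length) ++ (m ++ R.take w.length) ∈ Xs v
      rw [← hu', ← hw']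
      exact hmem
    rw [h, pat, Finset.mem_filter] at h1
    have h2 : L.drop (L.length - u.length) ++ (m' ++ R.take w.length) ∈ Xs v := h1.2
    rw [← hu', ← hw'] at h2
    exact h2

theorem card_pat_type (d a b : ℕ) :
    Fintype.card (Finset (V × Fin d × Fin (b + 1)) × Finset (V × Fin (a + 1) × Fin d)) =
      2 ^ (Fintype.card V * d * (a + b + 2)) := by
  rw [Fintype.card_prod, Fintype.card_finset, Fintype.card_finset, ← pow_add]
  congr 1
  simp only [Fintype.card_prod, Fintype.card_fin]
  ring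

/-- The patterns for finitely many linear conjunctive languages at the same time. -/
theorem exists_patterns {ι : Type} [Finite ι] {κ : ι → Language α}
    (hκ : ∀ c, IsLinearConjunctive (κ c)) :
    ∃ B : ℕ, ∀ L R : List α, ∃ (P : Type) (_ : Fintype P) (p : List α → P),
      Fintype.card P = 2 ^ (B * (L.length + R.length + 2)) ∧
      ∀ m m', m ≠ [] → p m = p m' → ∀ c u v, u <:+ L → v <+: R →
        u ++ (m ++ v) ∈ κ c → u ++ (m' ++ v) ∈ κ c := by
  classical
  haveI := Fintype.ofFinite ι
  choose G hG X hX hXκ using hκ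
  let V : Type := Σ c : ι, Fin (G c).k
  let Xs : V → Language α := fun t => X t.1 t.2
  let d : ℕ := ∑ c, width (G c)
  refine ⟨Fintype.card V * d, fun L R => ⟨_, inferInstance, pat Xs d L R, ?_, ?_⟩⟩
  · exact card_pat_type d L.length R.length
  · intro m m' hm hp c u v hu hv h
    rw [← hXκ c] at h ⊢
    refine strip (hG c) (hX c) (d := d) ?_ hm ?_ _ u v hu hv h
    · exact Finset.single_le_sum (f := fun c => width (G c)) (fun _ _ => Nat.zero_le _)
        (Finset.mem_univ c)
    · intro A u v hu hv hlen hA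
      exact pat_imp (v := (⟨c, A⟩ : V)) hp hu hv hlen hA

end Strips

/-! ## The languages `K₁`, `K₂`, and the words -/

/-- a word which begins and ends with the letter `#`; the letters `e, f, #` are `0, 1, 2` -/
def Hz (z : List (Fin 3)) : Prop := z = [2] ∨ ∃ q, z = 2 :: (q ++ [2])

/-- the language of the words `x^i z x^i`, where `z` begins and ends with `#` -/
def K (x : Fin 3) : Language (Fin 3) :=
  {w | ∃ (i : ℕ) (z : List (Fin 3)), Hz z ∧ w = List.replicate i x ++ (z ++ List.replicate i x)}

/-- the concatenation: the words `e^i z e^i f^j z' f^j` -/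
def T : Language (Fin 3) := K 0 * K 1

/-- `# e^x₁ f^y₁ # e^x₂ f^y₂ … # e^xₙ f^yₙ` -/
def code (S : List (ℕ × ℕ)) : List (Fin 3) :=
  S.flatMap (fun p => 2 :: (List.replicate p.1 0 ++ List.replicate p.2 1))

/-- the word `e^i code(S) # f^j` -/
def word (i : ℕ) (S : List (ℕ × ℕ)) (j : ℕ) : List (Fin 3) :=
  List.replicate i 0 ++ (code S ++ 2 :: List.replicate j 1)

theorem code_cons (p : ℕ × ℕ) (S : List (ℕ × ℕ)) :
    code (p :: S) = 2 :: (List.replicate p.1 0 ++ (List.replicate p.2 1 ++ code S)) := by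
  simp [code]

theorem code_append (S S' : List (ℕ × ℕ)) : code (S ++ S') = code S ++ code S' := by
  simp [code]

theorem mem_T {w : List (Fin 3)} : w ∈ T ↔ ∃ (i j : ℕ) (z z' : List (Fin 3)), Hz z ∧ Hz z' ∧
    w = (List.replicate i 0 ++ (z ++ List.replicate i 0)) ++
      (List.replicate j 1 ++ (z' ++ List.replicate j 1)) := by
  rw [T, Language.mem_mul]
  constructor
  · rintro ⟨a, ⟨i, z, hz, rfl⟩, b, ⟨j, z', hz', rfl⟩, rfl⟩
    exact ⟨i, j, z, z', hz, hz', rfl⟩
  · rintro ⟨i, j, z, z', hz, hz', rfl⟩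
    exact ⟨_, ⟨i, z, hz, rfl⟩, _, ⟨j, z', hz', rfl⟩, rfl⟩

/-- `code S #` begins and ends with `#` -/
theorem Hz_code (S : List (ℕ × ℕ)) : Hz (code S ++ [2]) := by
  cases S with
  | nil => exact Or.inl rfl
  | cons p S =>
    right
    exact ⟨_, by rw [code_cons]; rfl⟩

theorem Hz_right {z : List (Fin 3)} (h : Hz z) (r : List (Fin 3)) : Hz (z ++ (r ++ [2])) := by
  right
  rcases h with rfl | ⟨q, rfl⟩
  · exact ⟨r, rfl⟩
  · exact ⟨q ++ 2 :: r, by simp⟩

/-- if the pair `(a, b)` occurs in `S` then the following words are in `T` -/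
theorem mem_T_left {a b : ℕ} {S : List (ℕ × ℕ)} (h : (a, b) ∈ S) (r : List (Fin 3)) :
    List.replicate a 0 ++ (code S ++ (2 :: (r ++ 2 :: List.replicate b 1))) ∈ T := by
  obtain ⟨S₁, S₂, rfl⟩ := List.append_of_mem h
  rw [mem_T]
  refine ⟨a, b, code S₁ ++ [2], (code S₂ ++ [2]) ++ (r ++ [2]), Hz_code S₁,
    Hz_right (Hz_code S₂) r, ?_⟩
  rw [code_append, code_cons]
  simp

theorem mem_T_right {a b : ℕ} {S : List (ℕ × ℕ)} (h : (a, b) ∈ S) (r : List (Fin 3)) :
    List.replicate a 0 ++ (2 :: (r ++ (code S ++ (2 :: List.replicate b 1)))) ∈ T := by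
  obtain ⟨S₁, S₂, rfl⟩ := List.append_of_mem h
  rw [mem_T]
  refine ⟨a, b, 2 :: ((r ++ code S₁) ++ [2]), code S₂ ++ [2], Or.inr ⟨_, rfl⟩,
    Hz_code S₂, ?_⟩
  rw [code_append, code_cons]
  simp

theorem two_split : ∀ {u u' v v' : List (Fin 3)}, (∀ x ∈ u, x ≠ 2) → (∀ x ∈ u', x ≠ 2) →
    u ++ 2 :: v = u' ++ 2 :: v' → u = u' ∧ v = v' := by
  intro u
  induction u with
  | nil =>
    intro u' v v' _ h' e
    cases u' with
    | nil =>
      simp only [List.nil_append, List.cons.injEq, true_and] at e
      exact ⟨rfl, e⟩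
    | cons x u' =>
      exfalso
      simp only [List.nil_append, List.cons_append, List.cons.injEq] at e
      exact h' x List.mem_cons_self e.1.symm
  | cons y u ih =>
    intro u' v v' h h' e
    cases u' with
    | nil =>
      exfalso
      simp only [List.nil_append, List.cons_append, List.cons.injEq] at e
      exact h y List.mem_cons_self e.1
    | cons x u' =>
      simp only [List.cons_append, List.cons.injEq] at e
      obtain ⟨h1, h2⟩ := ih (fun t ht => h t (List.mem_cons_of_mem _ ht))
        (fun t ht => h' t (List.mem_cons_of_mem _ ht)) e.2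
      exact ⟨by rw [e.1, h1], h2⟩

theorem two_split' {u u' v v' : List (Fin 3)} (h : ∀ x ∈ v, x ≠ 2) (h' : ∀ x ∈ v', x ≠ 2)
    (e : u ++ 2 :: v = u' ++ 2 :: v') : u = u' ∧ v = v' := by
  have e' := congrArg List.reverse e
  simp only [List.reverse_append, List.reverse_cons, List.append_assoc, List.cons_append,
    List.nil_append] at e'
  obtain ⟨h1, h2⟩ := two_split (fun x hx => h x (List.mem_reverse.1 hx))
    (fun x hx => h' x (List.mem_reverse.1 hx)) e'
  exact ⟨List.reverse_injective h2, List.reverse_injective h1⟩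

theorem two_skip : ∀ {u v q t : List (Fin 3)}, (∀ x ∈ u, x ≠ 2) → u ++ v = q ++ 2 :: t →
    ∃ q', q = u ++ q' ∧ v = q' ++ 2 :: t := by
  intro u
  induction u with
  | nil =>
    intro v q t _ e
    exact ⟨q, rfl, e⟩
  | cons y u ih =>
    intro v q t h e
    cases q with
    | nil =>
      exfalso
      simp only [List.nil_append, List.cons_append, List.cons.injEq] at e
      exact h y List.mem_cons_self e.1
    | cons x q =>
      simp only [List.cons_append, List.cons.injEq] at e
      obtain ⟨q', h1, h2⟩ := ih (fun t ht => h t (List.mem_cons_of_mem _ ht)) e.2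
      exact ⟨q', by rw [h1, e.1]; rfl, h2⟩

theorem no_two {x y : ℕ} : ∀ t ∈ (List.replicate x (0 : Fin 3) ++ List.replicate y 1), t ≠ 2 := by
  intro t ht
  rcases List.mem_append.1 ht with h | h
  · rw [(List.mem_replicate.1 h).2]
    decide
  · rw [(List.mem_replicate.1 h).2]
    decide

theorem entry_inj {x y i j : ℕ} (h : List.replicate x (0 : Fin 3) ++ List.replicate y 1 =
    List.replicate i 0 ++ List.replicate j 1) : x = i ∧ y = j := by
  have h1 := congrArg (List.count 0) h
  have h2 := congrArg (List.count 1) h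
  rw [List.count_append, List.count_append, List.count_replicate, List.count_replicate,
    List.count_replicate, List.count_replicate] at h1 h2
  simp at h1 h2
  exact ⟨h1, h2⟩

theorem entry_mem {i j : ℕ} : ∀ {S : List (ℕ × ℕ)} {q r : List (Fin 3)},
    code S ++ [2] = q ++ 2 :: (List.replicate i 0 ++ (List.replicate j 1 ++ 2 :: r)) →
    (i, j) ∈ S := by
  intro S
  induction S with
  | nil =>
    intro q r h
    exfalso
    have := congrArg List.length h
    simp only [code, List.flatMap_nil, List.nil_append, List.length_cons, List.length_nil,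
      List.length_append] at this
    omega
  | cons p S ih =>
    intro q r h
    rw [code_cons] at h
    cases q with
    | nil =>
      simp only [List.nil_append, List.cons_append, List.cons.injEq, true_and,
        List.append_assoc] at h
      obtain ⟨t, ht⟩ : ∃ t, code S ++ [2] = 2 :: t := by
        cases S with
        | nil => exact ⟨[], rfl⟩
        | cons p S => exact ⟨_, by rw [code_cons]; rfl⟩
      rw [ht, ← List.append_assoc, ← List.append_assoc] at h
      have h1 := (two_split no_two no_two h).1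
      obtain ⟨h2, h3⟩ := entry_inj h1
      have : p = (i, j) := Prod.ext h2 h3
      rw [this]
      exact List.mem_cons_self
    | cons x q =>
      simp only [List.cons_append, List.cons.injEq, List.append_assoc] at h
      rw [← List.append_assoc] at h
      obtain ⟨q', -, h2⟩ := two_skip no_two h.2
      exact List.mem_cons_of_mem _ (ih h2)

theorem word_notMem {i j : ℕ} {S : List (ℕ × ℕ)} (h : (i, j) ∉ S) : word i S j ∉ T := by
  intro hT
  rw [mem_T] at hT
  obtain ⟨i', j', z, z', hz, hz', e⟩ := hT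
  apply h
  have h0 : ∀ (n : ℕ), ∀ x ∈ List.replicate n (0 : Fin 3), x ≠ 2 := by
    intro n x hx
    rw [(List.mem_replicate.1 hx).2]
    decide
  have h1 : ∀ (n : ℕ), ∀ x ∈ List.replicate n (1 : Fin 3), x ≠ 2 := by
    intro n x hx
    rw [(List.mem_replicate.1 hx).2]
    decide
  -- `z = 2 :: y` and `z = x ++ [2]`
  obtain ⟨y, hy⟩ : ∃ y, z = 2 :: y := by
    rcases hz with rfl | ⟨q, rfl⟩
    · exact ⟨[], rfl⟩
    · exact ⟨_, rfl⟩
  obtain ⟨x, hx⟩ : ∃ x, z = x ++ [2] := by
    rcases hz with rfl | ⟨q, rfl⟩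
    · exact ⟨[], rfl⟩
    · exact ⟨2 :: q, rfl⟩
  obtain ⟨y', hy'⟩ : ∃ y', z' = 2 :: y' := by
    rcases hz' with rfl | ⟨q, rfl⟩
    · exact ⟨[], rfl⟩
    · exact ⟨_, rfl⟩
  obtain ⟨x', hx'⟩ : ∃ x', z' = x' ++ [2] := by
    rcases hz' with rfl | ⟨q, rfl⟩
    · exact ⟨[], rfl⟩
    · exact ⟨2 :: q, rfl⟩
  obtain ⟨t, ht⟩ : ∃ t, code S ++ 2 :: List.replicate j 1 = 2 :: t := by
    cases S with
    | nil => exact ⟨_, rfl⟩
    | cons p S => exact ⟨_, by rw [code_cons]; rfl⟩
  -- the first block
  have e1 : List.replicate i 0 ++ 2 :: t = List.replicate i' 0 ++ 2 ::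
      (y ++ (List.replicate i' 0 ++ (List.replicate j' 1 ++ (z' ++ List.replicate j' 1)))) := by
    rw [← ht]
    rw [word] at e
    rw [e, hy]
    simp
  obtain ⟨f1, f2⟩ := two_split (h0 i) (h0 i') e1
  have hi : i = i' := by
    have := congrArg List.length f1
    simpa using this
  -- the last block
  have e2 : (List.replicate i 0 ++ code S) ++ 2 :: List.replicate j 1 =
      (List.replicate i' 0 ++ (z ++ (List.replicate i' 0 ++ (List.replicate j' 1 ++ x')))) ++
        2 :: List.replicate j' 1 := by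
    rw [word] at e
    rw [List.append_assoc, e, hx']
    simp
  obtain ⟨g1, g2⟩ := two_split' (h1 j) (h1 j') e2
  have hj : j = j' := by
    have := congrArg List.length g2
    simpa using this
  subst hi
  subst hj
  have g3 : code S = z ++ (List.replicate i 0 ++ (List.replicate j 1 ++ x')) :=
    List.append_cancel_left g1
  refine entry_mem (S := S) (q := x) (r := y') ?_
  rw [g3, ← hy', hx', hx]
  simp

/-! ## Derivations of the words `e^i m f^j` -/

section Extraction

variable {α ι : Type} {k : ℕ}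

/-- A factorisation of `a m b` along a string of symbols: one of the symbols takes all of `m`, or
`m` is cut between two symbols. -/
theorem cat_cut {κ : ι → Language α} {X : Fin k → Language α} {m b : List α} (hm : m ≠ []) :
    ∀ {s : List (Sym α k ι)} {a : List α}, a ++ (m ++ b) ∈ cat κ X s →
      (∃ s₁ σ s₂ a₁ a₂ b₁ b₂, s = s₁ ++ σ :: s₂ ∧ a = a₁ ++ a₂ ∧ b = b₂ ++ b₁ ∧
        a₁ ∈ cat κ X s₁ ∧ b₁ ∈ cat κ X s₂ ∧ a₂ ++ (m ++ b₂) ∈ val κ X σ) ∨
      ∃ s₁ s₂ m₁ m₂, s = s₁ ++ s₂ ∧ m = m₁ ++ m₂ ∧ m₁ ≠ [] ∧ m₂ ≠ [] ∧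
        a ++ m₁ ∈ cat κ X s₁ ∧ m₂ ++ b ∈ cat κ X s₂ := by
  intro s
  induction s with
  | nil =>
    intro a h
    rw [mem_cat_nil] at h
    exfalso
    simp only [List.append_eq_nil_iff] at h
    exact hm h.2.1
  | cons σ s ih =>
    intro a h
    rw [mem_cat_cons] at h
    obtain ⟨u, hu, v, hv, huv⟩ := h
    have key : (∃ a', a = u ++ a' ∧ v = a' ++ (m ++ b)) ∨
        (∃ c m', c ≠ [] ∧ m' ≠ [] ∧ u = a ++ c ∧ m = c ++ m' ∧ v = m' ++ b) ∨
        ∃ b₂, u = a ++ (m ++ b₂) ∧ b = b₂ ++ v := by
      rcases List.append_eq_append_iff.1 huv with ⟨a', h1, h2⟩ | ⟨c, h1, h2⟩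
      · exact Or.inl ⟨a', h1, h2⟩
      · rcases List.append_eq_append_iff.1 h2 with ⟨b₂, h3, h4⟩ | ⟨m', h3, h4⟩
        · exact Or.inr (Or.inr ⟨b₂, by rw [h1, h3], h4⟩)
        · by_cases hc : c = []
          · subst hc
            left
            refine ⟨[], by rw [h1]; simp, ?_⟩
            rw [h4, h3]
            simp
          · by_cases hm' : m' = []
            · subst hm'
              right
              right
              refine ⟨[], by rw [h1, h3]; simp, ?_⟩
              rw [h4]
              simp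
            · exact Or.inr (Or.inl ⟨c, m', hc, hm', h1, h3, h4⟩)
    rcases key with ⟨a', rfl, rfl⟩ | ⟨c, m', hc, hm', rfl, rfl, rfl⟩ | ⟨b₂, rfl, rfl⟩
    · rcases ih hv with ⟨s₁, τ, s₂, a₁, a₂, b₁, b₂, h1, h2, h3, h4, h5, h6⟩ |
        ⟨s₁, s₂, m₁, m₂, h1, h2, h3, h4, h5, h6⟩
      · left
        refine ⟨σ :: s₁, τ, s₂, u ++ a₁, a₂, b₁, b₂, by simp [h1], by simp [h2], h3, ?_, h5, h6⟩
        rw [mem_cat_cons]
        exact ⟨u, hu, a₁, h4, rfl⟩
      · right
        refine ⟨σ :: s₁, s₂, m₁, m₂, by simp [h1], h2, h3, h4, ?_, h6⟩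
        rw [mem_cat_cons]
        exact ⟨u, hu, a' ++ m₁, h5, by simp⟩
    · right
      refine ⟨[σ], s, c, m', rfl, rfl, hc, hm', ?_, hv⟩
      rw [mem_cat_cons]
      exact ⟨a ++ c, hu, [], by rw [mem_cat_nil], by simp⟩
    · left
      exact ⟨[], σ, s, [], a, v, b₂, rfl, rfl, rfl, by rw [mem_cat_nil], hv, hu⟩

/-- the conjuncts of the rules -/
def strs (G : Grammar α ι) : List (List (Sym α G.k ι)) := G.rules.flatMap Prod.snd

theorem mem_strs {G : Grammar α ι} {A : Fin G.k} {r : List (List (Sym α G.k ι))}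
    (h : (A, r) ∈ G.rules) {s : List (Sym α G.k ι)} (hs : s ∈ r) : s ∈ strs G :=
  List.mem_flatMap.2 ⟨(A, r), h, hs⟩

/-- the pairs `(x, y)` such that the words of `B` may be placed between `e^x` and `f^y` -/
def Ctx (X : Fin k → Language α) (e f : α) (s₀ B : Fin k) : Set (ℕ × ℕ) :=
  {p | ∀ w ∈ X B, List.replicate p.1 e ++ (w ++ List.replicate p.2 f) ∈ X s₀}

/-- The word `e^i' m f^j'` belongs to a constant, and may be replaced by all words of this
constant, between `e^x` and `f^y`. -/
def Leaf (G : Grammar α ι) (κ : ι → Language α) (X : Fin G.k → Language α) (e f : α)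
    (m : List α) (i j x y : ℕ) : Prop :=
  ∃ γ i' j', (∃ s ∈ strs G, Sym.const γ ∈ s) ∧ i' ≤ i ∧ j' ≤ j ∧
    List.replicate i' e ++ (m ++ List.replicate j' f) ∈ κ γ ∧
    ∀ v ∈ κ γ, List.replicate (x + (i - i')) e ++ (v ++ List.replicate (y + (j - j')) f) ∈
      X G.start

/-- The word `e^i' m f^j'` is generated by a rule `B → s₁ s₂`, where `m` is cut. -/
def Cut (G : Grammar α ι) (κ : ι → Language α) (X : Fin G.k → Language α) (e f : α)
    (m : List α) (i j x y : ℕ) : Prop :=
  ∃ B s₁ s₂ i' j' m₁ m₂, (B, [s₁ ++ s₂]) ∈ G.rules ∧ i' ≤ i ∧ j' ≤ j ∧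
    (x + (i - i'), y + (j - j')) ∈ Ctx X e f G.start B ∧ m = m₁ ++ m₂ ∧ m₁ ≠ [] ∧ m₂ ≠ [] ∧
    List.replicate i' e ++ m₁ ∈ cat κ X s₁ ∧ m₂ ++ List.replicate j' f ∈ cat κ X s₂

theorem replicate_split {a b : List α} {n : ℕ} {x : α} (h : List.replicate n x = a ++ b) :
    ∃ p q, p + q = n ∧ a = List.replicate p x ∧ b = List.replicate q x := by
  refine ⟨a.length, b.length, ?_, ?_, ?_⟩
  · have := congrArg List.length h
    rw [List.length_replicate, List.length_append] at this
    exact this.symm
  · rw [List.eq_replicate_iff]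
    refine ⟨rfl, fun t ht => ?_⟩
    have : t ∈ List.replicate n x := by rw [h]; exact List.mem_append_left _ ht
    exact (List.mem_replicate.1 this).2
  · rw [List.eq_replicate_iff]
    refine ⟨rfl, fun t ht => ?_⟩
    have : t ∈ List.replicate n x := by rw [h]; exact List.mem_append_right _ ht
    exact (List.mem_replicate.1 this).2

theorem extraction {G : Grammar α ι} {κ : ι → Language α} {X : Fin G.k → Language α} {e f : α}
    (hG : ContextFree G) (hX : IsLeast {X | IsSolution G κ X} X) {m : List α}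
    (hm : 2 ≤ m.length) : ∀ A i j x y, List.replicate i e ++ (m ++ List.replicate j f) ∈ X A →
      (x, y) ∈ Ctx X e f G.start A → Leaf G κ X e f m i j x y ∨ Cut G κ X e f m i j x y := by
  let Z : Fin G.k → Language α := fun A => {w | w ∈ X A ∧ ∀ i j x y,
    w = List.replicate i e ++ (m ++ List.replicate j f) → (x, y) ∈ Ctx X e f G.start A →
      Leaf G κ X e f m i j x y ∨ Cut G κ X e f m i j x y}
  have hmemZ : ∀ {A : Fin G.k} {w : List α}, w ∈ Z A ↔ w ∈ X A ∧ ∀ i j x y,
    w = List.replicate i e ++ (m ++ List.replicate j f) → (x, y) ∈ Ctx X e f G.start A →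
      Leaf G κ X e f m i j x y ∨ Cut G κ X e f m i j x y := Iff.rfl
  have hZX : Z ≤ X := fun A w hw => hw.1
  have hm0 : m ≠ [] := by
    intro h
    rw [h] at hm
    simp at hm
  have hXZ : X ≤ Z := by
    refine le_of_closed hX ?_
    intro A r hr w hw
    obtain ⟨s, rfl⟩ := List.length_eq_one_iff.1 (hG A r hr)
    have hws : w ∈ cat κ Z s := hw s List.mem_cons_self
    have hwX : w ∈ X A := (hX.1 A w).2 ⟨_, hr, fun s hs => cat_mono le_rfl hZX s (hw s hs)⟩
    refine ⟨hwX, fun i j x y hwij hctx => ?_⟩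
    subst hwij
    have hsol : ∀ v, v ∈ cat κ X s → v ∈ X A := by
      intro v hv
      refine (hX.1 A _).2 ⟨_, hr, fun t ht => ?_⟩
      rw [List.mem_singleton] at ht
      rw [ht]
      exact hv
    rcases cat_cut hm0 hws with ⟨s₁, σ, s₂, a₁, a₂, b₁, b₂, rfl, h2, h3, h4, h5, h6⟩ |
      ⟨s₁, s₂, m₁, m₂, rfl, h2, h3, h4, h5, h6⟩
    · obtain ⟨i₁, i₂, hi, rfl, rfl⟩ := replicate_split h2
      obtain ⟨j₂, j₁, hj, rfl, rfl⟩ := replicate_split h3
      have h4' : List.replicate i₁ e ∈ cat κ X s₁ := cat_mono le_rfl hZX s₁ h4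
      have h5' : List.replicate j₁ f ∈ cat κ X s₂ := cat_mono le_rfl hZX s₂ h5
      have hctx' : ∀ v, v ∈ val κ X σ → List.replicate (x + i₁) e ++
          (v ++ List.replicate (y + j₁) f) ∈ X G.start := by
        intro v hv
        have h7 := hctx _ (hsol _ (mem_cat_mid h4' hv h5'))
        have e1 : List.replicate (x + i₁) e ++ (v ++ List.replicate (y + j₁) f) =
            List.replicate x e ++ ((List.replicate i₁ e ++ (v ++ List.replicate j₁ f)) ++
              List.replicate y f) := by
          rw [List.replicate_add x i₁, Nat.add_comm y j₁, List.replicate_add j₁ y]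
          simp only [List.append_assoc]
        rw [e1]
        exact h7
      have ei : i - i₂ = i₁ := by omega
      have ej : j - j₂ = j₁ := by omega
      cases σ with
      | letter z =>
        exfalso
        have h7 := congrArg List.length (mem_val_letter.1 h6)
        simp only [List.length_append, List.length_cons, List.length_nil] at h7
        omega
      | const γ =>
        left
        refine ⟨γ, i₂, j₂, ⟨_, mem_strs hr List.mem_cons_self, by simp⟩, by omega, by omega,
          mem_val_const.1 h6, fun v hv => ?_⟩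
        rw [ei, ej]
        exact hctx' v hv
      | var C =>
        have h7 := (hmemZ.1 (mem_val_var.1 h6)).2 i₂ j₂ (x + i₁) (y + j₁) rfl
          (fun v hv => hctx' v (mem_val_var.2 hv))
        rcases h7 with ⟨γ, i', j', g1, g2, g3, g4, g5⟩ |
          ⟨B, t₁, t₂, i', j', m₁, m₂, g1, g2, g3, g4, g5, g6, g7, g8, g9⟩
        · left
          refine ⟨γ, i', j', g1, by omega, by omega, g4, fun v hv => ?_⟩
          have h8 := g5 v hv
          have e1 : x + i₁ + (i₂ - i') = x + (i - i') := by omega
          have e2 : y + j₁ + (j₂ - j') = y + (j - j') := by omega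
          rw [e1, e2] at h8
          exact h8
        · right
          have e1 : x + i₁ + (i₂ - i') = x + (i - i') := by omega
          have e2 : y + j₁ + (j₂ - j') = y + (j - j') := by omega
          rw [e1, e2] at g4
          exact ⟨B, t₁, t₂, i', j', m₁, m₂, g1, by omega, by omega, g4, g5, g6, g7, g8, g9⟩
    · right
      refine ⟨A, s₁, s₂, i, j, m₁, m₂, hr, le_rfl, le_rfl, ?_, h2, h3, h4,
        cat_mono le_rfl hZX s₁ h5, cat_mono le_rfl hZX s₂ h6⟩
      rw [Nat.sub_self, Nat.sub_self]
      exact hctx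
  intro A i j x y hA hctx
  exact (hmemZ.1 (hXZ A hA)).2 i j x y rfl hctx

end Extraction

/-! ## Counting -/

section Counting

variable {W I P : Type} [Fintype W] [DecidableEq W]

theorem card_disjoint (Q : Finset W) :
    (Finset.univ.filter (fun S : Finset W => Disjoint Q S)).card =
      2 ^ (Fintype.card W - Q.card) := by
  have h : Finset.univ.filter (fun S : Finset W => Disjoint Q S) = Qᶜ.powerset := by
    ext S
    rw [Finset.mem_filter, Finset.mem_powerset]
    constructor
    · rintro ⟨-, h⟩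
      exact fun x hx => Finset.mem_compl.2 fun hQ => Finset.disjoint_left.1 h hQ hx
    · intro h
      refine ⟨Finset.mem_univ _, Finset.disjoint_left.2 fun x hQ hx => ?_⟩
      exact Finset.mem_compl.1 (h hx) hQ
  rw [h, Finset.card_powerset, Finset.card_compl]

/-- If there are few sets `Q i` and few patterns then there are two sets `S`, `S'` with the same
pattern, and a point `w` of `S'` which is not in `S`, such that all sets `Q i` which contain `w`
meet `S`. -/
theorem combinatorial [Fintype I] [Fintype P] (Q : I → Finset W) (p : Finset W → P) (t : ℕ)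
    (ht : 2 * Fintype.card I ≤ 2 ^ t)
    (hn : 2 ^ (Fintype.card I * t) * Fintype.card P < 2 ^ (Fintype.card W - 1))
    (hW : t < Fintype.card W) :
    ∃ (S S' : Finset W) (w : W), p S = p S' ∧ w ∈ S' ∧ w ∉ S ∧ ∀ i, w ∈ Q i →
      ¬ Disjoint (Q i) S := by
  classical
  set n := Fintype.card W with hnW
  -- the bad sets
  let Bd : Finset (Finset W) := Finset.univ.filter (fun S => ∃ i, t ≤ (Q i).card ∧ Disjoint (Q i) S)
  have hBd : Bd.card ≤ 2 ^ (n - 1) := by
    have h1 : Bd ⊆ (Finset.univ.filter (fun i : I => t ≤ (Q i).card)).biUnion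
        (fun i => Finset.univ.filter (fun S : Finset W => Disjoint (Q i) S)) := by
      intro S hS
      obtain ⟨i, hi, hd⟩ := (Finset.mem_filter.1 hS).2
      exact Finset.mem_biUnion.2 ⟨i, Finset.mem_filter.2 ⟨Finset.mem_univ _, hi⟩,
        Finset.mem_filter.2 ⟨Finset.mem_univ _, hd⟩⟩
    have h2 := (Finset.card_le_card h1).trans (Finset.card_biUnion_le_card_mul _ _ (2 ^ (n - t))
      (fun i hi => by
        rw [card_disjoint]
        exact Nat.pow_le_pow_right (by norm_num)
          (Nat.sub_le_sub_left (Finset.mem_filter.1 hi).2 _)))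
    refine h2.trans ?_
    have h3 : (Finset.univ.filter (fun i : I => t ≤ (Q i).card)).card ≤ Fintype.card I :=
      (Finset.card_filter_le _ _).trans (le_of_eq Finset.card_univ)
    have h4 : 2 * (Fintype.card I * 2 ^ (n - t)) ≤ 2 * 2 ^ (n - 1) := by
      calc 2 * (Fintype.card I * 2 ^ (n - t)) = (2 * Fintype.card I) * 2 ^ (n - t) := by ring
        _ ≤ 2 ^ t * 2 ^ (n - t) := Nat.mul_le_mul_right _ ht
        _ = 2 ^ n := by rw [← pow_add]; congr 1; omega
        _ = 2 * 2 ^ (n - 1) := by rw [← pow_succ']; congr 1; omega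
    have h5 := Nat.mul_le_mul_right (2 ^ (n - t)) h3
    omega
  -- the small sets
  let U : Finset W := (Finset.univ.filter (fun i : I => (Q i).card < t)).biUnion Q
  have hU : U.card ≤ Fintype.card I * t := by
    refine (Finset.card_biUnion_le_card_mul _ _ t
      (fun i hi => (Finset.mem_filter.1 hi).2.le)).trans ?_
    exact Nat.mul_le_mul_right _ ((Finset.card_filter_le _ _).trans (le_of_eq Finset.card_univ))
  -- the pigeonhole principle
  let f : Finset W → Finset W × P := fun S => (S ∩ U, p S)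
  have hmaps : ∀ S ∈ Bdᶜ, f S ∈ U.powerset ×ˢ (Finset.univ : Finset P) := by
    intro S _
    exact Finset.mem_product.2 ⟨Finset.mem_powerset.2 Finset.inter_subset_right,
      Finset.mem_univ _⟩
  have hcard : (U.powerset ×ˢ (Finset.univ : Finset P)).card < Bdᶜ.card := by
    rw [Finset.card_product, Finset.card_powerset, Finset.card_univ, Finset.card_compl,
      Fintype.card_finset]
    have h1 : 2 ^ U.card * Fintype.card P ≤ 2 ^ (Fintype.card I * t) * Fintype.card P :=
      Nat.mul_le_mul_right _ (Nat.pow_le_pow_right (by norm_num) hU)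
    have h2 : 2 ^ n = 2 * 2 ^ (n - 1) := by rw [← pow_succ']; congr 1; omega
    rw [← hnW]
    omega
  obtain ⟨S, hS, S', hS', hne, hf⟩ := Finset.exists_ne_map_eq_of_card_lt_of_maps_to hcard hmaps
  have hgood : ∀ S ∈ Bdᶜ, ∀ i, t ≤ (Q i).card → ¬ Disjoint (Q i) S := by
    intro S hS i hi hd
    exact Finset.mem_compl.1 hS (Finset.mem_filter.2 ⟨Finset.mem_univ _, i, hi, hd⟩)
  have key : ∀ S ∈ Bdᶜ, ∀ S' : Finset W, f S = f S' → ∀ w, w ∈ S' → w ∉ S → ∀ i, w ∈ Q i →
      ¬ Disjoint (Q i) S := by
    intro S hS S' hf w hw' hw i hi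
    refine hgood S hS i ?_
    by_contra hlt
    push Not at hlt
    have hwU : w ∈ U := Finset.mem_biUnion.2 ⟨i, Finset.mem_filter.2 ⟨Finset.mem_univ _, hlt⟩, hi⟩
    have h1 : S ∩ U = S' ∩ U := congrArg Prod.fst hf
    have h2 : w ∈ S ∩ U := by
      rw [h1]
      exact Finset.mem_inter.2 ⟨hw', hwU⟩
    exact hw (Finset.mem_inter.1 h2).1
  by_cases hsub : S' ⊆ S
  · have hsub' : ¬ S ⊆ S' := fun h => hne (Finset.Subset.antisymm h hsub)
    obtain ⟨w, hw, hw'⟩ := Finset.not_subset.1 hsub'
    exact ⟨S', S, w, (congrArg Prod.snd hf).symm, hw, hw', key S' hS' S hf.symm w hw hw'⟩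
  · obtain ⟨w, hw, hw'⟩ := Finset.not_subset.1 hsub
    exact ⟨S, S', w, congrArg Prod.snd hf, hw, hw', key S hS S' hf w hw hw'⟩

end Counting

theorem sq_le_two_pow : ∀ m : ℕ, 4 ≤ m → m * m ≤ 2 ^ m := by
  intro m hm
  induction m, hm using Nat.le_induction with
  | base => norm_num
  | succ m hm ih =>
    rw [pow_succ]
    nlinarith

/-- the numbers: `k = 2 ^ m` and `t = m + τ + 3` -/
theorem numbers (τ B : ℕ) : ∃ k t : ℕ, 1 < k ∧ 2 * (2 * (τ * (k + 1))) ≤ 2 ^ t ∧
    2 * (τ * (k + 1)) * t + B * (k + k + 2) + 1 < k * k ∧ t < k * k := by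
  obtain ⟨m, hm⟩ : ∃ m, m = 10 * (τ + B + 1) := ⟨_, rfl⟩
  have h1 : m * m ≤ 2 ^ m := sq_le_two_pow m (by omega)
  have h2 : 1 ≤ 2 ^ m := Nat.one_le_two_pow
  have h3 : m ≤ m * m := Nat.le_mul_self m
  refine ⟨2 ^ m, m + τ + 3, by omega, ?_, ?_, ?_⟩
  · have h4 : τ ≤ 2 ^ τ := Nat.lt_two_pow_self.le
    calc 2 * (2 * (τ * (2 ^ m + 1))) ≤ 2 * (2 * (2 ^ τ * (2 * 2 ^ m))) := by
          apply Nat.mul_le_mul_left
          apply Nat.mul_le_mul_left
          apply Nat.mul_le_mul h4
          omega
      _ = 2 ^ (m + τ + 3) := by ring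
  · have h5 : 4 * τ * (m + τ + 3) + 4 * B + 1 < m * m := by
      have e1 : 10 * τ ≤ m := by omega
      have e2 : 10 * B ≤ m := by omega
      have e3 : 10 ≤ m := by omega
      nlinarith
    calc 2 * (τ * (2 ^ m + 1)) * (m + τ + 3) + B * (2 ^ m + 2 ^ m + 2) + 1
        ≤ 2 * (τ * (2 * 2 ^ m)) * (m + τ + 3) + B * (4 * 2 ^ m) + 1 * 2 ^ m := by
          have g1 : τ * (2 ^ m + 1) ≤ τ * (2 * 2 ^ m) := Nat.mul_le_mul_left _ (by omega)
          have g2 : B * (2 ^ m + 2 ^ m + 2) ≤ B * (4 * 2 ^ m) := Nat.mul_le_mul_left _ (by omega)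
          have g3 := Nat.mul_le_mul_right (m + τ + 3) (Nat.mul_le_mul_left 2 g1)
          omega
      _ = (4 * τ * (m + τ + 3) + 4 * B + 1) * 2 ^ m := by ring
      _ < m * m * 2 ^ m := Nat.mul_lt_mul_of_pos_right h5 (by omega)
      _ ≤ 2 ^ m * 2 ^ m := Nat.mul_le_mul_right _ h1
  · have h6 : m + τ + 3 < m * m := by
      have e1 : 10 * τ ≤ m := by omega
      have e3 : 10 ≤ m := by omega
      nlinarith
    calc m + τ + 3 < m * m := h6
      _ ≤ 2 ^ m := h1
      _ ≤ 2 ^ m * 2 ^ m := Nat.le_mul_self _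

/-! ## The main argument -/

/-- a relation on `{1, …, k}` as a list of pairs -/
noncomputable def lst {k : ℕ} (R : Finset (Fin k × Fin k)) : List (ℕ × ℕ) :=
  R.toList.map (fun p => (p.1.val + 1, p.2.val + 1))

theorem mem_lst {k : ℕ} {R : Finset (Fin k × Fin k)} {p : Fin k × Fin k} :
    (p.1.val + 1, p.2.val + 1) ∈ lst R ↔ p ∈ R := by
  rw [lst, List.mem_map]
  constructor
  · rintro ⟨q, hq, h⟩
    rw [Finset.mem_toList] at hq
    simp only [Prod.mk.injEq, Nat.add_right_cancel_iff] at h
    have : q = p := Prod.ext (Fin.ext h.1) (Fin.ext h.2)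
    rw [← this]
    exact hq
  · intro h
    exact ⟨p, Finset.mem_toList.2 h, rfl⟩

/-- the list with one more pair, which is outside of `{1, …, k}` -/
noncomputable def cd {k : ℕ} (R : Finset (Fin k × Fin k)) : List (ℕ × ℕ) := (k + 1, k + 1) :: lst R

theorem mem_cd {k : ℕ} {R : Finset (Fin k × Fin k)} {p : Fin k × Fin k} :
    (p.1.val + 1, p.2.val + 1) ∈ cd R ↔ p ∈ R := by
  rw [cd, List.mem_cons, mem_lst]
  constructor
  · rintro (h | h)
    · exfalso
      have h1 := congrArg Prod.fst h
      have h2 := p.1.isLt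
      simp only at h1
      omega
    · exact h
  · exact Or.inr

/-- the middle part of the words -/
noncomputable def mm {k : ℕ} (R : Finset (Fin k × Fin k)) : List (Fin 3) :=
  code (cd R) ++ (code (cd R) ++ [2])

theorem code_cd {k : ℕ} (R : Finset (Fin k × Fin k)) : ∃ t, code (cd R) = 2 :: t :=
  ⟨_, by rw [cd, code_cons]⟩

theorem mem_mm {k : ℕ} (R : Finset (Fin k × Fin k)) (x : Fin 3) : x ∈ mm R := by
  rw [mm, cd, code_cons]
  fin_cases x <;> simp

theorem mm_length {k : ℕ} (R : Finset (Fin k × Fin k)) : 2 ≤ (mm R).length := by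
  obtain ⟨t, ht⟩ := code_cd R
  rw [mm, ht]
  simp only [List.length_append, List.length_cons, List.length_nil]
  omega

theorem word_mm {k : ℕ} (R : Finset (Fin k × Fin k)) (i j : ℕ) :
    word i (cd R ++ cd R) j = List.replicate i 0 ++ (mm R ++ List.replicate j 1) := by
  rw [word, code_append, mm]
  simp

theorem word_mm_mem {k : ℕ} {R : Finset (Fin k × Fin k)} {p : Fin k × Fin k} (h : p ∈ R) :
    List.replicate (p.1.val + 1) 0 ++ (mm R ++ List.replicate (p.2.val + 1) 1) ∈ T := by
  obtain ⟨t, ht⟩ := code_cd R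
  have h1 := mem_T_left (mem_cd.2 h) t
  have e : List.replicate (p.1.val + 1) (0 : Fin 3) ++
      (mm R ++ List.replicate (p.2.val + 1) 1) = List.replicate (p.1.val + 1) 0 ++
      (code (cd R) ++ (2 :: (t ++ 2 :: List.replicate (p.2.val + 1) 1))) := by
    rw [mm]
    nth_rewrite 2 [ht]
    simp
  rw [e]
  exact h1

section

variable {ι : Type}

open Classical in
/-- the beginnings and the ends of the conjuncts -/
noncomputable def parts (G : Grammar (Fin 3) ι) : Finset (List (Sym (Fin 3) G.k ι)) :=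
  ((strs G).flatMap (fun s => s.inits ++ s.tails)).toFinset

/-- the finite set of the possible cut rules -/
noncomputable def Ty (G : Grammar (Fin 3) ι) :
    Finset (Fin G.k × List (Sym (Fin 3) G.k ι) × List (Sym (Fin 3) G.k ι)) :=
  Finset.univ ×ˢ (parts G ×ˢ parts G)

theorem mem_Ty {G : Grammar (Fin 3) ι} {B : Fin G.k} {s₁ s₂ : List (Sym (Fin 3) G.k ι)}
    (h : (B, [s₁ ++ s₂]) ∈ G.rules) : (B, s₁, s₂) ∈ Ty G := by
  classical
  have hs := mem_strs h List.mem_cons_self
  rw [Ty, Finset.mem_product, Finset.mem_product]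
  refine ⟨Finset.mem_univ _, ?_, ?_⟩
  · rw [parts, List.mem_toFinset, List.mem_flatMap]
    exact ⟨_, hs, List.mem_append_left _ ((List.mem_inits _ _).2 (List.prefix_append _ _))⟩
  · rw [parts, List.mem_toFinset, List.mem_flatMap]
    exact ⟨_, hs, List.mem_append_right _ ((List.mem_tails _ _).2 (List.suffix_append _ _))⟩

open Classical in
/-- the pairs which are covered by a cut rule, in the two cases -/
noncomputable def QQ (G : Grammar (Fin 3) ι) (κ : ι → Language (Fin 3))
    (X : Fin G.k → Language (Fin 3)) (k : ℕ)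
    (θ : Bool × {θ // θ ∈ Ty G} × Fin (k + 1)) : Finset (Fin k × Fin k) :=
  if θ.1 then
    Finset.univ.filter (fun p => ∃ x y i' m', (x, y) ∈ Ctx X 0 1 G.start θ.2.1.1.1 ∧
      p.1.val + 1 = x + i' ∧ p.2.val + 1 = y + θ.2.2.val ∧
      List.replicate i' 0 ++ 2 :: m' ∈ cat κ X θ.2.1.1.2.1)
  else
    Finset.univ.filter (fun p => ∃ x y j' m', (x, y) ∈ Ctx X 0 1 G.start θ.2.1.1.1 ∧
      p.1.val + 1 = x + θ.2.2.val ∧ p.2.val + 1 = y + j' ∧
      m' ++ 2 :: List.replicate j' 1 ∈ cat κ X θ.2.1.1.2.2)

theorem sound {G : Grammar (Fin 3) ι} {κ : ι → Language (Fin 3)}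
    {X : Fin G.k → Language (Fin 3)} (hX : IsSolution G κ X) {B : Fin G.k}
    {s₁ s₂ : List (Sym (Fin 3) G.k ι)} (hr : (B, [s₁ ++ s₂]) ∈ G.rules) {x y : ℕ}
    (hc : (x, y) ∈ Ctx X 0 1 G.start B) {a b : List (Fin 3)} (ha : a ∈ cat κ X s₁)
    (hb : b ∈ cat κ X s₂) :
    List.replicate x 0 ++ ((a ++ b) ++ List.replicate y 1) ∈ X G.start := by
  refine hc (a ++ b) ((hX B _).2 ⟨_, hr, fun t ht => ?_⟩)
  rw [List.mem_singleton] at ht
  rw [ht, mem_cat_append]
  exact ⟨a, ha, b, hb, rfl⟩

theorem core {G : Grammar (Fin 3) ι} (hG : ContextFree G)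
    {κ : ι → Language (Fin 3)}
    (hκ : ∀ c, IsLinearConjunctive (κ c) ∨ ∃ x : Fin 3, ∀ w ∈ κ c, x ∉ w)
    {X : Fin G.k → Language (Fin 3)} (hX : IsLeast {X | IsSolution G κ X} X)
    (hT : ∀ w ∈ X G.start, w ∉ T)
    (hgood : ∀ i j S, 0 < i → 0 < j → (i, j) ∉ S → word i S j ∈ X G.start) : False := by
  classical
  -- the linear conjunctive constants which occur in the grammar
  let used : Set ι := {c | ∃ s ∈ strs G, Sym.const c ∈ s}
  have hused : used.Finite := by
    have h1 : used ⊆ (Sym.const : ι → Sym (Fin 3) G.k ι) ⁻¹' {σ | σ ∈ (strs G).flatten} := by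
      rintro c ⟨s, hs, hc⟩
      exact List.mem_flatten.2 ⟨s, hs, hc⟩
    refine Set.Finite.subset (Set.Finite.preimage ?_ (List.finite_toSet _)) h1
    intro a _ b _ hab
    exact Sym.const.inj hab
  let ι' : Type := {c // c ∈ used ∧ IsLinearConjunctive (κ c)}
  have : Finite ι' := (hused.subset (fun c (hc : c ∈ used ∧ IsLinearConjunctive (κ c)) => hc.1)).to_subtype
  obtain ⟨B, hB⟩ := exists_patterns (κ := fun c : ι' => κ c.1) (fun c => c.2.2)
  obtain ⟨k, t, hk1, hnum1, hnum2, hnum3⟩ := numbers (Ty G).card B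
  obtain ⟨P, hP, p, hp1, hp2⟩ := hB (List.replicate k 0) (List.replicate k 1)
  rw [List.length_replicate, List.length_replicate] at hp1
  have hcard : Fintype.card (Bool × {θ // θ ∈ Ty G} × Fin (k + 1)) = 2 * ((Ty G).card * (k + 1)) := by
    rw [Fintype.card_prod, Fintype.card_prod, Fintype.card_bool, Fintype.card_coe, Fintype.card_fin]
  have hcardW : Fintype.card (Fin k × Fin k) = k * k := by
    rw [Fintype.card_prod, Fintype.card_fin]
  obtain ⟨S, S', w, hpat, hwS', hwS, hQ⟩ := combinatorial (QQ G κ X k) (fun S => p (mm S)) t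
    (by rw [hcard]; exact hnum1)
    (by
      rw [hcard, hp1, hcardW, ← pow_add]
      exact Nat.pow_lt_pow_right (by norm_num) (by omega))
    (by rw [hcardW]; exact hnum3)
  have hw1 := w.1.isLt
  have hw2 := w.2.isLt
  -- the word of `S` is generated
  have hword : List.replicate (w.1.val + 1) 0 ++ (mm S ++ List.replicate (w.2.val + 1) 1) ∈
      X G.start := by
    rw [← word_mm]
    refine hgood _ _ _ (Nat.succ_pos _) (Nat.succ_pos _) ?_
    rw [List.mem_append, or_self, mem_cd]
    exact hwS
  have hctx0 : ((0, 0) : ℕ × ℕ) ∈ Ctx X 0 1 G.start G.start := by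
    intro v hv
    simpa using hv
  obtain ⟨u, hu⟩ := code_cd S
  rcases extraction hG hX (mm_length S) _ _ _ _ _ hword hctx0 with
    ⟨γ, i', j', hγ, hi, hj, hmem, hall⟩ | ⟨B, s₁, s₂, i', j', m₁, m₂, hr, hi, hj, hc, hm, hm1, hm2, h1, h2⟩
  · rcases hκ γ with hlin | ⟨x, hx⟩
    · -- a constant: replace `S` by `S'`
      have h3 := hp2 _ (mm S') (by
        intro h
        have := mm_length S
        rw [h] at this
        simp at this) hpat ⟨γ, hγ, hlin⟩ (List.replicate i' 0) (List.replicate j' 1)
        ⟨List.replicate (k - i') 0, by rw [← List.replicate_add]; congr 1; omega⟩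
        ⟨List.replicate (k - j') 1, by rw [← List.replicate_add]; congr 1; omega⟩ hmem
      have h4 := hall _ h3
      refine hT _ h4 ?_
      have e : List.replicate (0 + (w.1.val + 1 - i')) (0 : Fin 3) ++
          ((List.replicate i' 0 ++ (mm S' ++ List.replicate j' 1)) ++
            List.replicate (0 + (w.2.val + 1 - j')) 1) =
          List.replicate (w.1.val + 1) 0 ++ (mm S' ++ List.replicate (w.2.val + 1) 1) := by
        have e1 : w.1.val + 1 = (0 + (w.1.val + 1 - i')) + i' := by omega
        have e2 : w.2.val + 1 = j' + (0 + (w.2.val + 1 - j')) := by omega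
        have f1 : List.replicate (w.1.val + 1) (0 : Fin 3) =
            List.replicate (0 + (w.1.val + 1 - i')) 0 ++ List.replicate i' 0 := by
          rw [← List.replicate_add, ← e1]
        have f2 : List.replicate (w.2.val + 1) (1 : Fin 3) =
            List.replicate j' 1 ++ List.replicate (0 + (w.2.val + 1 - j')) 1 := by
          rw [← List.replicate_add, ← e2]
        rw [f1, f2]
        simp only [List.append_assoc]
      rw [e]
      exact word_mm_mem hwS'
    · exact hx _ hmem (List.mem_append_right _ (List.mem_append_left _ (mem_mm S x)))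
  · -- `m` is cut
    have hθ := mem_Ty hr
    have hcase : (∃ z m', m₁ = 2 :: m' ∧ m₂ = z ++ (code (cd S) ++ [2])) ∨
        ∃ c' m', m₁ = code (cd S) ++ 2 :: c' ∧ m₂ = m' ++ [2] := by
      rw [mm] at hm
      rcases List.append_eq_append_iff.1 hm with ⟨a', g1, g2⟩ | ⟨c', g1, g2⟩
      · cases a' with
        | nil =>
          left
          rw [List.append_nil] at g1
          refine ⟨[], u, by rw [g1, hu], ?_⟩
          exact g2.symm
        | cons z c' =>
          right
          have hz : z = 2 := by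
            rw [hu] at g2
            simp only [List.cons_append, List.cons.injEq] at g2
            exact g2.1.symm
          subst hz
          rcases List.eq_nil_or_concat m₂ with h3 | ⟨m', z, h3⟩
          · exact absurd h3 hm2
          · refine ⟨c', m', g1, ?_⟩
            rw [List.concat_eq_append] at h3
            have h4 : code (cd S) ++ [2] = (2 :: c' ++ m') ++ [z] := by
              rw [g2, h3]
              simp
            have h5 := List.append_inj' h4 rfl
            simp only [List.cons.injEq, and_true] at h5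
            rw [h3, h5.2]
      · left
        cases m₁ with
        | nil => exact absurd rfl hm1
        | cons z m' =>
          refine ⟨c', m', ?_, g2⟩
          rw [hu] at g1
          simp only [List.cons_append, List.cons.injEq] at g1
          rw [g1.1]
    rcases hcase with ⟨z, m', rfl, rfl⟩ | ⟨c', m', rfl, rfl⟩
    · -- the second copy is on the right side of the cut
      have hin : w ∈ QQ G κ X k (true, ⟨_, hθ⟩, ⟨j', by omega⟩) := by
        rw [QQ, if_pos rfl, Finset.mem_filter]
        refine ⟨Finset.mem_univ _, _, _, i', m', hc, ?_, ?_, h1⟩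
        · omega
        · change w.2.val + 1 = 0 + (w.2.val + 1 - j') + j'
          omega
      obtain ⟨q, hq1, hq2⟩ := Finset.not_disjoint_iff.1 (hQ _ hin)
      rw [QQ, if_pos rfl, Finset.mem_filter] at hq1
      obtain ⟨-, x, y, i'', m'', g1, g2, g3, g4⟩ := hq1
      change q.2.val + 1 = y + j' at g3
      have h3 := sound hX.1 hr g1 g4 h2
      refine hT _ h3 ?_
      have h4 := mem_T_right (mem_cd.2 hq2) (m'' ++ z)
      rw [g2, g3, List.replicate_add, Nat.add_comm y j', List.replicate_add] at h4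
      simpa only [List.append_assoc, List.cons_append, List.nil_append] using h4
    · -- the first copy is on the left side of the cut
      have hin : w ∈ QQ G κ X k (false, ⟨_, hθ⟩, ⟨i', by omega⟩) := by
        rw [QQ, if_neg Bool.false_ne_true, Finset.mem_filter]
        refine ⟨Finset.mem_univ _, _, _, j', m', hc, ?_, ?_, ?_⟩
        · change w.1.val + 1 = 0 + (w.1.val + 1 - i') + i'
          omega
        · omega
        · simpa only [List.append_assoc, List.cons_append, List.nil_append] using h2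
      obtain ⟨q, hq1, hq2⟩ := Finset.not_disjoint_iff.1 (hQ _ hin)
      rw [QQ, if_neg Bool.false_ne_true, Finset.mem_filter] at hq1
      obtain ⟨-, x, y, j'', m'', g1, g2, g3, g4⟩ := hq1
      change q.1.val + 1 = x + i' at g2
      have h3 := sound hX.1 hr g1 h1 g4
      refine hT _ h3 ?_
      have h4 := mem_T_left (mem_cd.2 hq2) (c' ++ m'')
      rw [g2, g3, List.replicate_add, Nat.add_comm y j'', List.replicate_add] at h4
      simpa only [List.append_assoc, List.cons_append, List.nil_append] using h4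

end

/-! ## Grammars for `K x` and `T` -/

section Grammars

theorem isLeast_of {α ι : Type} {G : Grammar α ι} {κ : ι → Language α}
    {X : Fin G.k → Language α}
    (h1 : ∀ A r, (A, r) ∈ G.rules → ∀ w, (∀ s ∈ r, w ∈ cat κ X s) → w ∈ X A)
    (h2 : ∀ Y : Fin G.k → Language α, (∀ A r, (A, r) ∈ G.rules → ∀ w,
      (∀ s ∈ r, w ∈ cat κ Y s) → w ∈ Y A) → ∀ A w, w ∈ X A → w ∈ Y A) :
    IsLeast {X | IsSolution G κ X} X := by
  constructor
  · intro A w
    constructor
    · intro hw
      let Y : Fin G.k → Language α := fun A => {w | ∃ r, (A, r) ∈ G.rules ∧ ∀ s ∈ r, w ∈ cat κ X s}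
      refine h2 Y ?_ A w hw
      intro A r hr w hw
      refine ⟨r, hr, fun s hs => cat_mono le_rfl ?_ s (hw s hs)⟩
      intro B v hv
      obtain ⟨r', hr', hv'⟩ := hv
      exact h1 B r' hr' v hv'
    · rintro ⟨r, hr, hw⟩
      exact h1 A r hr w hw
  · intro Y hY A
    exact h2 Y (fun A r hr w hw => (hY A w).2 ⟨r, hr, hw⟩) A

variable {ι : Type} {n : ℕ} {κ : ι → Language (Fin 3)}

theorem cat1 {X : Fin n → Language (Fin 3)} {σ : Sym (Fin 3) n ι} {w : List (Fin 3)} :
    w ∈ cat κ X [σ] ↔ w ∈ val κ X σ := by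
  rw [mem_cat_cons]
  constructor
  · rintro ⟨u, hu, v, hv, rfl⟩
    rw [mem_cat_nil] at hv
    rw [hv, List.append_nil]
    exact hu
  · intro h
    exact ⟨w, h, [], mem_cat_nil.2 rfl, by simp⟩

theorem cat2 {X : Fin n → Language (Fin 3)} {σ τ : Sym (Fin 3) n ι} {w : List (Fin 3)} :
    w ∈ cat κ X [σ, τ] ↔ ∃ u ∈ val κ X σ, ∃ v ∈ val κ X τ, u ++ v = w := by
  rw [mem_cat_cons]
  simp only [cat1]

theorem cat3 {X : Fin n → Language (Fin 3)} {σ τ υ : Sym (Fin 3) n ι} {w : List (Fin 3)} :
    w ∈ cat κ X [σ, τ, υ] ↔ ∃ u ∈ val κ X σ, ∃ v ∈ val κ X τ, ∃ z ∈ val κ X υ,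
      u ++ (v ++ z) = w := by
  rw [mem_cat_cons]
  constructor
  · rintro ⟨u, hu, v', hv', rfl⟩
    obtain ⟨v, hv, z, hz, rfl⟩ := cat2.1 hv'
    exact ⟨u, hu, v, hv, z, hz, rfl⟩
  · rintro ⟨u, hu, v, hv, z, hz, rfl⟩
    exact ⟨u, hu, v ++ z, cat2.2 ⟨v, hv, z, hz, rfl⟩, rfl⟩

/-- the rules `A → x A x | C`, `C → # | # D #`, `D → ε | e D | f D | # D`, for nonterminals with the
numbers `a`, `c`, `d` -/
def rul {n : ℕ} (a c d : Fin n) (x : Fin 3) : List (Fin n × List (List (Sym (Fin 3) n Empty))) :=
  [(a, [[Sym.letter x, Sym.var a, Sym.letter x]]), (a, [[Sym.var c]]), (c, [[Sym.letter 2]]),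
    (c, [[Sym.letter 2, Sym.var d, Sym.letter 2]]), (d, [[]]), (d, [[Sym.letter 0, Sym.var d]]),
    (d, [[Sym.letter 1, Sym.var d]]), (d, [[Sym.letter 2, Sym.var d]])]

/-- the grammar of `K x` -/
def gramK (x : Fin 3) : Grammar (Fin 3) Empty := ⟨3, rul 0 1 2 x, 0⟩

/-- the rules of `T`: `S → A B`, and the rules for `A` and `B` -/
def rulT : List (Fin 5 × List (List (Sym (Fin 3) 5 Empty))) :=
  (0, [[Sym.var 1, Sym.var 2]]) :: (rul 1 3 4 0 ++ rul 2 3 4 1)

/-- the grammar of `T` -/
def gramT : Grammar (Fin 3) Empty := ⟨5, rulT, 0⟩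

theorem rulT_cases {A : Fin 5} {r : List (List (Sym (Fin 3) 5 Empty))} (h : (A, r) ∈ rulT) :
    (A = 0 ∧ r = [[Sym.var 1, Sym.var 2]]) ∨ (A, r) ∈ rul (1 : Fin 5) 3 4 0 ∨
      (A, r) ∈ rul (2 : Fin 5) 3 4 1 := by
  rcases List.mem_cons.1 h with h | h
  · exact Or.inl (Prod.mk.inj h)
  · exact Or.inr (List.mem_append.1 h)

variable {κ : Empty → Language (Fin 3)}

/-- the languages of the rules `rul` -/
theorem rul_closed {n : ℕ} {a c d : Fin n} {x : Fin 3} {X : Fin n → Language (Fin 3)}
    (ha : ∀ w, w ∈ X a ↔ w ∈ K x) (hc : ∀ w, w ∈ X c ↔ Hz w) (hd : ∀ w, w ∈ X d) :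
    ∀ A r, (A, r) ∈ rul a c d x → ∀ w, (∀ s ∈ r, w ∈ cat κ X s) → w ∈ X A := by
  intro A r hr w h
  simp only [rul, List.mem_cons, Prod.mk.injEq, List.not_mem_nil, or_false] at hr
  rcases hr with ⟨rfl, rfl⟩ | ⟨rfl, rfl⟩ | ⟨rfl, rfl⟩ | ⟨rfl, rfl⟩ | ⟨rfl, rfl⟩ | ⟨rfl, rfl⟩ |
    ⟨rfl, rfl⟩ | ⟨rfl, rfl⟩
  · obtain ⟨u, rfl, v, hv, z, rfl, rfl⟩ := cat3.1 (h _ List.mem_cons_self)
    obtain ⟨i, y, hy, rfl⟩ := (ha v).1 hv
    rw [ha]
    refine ⟨i + 1, y, hy, ?_⟩
    rw [List.replicate_succ']
    simp [← List.replicate_succ', List.replicate_succ]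
  · rw [ha]
    exact ⟨0, w, (hc w).1 (cat1.1 (h _ List.mem_cons_self)), by simp⟩
  · rw [hc, mem_val_letter.1 (cat1.1 (h _ List.mem_cons_self))]
    exact Or.inl rfl
  · obtain ⟨u, rfl, v, -, z, rfl, rfl⟩ := cat3.1 (h _ List.mem_cons_self)
    rw [hc]
    exact Or.inr ⟨v, rfl⟩
  · exact hd w
  · exact hd w
  · exact hd w
  · exact hd w

theorem rul_le {n : ℕ} {a c d : Fin n} {x : Fin 3} {Y : Fin n → Language (Fin 3)}
    (hY : ∀ A r, (A, r) ∈ rul a c d x → ∀ w, (∀ s ∈ r, w ∈ cat κ Y s) → w ∈ Y A) :
    (∀ w, w ∈ K x → w ∈ Y a) ∧ (∀ w, Hz w → w ∈ Y c) ∧ ∀ w, w ∈ Y d := by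
  have hY' : ∀ A s, (A, [s]) ∈ rul a c d x → ∀ w, w ∈ cat κ Y s → w ∈ Y A := by
    intro A s hs w hw
    refine hY A [s] hs w (fun t ht => ?_)
    rw [List.mem_singleton] at ht
    rw [ht]
    exact hw
  have hZ : ∀ w : List (Fin 3), w ∈ Y d := by
    intro w
    induction w with
    | nil => exact hY' d [] (by simp [rul]) [] (mem_cat_nil.2 rfl)
    | cons x w ih =>
      refine hY' d [Sym.letter x, Sym.var d] ?_ _ (cat2.2 ⟨[x], rfl, w, ih, rfl⟩)
      fin_cases x <;> simp [rul]
  have hC : ∀ w : List (Fin 3), Hz w → w ∈ Y c := by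
    rintro w (rfl | ⟨q, rfl⟩)
    · exact hY' c [Sym.letter 2] (by simp [rul]) _ (cat1.2 rfl)
    · exact hY' c [Sym.letter 2, Sym.var d, Sym.letter 2] (by simp [rul]) _
        (cat3.2 ⟨[2], rfl, q, hZ q, [2], rfl, rfl⟩)
  refine ⟨?_, hC, hZ⟩
  rintro w ⟨i, z, hz, rfl⟩
  induction i with
  | zero =>
    have h := hY' a [Sym.var c] (by simp [rul]) z (cat1.2 (hC z hz))
    simpa using h
  | succ i ih =>
    refine hY' a [Sym.letter x, Sym.var a, Sym.letter x] (by simp [rul]) _
      (cat3.2 ⟨[x], rfl, _, ih, [x], rfl, ?_⟩)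
    rw [List.replicate_succ']
    simp [← List.replicate_succ', List.replicate_succ]

/-- the languages of the nonterminals -/
def solK (x : Fin 3) : Fin 3 → Language (Fin 3) :=
  ![K x, {w : List (Fin 3) | Hz w}, (Set.univ : Set (List (Fin 3)))]

/-- the languages of the nonterminals -/
def solT : Fin 5 → Language (Fin 3) :=
  ![T, K 0, K 1, {w : List (Fin 3) | Hz w}, (Set.univ : Set (List (Fin 3)))]

theorem gen_K (x : Fin 3) : Generates (gramK x) (fun c : Empty => c.elim) (K x) := by
  refine ⟨solK x, isLeast_of ?_ ?_, rfl⟩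
  · exact rul_closed (a := (0 : Fin 3)) (c := 1) (d := 2) (X := solK x) (fun w => Iff.rfl)
      (fun w => Iff.rfl) (fun w => mem_univ w)
  · intro Y hY
    obtain ⟨h1, h2, h3⟩ := rul_le (a := (0 : Fin 3)) (c := 1) (d := 2) hY
    have key : ∀ (A : Fin 3) w, w ∈ solK x A → w ∈ Y A := by
      intro A w hw
      fin_cases A
      · exact h1 w hw
      · exact h2 w hw
      · exact h3 w
    exact key

theorem solT_closed : ∀ (A : Fin 5) r, (A, r) ∈ rulT →
    ∀ w, (∀ s ∈ r, w ∈ cat κ solT s) → w ∈ solT A := by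
  intro A r hr w hw
  rcases rulT_cases hr with ⟨rfl, rfl⟩ | hr | hr
  · obtain ⟨u, hu, v, hv, rfl⟩ := cat2.1 (hw _ List.mem_cons_self)
    exact Language.mem_mul.2 ⟨u, hu, v, hv, rfl⟩
  · exact rul_closed (a := (1 : Fin 5)) (c := 3) (d := 4) (X := solT) (fun w => Iff.rfl)
      (fun w => Iff.rfl) (fun w => mem_univ w) A r hr w hw
  · exact rul_closed (a := (2 : Fin 5)) (c := 3) (d := 4) (X := solT) (fun w => Iff.rfl)
      (fun w => Iff.rfl) (fun w => mem_univ w) A r hr w hw

theorem solT_le {Y : Fin 5 → Language (Fin 3)}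
    (hY : ∀ (A : Fin 5) r, (A, r) ∈ rulT → ∀ w, (∀ s ∈ r, w ∈ cat κ Y s) → w ∈ Y A) :
    ∀ (A : Fin 5) w, w ∈ solT A → w ∈ Y A := by
  obtain ⟨h1, h2, h3⟩ := rul_le (a := (1 : Fin 5)) (c := 3) (d := 4) (x := 0) (Y := Y)
    (fun A r hr => hY A r (List.mem_cons_of_mem _ (List.mem_append_left _ hr)))
  obtain ⟨h1', -, -⟩ := rul_le (a := (2 : Fin 5)) (c := 3) (d := 4) (x := 1) (Y := Y)
    (fun A r hr => hY A r (List.mem_cons_of_mem _ (List.mem_append_right _ hr)))
  have h0 : ∀ w, w ∈ T → w ∈ Y 0 := by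
    intro w hw
    obtain ⟨u, hu, v, hv, rfl⟩ := Language.mem_mul.1 hw
    refine hY 0 [[Sym.var 1, Sym.var 2]] List.mem_cons_self _ (fun s hs => ?_)
    rw [List.mem_singleton] at hs
    rw [hs]
    exact cat2.2 ⟨u, h1 u hu, v, h1' v hv, rfl⟩
  intro A w hw
  fin_cases A
  · exact h0 w hw
  · exact h1 w hw
  · exact h1' w hw
  · exact h2 w hw
  · exact h3 w

theorem gen_T : Generates gramT (fun c : Empty => c.elim) T :=
  ⟨solT, isLeast_of solT_closed (fun _ hY => solT_le hY), rfl⟩

theorem rul_one {n : ℕ} {a c d : Fin n} {x : Fin 3} : ∀ p ∈ rul a c d x, p.2.length = 1 := by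
  intro p hp
  simp only [rul, List.mem_cons, List.not_mem_nil, or_false] at hp
  rcases hp with rfl | rfl | rfl | rfl | rfl | rfl | rfl | rfl <;> rfl

theorem gramK_cf (x : Fin 3) : ContextFree (gramK x) := fun A r hr => rul_one (A, r) hr

theorem gramT_cf : ContextFree gramT := by
  have key : ∀ (A : Fin 5) r, (A, r) ∈ rulT → r.length = 1 := by
    intro A r hr
    rcases rulT_cases hr with ⟨-, rfl⟩ | hr | hr
    · rfl
    · exact rul_one (A, r) hr
    · exact rul_one (A, r) hr
  exact key

theorem rul_linear {x : Fin 3} : ∀ (A : Fin 3) r, (A, r) ∈ rul (0 : Fin 3) 1 2 x → ∀ s ∈ r,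
    (∃ u : List (Fin 3), s = u.map Sym.letter) ∨ ∃ (u : List (Fin 3)) (B : Fin 3)
      (v : List (Fin 3)), s = u.map Sym.letter ++ Sym.var B :: v.map Sym.letter := by
  intro A r hr s hs
  simp only [rul, List.mem_cons, Prod.mk.injEq, List.not_mem_nil, or_false] at hr
  rcases hr with ⟨rfl, rfl⟩ | ⟨rfl, rfl⟩ | ⟨rfl, rfl⟩ | ⟨rfl, rfl⟩ | ⟨rfl, rfl⟩ | ⟨rfl, rfl⟩ |
    ⟨rfl, rfl⟩ | ⟨rfl, rfl⟩ <;> rw [List.mem_singleton] at hs <;> subst hs
  · exact Or.inr ⟨[x], 0, [x], rfl⟩
  · exact Or.inr ⟨[], 1, [], rfl⟩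
  · exact Or.inl ⟨[2], rfl⟩
  · exact Or.inr ⟨[2], 2, [2], rfl⟩
  · exact Or.inl ⟨[], rfl⟩
  · exact Or.inr ⟨[0], 2, [], rfl⟩
  · exact Or.inr ⟨[1], 2, [], rfl⟩
  · exact Or.inr ⟨[2], 2, [], rfl⟩

theorem gramK_lin (x : Fin 3) : Linear (gramK x) := rul_linear

end Grammars

/-! ## The main theorem -/

/-- **Context-free grammars over linear conjunctive languages are not closed under complement.**
`T` is the concatenation of two linear context-free languages over three letters, and it is
context-free. Its complement, and every language disjoint from `T` which contains the words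
`e^i code(S) # f^j` with `(i, j) ∉ S`, is not generated by a context-free grammar with constants each
of which is a linear conjunctive language or a language in which one of the three letters does not
occur. -/
theorem result :
    (∀ x : Fin 3, ∃ G : Grammar (Fin 3) Empty, ContextFree G ∧ Linear G ∧
      Generates G (fun c => c.elim) (K x)) ∧
    T = K 0 * K 1 ∧
    (∃ G : Grammar (Fin 3) Empty, ContextFree G ∧ Generates G (fun c => c.elim) T) ∧
    (∀ (ι : Type) (κ : ι → Language (Fin 3)) (G : Grammar (Fin 3) ι),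
      (∀ c, IsLinearConjunctive (κ c) ∨ ∃ x : Fin 3, ∀ w ∈ κ c, x ∉ w) → ContextFree G →
      ¬ Generates G κ Tᶜ) ∧
    ∀ (ι : Type) (κ : ι → Language (Fin 3)) (G : Grammar (Fin 3) ι) (L : Language (Fin 3)),
      (∀ c, IsLinearConjunctive (κ c) ∨ ∃ x : Fin 3, ∀ w ∈ κ c, x ∉ w) → ContextFree G →
      (∀ w ∈ L, w ∉ T) →
      (∀ i j S, 0 < i → 0 < j → (i, j) ∉ S → word i S j ∈ L) → ¬ Generates G κ L := by
  have main : ∀ (ι : Type) (κ : ι → Language (Fin 3)) (G : Grammar (Fin 3) ι)
      (L : Language (Fin 3)),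
      (∀ c, IsLinearConjunctive (κ c) ∨ ∃ x : Fin 3, ∀ w ∈ κ c, x ∉ w) → ContextFree G →
      (∀ w ∈ L, w ∉ T) →
      (∀ i j S, 0 < i → 0 < j → (i, j) ∉ S → word i S j ∈ L) → ¬ Generates G κ L := by
    rintro ι κ G L hκ hG h1 h2 ⟨X, hX, rfl⟩
    exact core hG hκ hX h1 h2
  refine ⟨fun x => ⟨gramK x, gramK_cf x, gramK_lin x, gen_K x⟩, rfl, ⟨gramT, gramT_cf, gen_T⟩,
    ?_, main⟩
  intro ι κ G hκ hG
  exact main ι κ G _ hκ hG (fun w hw => hw) (fun i j S _ _ hS => word_notMem hS)

end Pool.Agent.Results.MP_86a971_lc.LinearConcatenation
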