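import Mathlib

/-!
# Conjunctive grammars over a one-letter alphabet: dual concatenation

Let `g : ℕ → ℕ` tend to infinity. For all `K = {a^n : n ∈ P}` and `L = {a^n : n ∈ Q}` with `(P, Q)` outside
a meagre set the complement of `K L` is not generated by a conjunctive grammar over the alphabet `{a}`
with the following constants: the complement of `K`, and countably many languages `Φ_c(K, L)`, for
which the membership of `a^n` depends only on `P` below `n - g(n)` and on `Q` up to `n`.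

Idea: in a window `[H, H + W)`, `W ≤ H`, a conjunct has exactly one factor longer than `H`. Let only the
part `E ⊆ V` of `P` in the window vary, and let `UU A n` be the set of `k ∈ V` for which `a^n` is not derived
from `A` when `E = {k}`. If `a^n` is derived from `A` for `E = V \ F m`, where `F m` is the set of the
`k` which are forbidden by the target `m`, then `UU A n ⊆ F m`. The sets `F m` have `t` elements and two of
them have at most one common element, so a fact `(A, n)` with at least two elements in `UU A n` is used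
by at most one target. Every target needs `t / D₀` such facts, and there are only `G.k` at every length.
-/

set_option autoImplicit false

namespace Pool.Agent.Results.MP_86a971_lc.UnaryDualConcatenation

open Set Filter Topology

/-- The symbols which may occur in a rule: a letter of the alphabet `α`, a nonterminal (the
nonterminals are `0, …, k - 1`), or a name `c : ι` of a constant language. -/
inductive Sym (α : Type) (k : ℕ) (ι : Type) : Type
  | letter (x : α) : Sym α k ι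
  | var (A : Fin k) : Sym α k ι
  | const (c : ι) : Sym α k ι

/-- A conjunctive grammar over the alphabet `α` whose rules may contain names `c : ι` of constant
languages. The pair `(A, [α₁, …, αₘ])` is the rule `A → α₁ & … & αₘ`. -/
structure Grammar (α ι : Type) : Type where
  /-- the nonterminals are `0, …, k - 1` -/
  k : ℕ
  /-- the rules -/
  rules : List (Fin k × List (List (Sym α k ι)))
  /-- the initial nonterminal -/
  start : Fin k

section Semantics

variable {α ι : Type} {k : ℕ}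

/-- The language denoted by a symbol, when the nonterminals denote the languages `X` and the
constants denote the languages `κ`. -/
def val (κ : ι → Language α) (X : Fin k → Language α) : Sym α k ι → Language α
  | Sym.letter x => {[x]}
  | Sym.var A => X A
  | Sym.const c => κ c

/-- The language denoted by a string of symbols (concatenation). -/
def cat (κ : ι → Language α) (X : Fin k → Language α) (s : List (Sym α k ι)) : Language α :=
  (s.map (val κ X)).prod

/-- `X` solves the system `A = ⋃_{A → α₁ & … & αₘ} ⋂_i αᵢ` of the grammar. -/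
def IsSolution (G : Grammar α ι) (κ : ι → Language α) (X : Fin G.k → Language α) : Prop :=
  ∀ A w, w ∈ X A ↔ ∃ r, (A, r) ∈ G.rules ∧ ∀ s ∈ r, w ∈ cat κ X s

/-- The grammar generates `T` if `T` is the component of the initial nonterminal in the least
solution. -/
def Generates (G : Grammar α ι) (κ : ι → Language α) (T : Language α) : Prop :=
  ∃ X, IsLeast {X | IsSolution G κ X} X ∧ X G.start = T

theorem mem_cat_nil {κ : ι → Language α} {X : Fin k → Language α} {w : List α} :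
    w ∈ cat κ X [] ↔ w = [] := by
  simp [cat, Language.mem_one]

theorem mem_cat_cons {κ : ι → Language α} {X : Fin k → Language α} {σ : Sym α k ι}
    {s : List (Sym α k ι)} {w : List α} :
    w ∈ cat κ X (σ :: s) ↔ ∃ u ∈ val κ X σ, ∃ v ∈ cat κ X s, u ++ v = w := by
  simp [cat, Language.mem_mul]

/-- Transfer on a set of words closed under prefixes and suffixes. -/
theorem cat_on {D : Set (List α)} (hD : ∀ u v, u ++ v ∈ D → u ∈ D ∧ v ∈ D)
    {κ κ' : ι → Language α} {X X' : Fin k → Language α}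
    (hκ : ∀ c, ∀ w ∈ D, w ∈ κ c → w ∈ κ' c) (hX : ∀ A, ∀ w ∈ D, w ∈ X A → w ∈ X' A)
    (s : List (Sym α k ι)) : ∀ w ∈ D, w ∈ cat κ X s → w ∈ cat κ' X' s := by
  induction s with
  | nil =>
    intro w _ hw
    rw [mem_cat_nil] at hw ⊢
    exact hw
  | cons σ s ih =>
    intro w hw h
    rw [mem_cat_cons] at h ⊢
    obtain ⟨u, hu, v, hv, rfl⟩ := h
    obtain ⟨h1, h2⟩ := hD u v hw
    refine ⟨u, ?_, v, ih v h2 hv, rfl⟩
    cases σ with
    | letter x => exact hu
    | var A => exact hX A u h1 hu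
    | const c => exact hκ c u h1 hu

theorem cat_mono {κ : ι → Language α} {X Y : Fin k → Language α} (h : X ≤ Y)
    (s : List (Sym α k ι)) : cat κ X s ≤ cat κ Y s := by
  intro w hw
  exact cat_on (D := univ) (fun _ _ _ => ⟨trivial, trivial⟩) (fun _ _ _ h => h)
    (fun A w _ hw => h A hw) s w trivial hw

/-- The monotone operator of the system. -/
def op (G : Grammar α ι) (κ : ι → Language α) :
    (Fin G.k → Language α) →o (Fin G.k → Language α) where
  toFun X := fun A => {w | ∃ r, (A, r) ∈ G.rules ∧ ∀ s ∈ r, w ∈ cat κ X s}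
  monotone' := by
    intro X Y h A w hw
    obtain ⟨r, hr, hs⟩ := hw
    exact ⟨r, hr, fun s hs' => cat_mono h s (hs s hs')⟩

/-- The least solution. -/
noncomputable def sol (G : Grammar α ι) (κ : ι → Language α) : Fin G.k → Language α :=
  OrderHom.lfp (op G κ)

theorem isSolution_iff {G : Grammar α ι} {κ : ι → Language α} {X : Fin G.k → Language α} :
    IsSolution G κ X ↔ op G κ X = X := by
  constructor
  · intro h
    funext A
    ext w
    exact (h A w).symm
  · intro h A w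
    have h' : op G κ X A = X A := congrFun h A
    rw [← h']
    exact Iff.rfl

theorem isLeast_sol (G : Grammar α ι) (κ : ι → Language α) :
    IsLeast {X | IsSolution G κ X} (sol G κ) := by
  have h := OrderHom.isLeast_lfp (op G κ)
  constructor
  · exact isSolution_iff.2 h.1
  · intro X hX
    exact h.2 (isSolution_iff.1 hX)

theorem generates_iff {G : Grammar α ι} {κ : ι → Language α} {T : Language α} :
    Generates G κ T ↔ sol G κ G.start = T := by
  constructor
  · rintro ⟨X, hX, h⟩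
    rw [← h, (isLeast_sol G κ).unique hX]
  · intro h
    exact ⟨sol G κ, isLeast_sol G κ, h⟩

theorem mem_sol {G : Grammar α ι} {κ : ι → Language α} {A : Fin G.k} {w : List α} :
    w ∈ sol G κ A ↔ ∃ r, (A, r) ∈ G.rules ∧ ∀ s ∈ r, w ∈ cat κ (sol G κ) s :=
  (isLeast_sol G κ).1 A w

/-- Induction: a family closed under the rules contains the least solution. -/
theorem sol_le {G : Grammar α ι} {κ : ι → Language α} {Z : Fin G.k → Language α}
    (h : ∀ A r, (A, r) ∈ G.rules → ∀ w, (∀ s ∈ r, w ∈ cat κ Z s) → w ∈ Z A) : sol G κ ≤ Z := by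
  apply OrderHom.lfp_le
  intro A w hw
  obtain ⟨r, hr, hs⟩ := hw
  exact h A r hr w hs

/-- Locality: on a set of words closed under prefixes and suffixes the solution depends only on
the constants on this set. -/
theorem sol_on (G : Grammar α ι) {D : Set (List α)} (hD : ∀ u v, u ++ v ∈ D → u ∈ D ∧ v ∈ D)
    {κ κ' : ι → Language α} (hκ : ∀ c, ∀ w ∈ D, w ∈ κ c → w ∈ κ' c) :
    ∀ A, ∀ w ∈ D, w ∈ sol G κ A → w ∈ sol G κ' A := by
  have h : sol G κ ≤ fun A => ({w | w ∈ D → w ∈ sol G κ' A} : Language α) := by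
    apply sol_le
    intro A r hr w hw hwD
    rw [mem_sol]
    refine ⟨r, hr, fun s hs => ?_⟩
    exact cat_on hD hκ (X := fun A => ({w | w ∈ D → w ∈ sol G κ' A} : Language α))
      (fun B v hv (hv' : v ∈ D → v ∈ sol G κ' B) => hv' hv) s w hwD (hw s hs)
  intro A w hw h'
  exact h A h' hw

/-- The words which are derived in at most `h` steps. -/
def it (G : Grammar α ι) (κ : ι → Language α) : ℕ → (Fin G.k → Language α)
  | 0 => fun _ => ((∅ : Set (List α)) : Language α)
  | h + 1 => op G κ (it G κ h)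

theorem it_succ (G : Grammar α ι) (κ : ι → Language α) (h : ℕ) :
    it G κ h ≤ it G κ (h + 1) := by
  induction h with
  | zero =>
    intro A w hw
    exact absurd hw (Set.notMem_empty w)
  | succ h ih => exact (op G κ).monotone ih

theorem it_mono (G : Grammar α ι) (κ : ι → Language α) {h h' : ℕ} (hh : h ≤ h') :
    it G κ h ≤ it G κ h' := monotone_nat_of_le_succ (it_succ G κ) hh

theorem it_le_sol (G : Grammar α ι) (κ : ι → Language α) (h : ℕ) : it G κ h ≤ sol G κ := by
  induction h with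
  | zero =>
    intro A w hw
    exact absurd hw (Set.notMem_empty w)
  | succ h ih =>
    have h1 : op G κ (sol G κ) = sol G κ := OrderHom.map_lfp (op G κ)
    rw [← h1]
    exact (op G κ).monotone ih

/-- The words which are derived in finitely many steps. -/
def itU (G : Grammar α ι) (κ : ι → Language α) (A : Fin G.k) : Language α :=
  {w | ∃ h, w ∈ it G κ h A}

theorem cat_it (G : Grammar α ι) (κ : ι → Language α) (s : List (Sym α G.k ι)) :
    ∀ w, w ∈ cat κ (itU G κ) s → ∃ h, w ∈ cat κ (it G κ h) s := by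
  induction s with
  | nil =>
    intro w hw
    rw [mem_cat_nil] at hw
    exact ⟨0, mem_cat_nil.2 hw⟩
  | cons σ s ih =>
    intro w hw
    rw [mem_cat_cons] at hw
    obtain ⟨u, hu, v, hv, rfl⟩ := hw
    obtain ⟨h1, h1'⟩ := ih v hv
    have h2 : ∃ h, u ∈ val κ (it G κ h) σ := by
      cases σ with
      | letter x => exact ⟨0, hu⟩
      | var A => exact hu
      | const c => exact ⟨0, hu⟩
    obtain ⟨h2, h2'⟩ := h2
    refine ⟨max h1 h2, mem_cat_cons.2 ⟨u, ?_, v, cat_mono (it_mono G κ (le_max_left _ _)) s h1',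
      rfl⟩⟩
    cases σ with
    | letter x => exact h2'
    | var A => exact it_mono G κ (le_max_right h1 h2) A h2'
    | const c => exact h2'

theorem sol_eq_it (G : Grammar α ι) (κ : ι → Language α) {A : Fin G.k} {w : List α}
    (h : w ∈ sol G κ A) : ∃ h, w ∈ it G κ h A := by
  have key : sol G κ ≤ itU G κ := by
    apply sol_le
    intro A r hr w hw
    have h1 : ∃ h, ∀ s ∈ r, w ∈ cat κ (it G κ h) s := by
      clear hr
      induction r with
      | nil => exact ⟨0, by simp⟩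
      | cons s r ih =>
        obtain ⟨h1, h1'⟩ := ih (fun s hs => hw s (List.mem_cons_of_mem _ hs))
        obtain ⟨h2, h2'⟩ := cat_it G κ s w (hw s List.mem_cons_self)
        refine ⟨max h1 h2, ?_⟩
        intro s' hs'
        rcases List.mem_cons.1 hs' with rfl | hs'
        · exact cat_mono (it_mono G κ (le_max_right h1 h2)) _ h2'
        · exact cat_mono (it_mono G κ (le_max_left h1 h2)) _ (h1' s' hs')
    obtain ⟨h, hh⟩ := h1
    exact ⟨h + 1, r, hr, hh⟩
  exact key A h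

end Semantics

/-! ## Words over one letter -/

/-- the word `a^n` -/
abbrev W (n : ℕ) : List Unit := List.replicate n ()

theorem eq_W (w : List Unit) : w = W w.length :=
  List.eq_replicate_iff.2 ⟨rfl, fun _ _ => rfl⟩

theorem W_add (i j : ℕ) : W i ++ W j = W (i + j) := List.replicate_append_replicate

theorem W_inj {i j : ℕ} (h : W i = W j) : i = j := by
  have := congrArg List.length h
  simpa using this

section Unary

variable {ι : Type} {k : ℕ}

theorem W_mem_cons {κ : ι → Language Unit} {X : Fin k → Language Unit} {σ : Sym Unit k ι}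
    {s : List (Sym Unit k ι)} {n : ℕ} :
    W n ∈ cat κ X (σ :: s) ↔ ∃ i j, i + j = n ∧ W i ∈ val κ X σ ∧ W j ∈ cat κ X s := by
  rw [mem_cat_cons]
  constructor
  · rintro ⟨u, hu, v, hv, h⟩
    rw [eq_W u] at hu h
    rw [eq_W v] at hv h
    rw [W_add] at h
    exact ⟨u.length, v.length, W_inj h, hu, hv⟩
  · rintro ⟨i, j, rfl, hi, hj⟩
    exact ⟨W i, hi, W j, hj, W_add i j⟩

/-- `κ`, `X` are contained in `κ'`, `X'` below the length `H`. -/
def Low (H : ℕ) (κ κ' : ι → Language Unit) (X X' : Fin k → Language Unit) : Prop :=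
  (∀ c, ∀ j < H, W j ∈ κ c → W j ∈ κ' c) ∧ ∀ A, ∀ j < H, W j ∈ X A → W j ∈ X' A

theorem low_cat {H : ℕ} {κ κ' : ι → Language Unit} {X X' : Fin k → Language Unit}
    (hl : Low H κ κ' X X') {n : ℕ} (hn : n < H) {s : List (Sym Unit k ι)}
    (h : W n ∈ cat κ X s) : W n ∈ cat κ' X' s := by
  refine cat_on (D := {w | w.length < H}) ?_ ?_ ?_ s (W n) ?_ h
  · intro u v huv
    simp only [mem_ofPred_eq, List.length_append] at huv ⊢
    omega
  · intro c w hw h
    rw [eq_W w] at h ⊢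
    exact hl.1 c _ hw h
  · intro A w hw h
    rw [eq_W w] at h ⊢
    exact hl.2 A _ hw h
  · simpa using hn

theorem low_val {H : ℕ} {κ κ' : ι → Language Unit} {X X' : Fin k → Language Unit}
    (hl : Low H κ κ' X X') {n : ℕ} (hn : n < H) {σ : Sym Unit k ι}
    (h : W n ∈ val κ X σ) : W n ∈ val κ' X' σ := by
  cases σ with
  | letter x => exact h
  | var A => exact hl.2 A n hn h
  | const c => exact hl.1 c n hn h

/-- In a window `[H, 2 H)` every concatenation has at most one long factor. -/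
theorem window {H : ℕ} {κ : ι → Language Unit} {X : Fin k → Language Unit}
    (s : List (Sym Unit k ι)) : ∀ n < 2 * H, W n ∈ cat κ X s →
      (∀ κ' X', Low H κ κ' X X' → W n ∈ cat κ' X' s) ∨
      ∃ σ ∈ s, ∃ j, H ≤ j ∧ j ≤ n ∧ W j ∈ val κ X σ ∧
        ∀ κ' X', Low H κ κ' X X' → W j ∈ val κ' X' σ → W n ∈ cat κ' X' s := by
  induction s with
  | nil =>
    intro n _ h
    rw [mem_cat_nil] at h
    left
    intro κ' X' _
    rw [mem_cat_nil]
    exact h
  | cons σ s ih =>
    intro n hn h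
    rw [W_mem_cons] at h
    obtain ⟨i, j, hij, hi, hj⟩ := h
    by_cases hiH : H ≤ i
    · right
      refine ⟨σ, List.mem_cons_self, i, hiH, by omega, hi, fun κ' X' hl h' => ?_⟩
      rw [W_mem_cons]
      exact ⟨i, j, hij, h', low_cat hl (by omega) hj⟩
    · rcases ih j (by omega) hj with h1 | ⟨τ, hτ, l, h1, h2, h3, h4⟩
      · left
        intro κ' X' hl
        rw [W_mem_cons]
        exact ⟨i, j, hij, low_val hl (by omega) hi, h1 κ' X' hl⟩
      · right
        refine ⟨τ, List.mem_cons_of_mem _ hτ, l, h1, by omega, h3, fun κ' X' hl h' => ?_⟩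
        rw [W_mem_cons]
        exact ⟨i, j, hij, low_val hl (by omega) hi, h4 κ' X' hl h'⟩

end Unary

/-! ## Counting private facts -/

section Core

variable {ι : Type} (G : Grammar Unit ι) (κ : Finset ℕ → ι → Language Unit) (V : Finset ℕ)

open scoped Classical in
/-- The elements `k` of `V` such that `a^n` is not derived from `A` when the variable part of the
constants is `{k}`. -/
noncomputable def UU (A : Fin G.k) (n : ℕ) : Finset ℕ :=
  V.filter fun k => ¬ W n ∈ sol G (κ {k}) A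

theorem mem_UU {A : Fin G.k} {n k : ℕ} :
    k ∈ UU G κ V A n ↔ k ∈ V ∧ W n ∉ sol G (κ {k}) A := by
  classical
  unfold UU
  rw [Finset.mem_filter]

/-- a bound for the number of conjuncts -/
def D0 : ℕ := (G.rules.map fun p => p.2.length).sum

theorem le_D0 {A : Fin G.k} {r : List (List (Sym Unit G.k ι))} (h : (A, r) ∈ G.rules) :
    r.length ≤ D0 G := by
  unfold D0
  exact List.le_sum_of_mem (List.mem_map.2 ⟨(A, r), h, rfl⟩)

variable {H L' : ℕ} (hH : 2 ≤ H) (hL' : L' ≤ H)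
  (k2 : ∀ E E', E ⊆ V → E' ⊆ V → ∀ c, ∀ j < H, W j ∈ κ E c → W j ∈ κ E' c)
  (k3 : ∀ E k j c, E ⊆ V → k ∈ V → k ≠ j → j < H + L' → W j ∈ κ E c → W j ∈ κ {k} c)

include k2

theorem low_it {E : Finset ℕ} (hE : E ⊆ V) {k : ℕ} (hk : k ∈ V) (h : ℕ) :
    Low H (κ E) (κ {k}) (it G (κ E) h) (sol G (κ {k})) := by
  have hk' : ({k} : Finset ℕ) ⊆ V := Finset.singleton_subset_iff.2 hk
  refine ⟨fun c j hj h => k2 E {k} hE hk' c j hj h, fun A j hj h1 => ?_⟩
  refine sol_on G (D := {w | w.length < H}) ?_ ?_ A (W j) ?_ (it_le_sol G (κ E) h A h1)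
  · intro u v huv
    simp only [mem_ofPred_eq, List.length_append] at huv ⊢
    omega
  · intro c w hw h
    rw [eq_W w] at h ⊢
    exact k2 E {k} hE hk' c _ hw h
  · simpa using hj

include hH hL' k3

theorem rule_list {E : Finset ℕ} (hE : E ⊆ V) {h n : ℕ} (hn : n < H + L')
    (r : List (List (Sym Unit G.k ι))) (hr : ∀ s ∈ r, W n ∈ cat (κ E) (it G (κ E) h) s) :
    ∃ L : Finset ℕ, L.card ≤ r.length ∧ ∀ k ∈ V,
      (∃ s ∈ r, W n ∉ cat (κ {k}) (sol G (κ {k})) s) → k ∈ L ∨
        ∃ B j, H ≤ j ∧ j ≤ n ∧ W j ∈ it G (κ E) h B ∧ k ∈ UU G κ V B j ∧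
          2 ≤ (UU G κ V B j).card := by
  classical
  induction r with
  | nil => exact ⟨∅, by simp, by simp⟩
  | cons s r ih =>
    obtain ⟨L, hL, hLL⟩ := ih fun s hs => hr s (List.mem_cons_of_mem _ hs)
    rcases window s n (show n < 2 * H by omega) (hr s List.mem_cons_self) with h1 | ⟨σ, hσ, j, h1, h2, h3, h4⟩
    · refine ⟨L, by simp; omega, ?_⟩
      rintro k hk ⟨s', hs', h5⟩
      rcases List.mem_cons.1 hs' with rfl | hs'
      · exact absurd (h1 _ _ (low_it G κ V k2 hE hk h)) h5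
      · exact hLL k hk ⟨s', hs', h5⟩
    · cases σ with
      | letter x =>
        have h5 : W j = [x] := h3
        have := congrArg List.length h5
        simp at this
        omega
      | const c =>
        refine ⟨insert j L, ?_, ?_⟩
        · have := Finset.card_insert_le j L
          simp only [List.length_cons]
          omega
        · rintro k hk ⟨s', hs', h5⟩
          rcases List.mem_cons.1 hs' with rfl | hs'
          · left
            by_cases hkj : k = j
            · rw [hkj]; exact Finset.mem_insert_self _ _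
            · exact absurd (h4 _ _ (low_it G κ V k2 hE hk h)
                (k3 E k j c hE hk hkj (by omega) h3)) h5
          · rcases hLL k hk ⟨s', hs', h5⟩ with h6 | h6
            · left; exact Finset.mem_insert_of_mem h6
            · right; exact h6
      | var B =>
        by_cases hb : 2 ≤ (UU G κ V B j).card
        · refine ⟨L, by simp; omega, ?_⟩
          rintro k hk ⟨s', hs', h5⟩
          rcases List.mem_cons.1 hs' with rfl | hs'
          · right
            refine ⟨B, j, h1, h2, h3, ?_, hb⟩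
            rw [mem_UU]
            refine ⟨hk, fun h6 => h5 (h4 _ _ (low_it G κ V k2 hE hk h) h6)⟩
          · exact hLL k hk ⟨s', hs', h5⟩
        · refine ⟨UU G κ V B j ∪ L, ?_, ?_⟩
          · have := Finset.card_union_le (UU G κ V B j) L
            simp only [List.length_cons]
            omega
          · rintro k hk ⟨s', hs', h5⟩
            rcases List.mem_cons.1 hs' with rfl | hs'
            · left
              apply Finset.mem_union_left
              rw [mem_UU]
              refine ⟨hk, fun h6 => h5 (h4 _ _ (low_it G κ V k2 hE hk h) h6)⟩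
            · rcases hLL k hk ⟨s', hs', h5⟩ with h6 | h6
              · left; exact Finset.mem_union_right _ h6
              · right; exact h6

theorem rule_step {E : Finset ℕ} (hE : E ⊆ V) {h n : ℕ} (hn : n < H + L') {A : Fin G.k}
    (hA : W n ∈ it G (κ E) (h + 1) A) :
    ∃ L : Finset ℕ, L.card ≤ D0 G ∧ ∀ k ∈ UU G κ V A n, k ∈ L ∨
        ∃ B j, H ≤ j ∧ j ≤ n ∧ W j ∈ it G (κ E) h B ∧ k ∈ UU G κ V B j ∧
          2 ≤ (UU G κ V B j).card := by
  obtain ⟨r, hr, hs⟩ := hA
  obtain ⟨L, hL, hLL⟩ := rule_list G κ V hH hL' k2 k3 hE hn r hs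
  refine ⟨L, hL.trans (le_D0 G hr), fun k hk => hLL k ((mem_UU G κ V).1 hk).1 ?_⟩
  by_contra hc
  push Not at hc
  exact ((mem_UU G κ V).1 hk).2 (mem_sol.2 ⟨r, hr, hc⟩)

theorem leaf_exists {E : Finset ℕ} (hE : E ⊆ V) (x : Fin G.k × ℕ) :
    ∃ L : Finset ℕ, L.card ≤ D0 G ∧ (x.2 < H + L' → ∀ h, W x.2 ∈ it G (κ E) h x.1 →
      ∀ k ∈ UU G κ V x.1 x.2, k ∈ L ∨
        ∃ h' < h, ∃ B j, H ≤ j ∧ j ≤ x.2 ∧ W j ∈ it G (κ E) h' B ∧ k ∈ UU G κ V B j ∧
          2 ≤ (UU G κ V B j).card) := by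
  classical
  by_cases hx : x.2 < H + L' ∧ ∃ h, W x.2 ∈ it G (κ E) h x.1
  · obtain ⟨hx1, hx2⟩ := hx
    have h1 := Nat.find_spec hx2
    have h0 : Nat.find hx2 ≠ 0 := by
      intro h0
      rw [h0] at h1
      exact absurd h1 (Set.notMem_empty _)
    obtain ⟨h₀, hh₀⟩ := Nat.exists_eq_succ_of_ne_zero h0
    rw [hh₀] at h1
    obtain ⟨L, hL, hLL⟩ := rule_step G κ V hH hL' k2 k3 hE hx1 h1
    refine ⟨L, hL, fun _ h hh k hk => ?_⟩
    rcases hLL k hk with h2 | ⟨B, j, h3, h4, h5, h6, h7⟩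
    · left; exact h2
    · right
      have h8 : Nat.find hx2 ≤ h := Nat.find_min' hx2 hh
      exact ⟨h₀, by omega, B, j, h3, h4, h5, h6, h7⟩
  · refine ⟨∅, by simp, fun h1 h hh => ?_⟩
    exact absurd ⟨h1, h, hh⟩ hx

/-- The counting theorem. -/
theorem core {t : ℕ} (ht : 2 ≤ t) (M : Finset ℕ) (F : ℕ → Finset ℕ)
    (k1 : ∀ E E', E ⊆ E' → E' ⊆ V → ∀ c, ∀ j < H + L', W j ∈ κ E' c → W j ∈ κ E c)
    (hF : ∀ m ∈ M, (F m).card = t) (hFV : ∀ m ∈ M, F m ⊆ V)
    (hM : ∀ m ∈ M, H ≤ m ∧ m < H + L')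
    (hpriv : ∀ m ∈ M, ∀ m' ∈ M, m ≠ m' → (F m ∩ F m').card ≤ 1)
    (hall : ∀ m ∈ M, ∀ E ⊆ V, (W m ∈ sol G (κ E) G.start ↔ Disjoint (F m) E)) :
    M.card * t ≤ D0 G * (G.k * L') := by
  classical
  -- the inputs
  let E : ℕ → Finset ℕ := fun m => V \ F m
  have hE : ∀ m, E m ⊆ V := fun m => Finset.sdiff_subset
  -- the big facts
  let big : ℕ → Finset (Fin G.k × ℕ) := fun m =>
    (Finset.univ ×ˢ Finset.Ico H (H + L')).filter fun x =>
      W x.2 ∈ sol G (κ (E m)) x.1 ∧ 2 ≤ (UU G κ V x.1 x.2).card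
  have hpr : ∀ m, ∀ A n, n < H + L' → W n ∈ sol G (κ (E m)) A → UU G κ V A n ⊆ F m := by
    intro m A n hnL hn k hk
    rw [mem_UU] at hk
    by_contra hc
    apply hk.2
    have h1 : ({k} : Finset ℕ) ⊆ E m :=
      Finset.singleton_subset_iff.2 (Finset.mem_sdiff.2 ⟨hk.1, hc⟩)
    have h2 := k1 {k} (E m) h1 (hE m)
    refine sol_on G (D := {w | w.length < H + L'}) ?_ ?_ A (W n) ?_ hn
    · intro u v huv
      simp only [mem_ofPred_eq, List.length_append] at huv ⊢
      omega
    · intro c w hw h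
      rw [eq_W w] at h ⊢
      exact h2 c _ hw h
    · simpa using hnL
  have hdisj : ∀ m ∈ M, ∀ m' ∈ M, m ≠ m' → Disjoint (big m) (big m') := by
    intro m hm m' hm' hne
    rw [Finset.disjoint_left]
    intro x h1 h2
    have h0 := (Finset.mem_filter.1 h1).1
    rw [Finset.mem_product, Finset.mem_Ico] at h0
    have h1' := (Finset.mem_filter.1 h1).2
    have h2' := (Finset.mem_filter.1 h2).2
    have h3 : UU G κ V x.1 x.2 ⊆ F m ∩ F m' :=
      Finset.subset_inter (hpr m _ _ h0.2.2 h1'.1) (hpr m' _ _ h0.2.2 h2'.1)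
    have h4 := Finset.card_le_card h3
    have h5 := hpriv m hm m' hm' hne
    omega
  have hcount : ∀ m ∈ M, t ≤ D0 G * (big m).card := by
    intro m hm
    choose leaf hleaf1 hleaf2 using leaf_exists G κ V hH hL' k2 k3 (hE m)
    have key : ∀ h, ∀ A n, n < H + L' → H ≤ n → W n ∈ it G (κ (E m)) h A →
        2 ≤ (UU G κ V A n).card → UU G κ V A n ⊆ (big m).biUnion leaf := by
      intro h
      induction h using Nat.strong_induction_on with
      | _ h ih =>
        intro A n hn hn' hA hU k hk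
        have hmem : (A, n) ∈ big m := by
          rw [Finset.mem_filter]
          refine ⟨?_, it_le_sol G (κ (E m)) h A hA, hU⟩
          rw [Finset.mem_product]
          exact ⟨Finset.mem_univ _, Finset.mem_Ico.2 ⟨hn', hn⟩⟩
        rcases hleaf2 (A, n) (by simp only; omega) h hA k hk with h1 | ⟨h', hh', B, j, h2, h3, h4, h5, h6⟩
        · exact Finset.mem_biUnion.2 ⟨(A, n), hmem, h1⟩
        · simp only at h3
          exact ih h' hh' B j (by omega) h2 h4 h6 h5
    have hU : UU G κ V G.start m = F m := by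
      ext k
      rw [mem_UU]
      constructor
      · rintro ⟨h1, h2⟩
        rw [hall m hm {k} (Finset.singleton_subset_iff.2 h1)] at h2
        rw [Finset.disjoint_singleton_right] at h2
        exact not_not.1 h2
      · intro h
        have h1 := hFV m hm h
        refine ⟨h1, ?_⟩
        rw [hall m hm {k} (Finset.singleton_subset_iff.2 h1)]
        rw [Finset.disjoint_singleton_right]
        exact not_not.2 h
    have hS : W m ∈ sol G (κ (E m)) G.start := by
      rw [hall m hm (E m) (hE m)]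
      exact Finset.disjoint_sdiff
    obtain ⟨h, hh⟩ := sol_eq_it G _ hS
    have h1 := key h G.start m (hM m hm).2 (hM m hm).1 hh (by rw [hU, hF m hm]; exact ht)
    rw [hU] at h1
    have h2 := Finset.card_le_card h1
    rw [hF m hm] at h2
    have h3 : ((big m).biUnion leaf).card ≤ (big m).card * D0 G :=
      Finset.card_biUnion_le_card_mul _ _ _ (fun x _ => hleaf1 x)
    rw [mul_comm]
    exact h2.trans h3
  have hsum : ∑ m ∈ M, (big m).card ≤ G.k * L' := by
    rw [← Finset.card_biUnion hdisj]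
    have h1 : M.biUnion big ⊆ (Finset.univ : Finset (Fin G.k)) ×ˢ Finset.Ico H (H + L') := by
      intro x hx
      obtain ⟨m, _, hx⟩ := Finset.mem_biUnion.1 hx
      exact (Finset.mem_filter.1 hx).1
    have h2 := Finset.card_le_card h1
    rw [Finset.card_product, Finset.card_univ, Fintype.card_fin, Nat.card_Ico] at h2
    have h3 : H + L' - H = L' := by omega
    rw [h3] at h2
    exact h2
  calc M.card * t = ∑ _m ∈ M, t := by rw [Finset.sum_const, smul_eq_mul]
    _ ≤ ∑ m ∈ M, D0 G * (big m).card := Finset.sum_le_sum hcount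
    _ = D0 G * ∑ m ∈ M, (big m).card := by rw [Finset.mul_sum]
    _ ≤ D0 G * (G.k * L') := Nat.mul_le_mul_left _ hsum

end Core

/-! ## The languages -/

/-- the language `{a^n : n ∈ P}` -/
def un (P : ℕ → Bool) : Language Unit := {w | P w.length = true}

theorem mem_un {P : ℕ → Bool} {w : List Unit} : w ∈ un P ↔ P w.length = true := Iff.rfl

theorem W_mem_un {P : ℕ → Bool} {n : ℕ} : W n ∈ un P ↔ P n = true := by
  rw [mem_un, List.length_replicate]

theorem W_mem_mul {P Q : ℕ → Bool} {n : ℕ} :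
    W n ∈ un P * un Q ↔ ∃ i j, i + j = n ∧ P i = true ∧ Q j = true := by
  rw [Language.mem_mul]
  constructor
  · rintro ⟨u, hu, v, hv, h⟩
    refine ⟨u.length, v.length, ?_, hu, hv⟩
    have := congrArg List.length h
    simpa using this
  · rintro ⟨i, j, rfl, hi, hj⟩
    exact ⟨W i, W_mem_un.2 hi, W j, W_mem_un.2 hj, W_add i j⟩

/-- the set which is `p` below `m₀` and `Z` from `m₀` on -/
def PP (p : ℕ → Bool) (m₀ : ℕ) (Z : Finset ℕ) : ℕ → Bool := fun i =>
  if i < m₀ then p i else decide (i ∈ Z)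

theorem PP_low {p : ℕ → Bool} {m₀ : ℕ} {Z : Finset ℕ} {i : ℕ} (h : i < m₀) :
    PP p m₀ Z i = p i := by
  unfold PP
  rw [if_pos h]

theorem PP_high {p : ℕ → Bool} {m₀ : ℕ} {Z : Finset ℕ} {i : ℕ} (h : m₀ ≤ i) :
    PP p m₀ Z i = true ↔ i ∈ Z := by
  unfold PP
  rw [if_neg (by omega)]
  simp

theorem PP_cases {p : ℕ → Bool} {m₀ : ℕ} {Z : Finset ℕ} {i : ℕ} (h : PP p m₀ Z i = true) :
    i < m₀ ∨ i ∈ Z := by
  by_cases h' : i < m₀
  · exact Or.inl h'
  · exact Or.inr ((PP_high (by omega)).1 h)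

/-! ## The combinatorial configuration -/

section Conf

variable (m₀ t R a : ℕ)

/-- the shifts -/
def YY : Finset ℕ := (Finset.range t).image fun i => (m₀ + 1) * 2 ^ i + m₀

/-- the targets -/
def MM : Finset ℕ := (Finset.range R).image fun ν => (m₀ + 1) * (a + ν)

/-- the constraints of the target `m` -/
def FF (m : ℕ) : Finset ℕ := (YY m₀ t).image fun y => m - y

/-- the variable positions -/
def VV : Finset ℕ := (MM m₀ R a).biUnion (FF m₀ t)

variable {m₀ t R a}

theorem mem_YY {y : ℕ} (h : y ∈ YY m₀ t) :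
    ∃ i < t, y = (m₀ + 1) * 2 ^ i + m₀ ∧ (m₀ + 1) * 2 ^ i ≤ (m₀ + 1) * 2 ^ t := by
  unfold YY at h
  obtain ⟨i, hi, rfl⟩ := Finset.mem_image.1 h
  rw [Finset.mem_range] at hi
  exact ⟨i, hi, rfl, Nat.mul_le_mul_left _ (Nat.pow_le_pow_right (by norm_num) hi.le)⟩

theorem two_pow_sidon {i j k l : ℕ} (h : 2 ^ i + 2 ^ j = 2 ^ k + 2 ^ l) : i = k ∨ i = l := by
  by_contra hc
  push Not at hc
  obtain ⟨h1, h2⟩ := hc
  have hpos : ∀ x : ℕ, 0 < 2 ^ x := fun x => by positivity
  have step : ∀ x y : ℕ, x < y → 2 * 2 ^ x ≤ 2 ^ y := by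
    intro x y hxy
    rw [← pow_succ']
    exact Nat.pow_le_pow_right (by norm_num) hxy
  have a1 := hpos i
  have a2 := hpos j
  have a3 := hpos k
  have a4 := hpos l
  rcases lt_or_gt_of_ne h1 with b1 | b1 <;> rcases lt_or_gt_of_ne h2 with b2 | b2
  · -- i < k, i < l
    have c1 := step _ _ b1
    have c2 := step _ _ b2
    have d1 : k < j := by
      by_contra hd
      have := Nat.pow_le_pow_right (show 0 < 2 by norm_num) (not_lt.1 hd)
      omega
    have d2 : l < j := by
      by_contra hd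
      have := Nat.pow_le_pow_right (show 0 < 2 by norm_num) (not_lt.1 hd)
      omega
    have e1 := step _ _ d1
    have e2 := step _ _ d2
    omega
  · -- i < k, l < i
    have c1 := step _ _ b1
    have c2 := step _ _ b2
    have d1 : j < k := by
      by_contra hd
      have := Nat.pow_le_pow_right (show 0 < 2 by norm_num) (not_lt.1 hd)
      omega
    have e1 := step _ _ d1
    omega
  · -- k < i, i < l
    have c1 := step _ _ b1
    have c2 := step _ _ b2
    have d1 : j < l := by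
      by_contra hd
      have := Nat.pow_le_pow_right (show 0 < 2 by norm_num) (not_lt.1 hd)
      omega
    have e1 := step _ _ d1
    omega
  · -- k < i, l < i
    have c1 := step _ _ b1
    have c2 := step _ _ b2
    omega

theorem YY_inj {i j : ℕ} (h : (m₀ + 1) * 2 ^ i + m₀ = (m₀ + 1) * 2 ^ j + m₀) : i = j := by
  have h1 : (m₀ + 1) * 2 ^ i = (m₀ + 1) * 2 ^ j := by omega
  have h2 : 2 ^ i = 2 ^ j := Nat.eq_of_mul_eq_mul_left (by omega) h1
  exact Nat.pow_right_injective le_rfl h2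

theorem card_YY : (YY m₀ t).card = t := by
  unfold YY
  rw [Finset.card_image_of_injective _ (fun i j h => YY_inj h), Finset.card_range]

theorem card_MM : (MM m₀ R a).card = R := by
  unfold MM
  rw [Finset.card_image_of_injective, Finset.card_range]
  intro i j h
  have h2 : a + i = a + j := Nat.eq_of_mul_eq_mul_left (by omega) h
  omega

theorem mem_MM {m : ℕ} (h : m ∈ MM m₀ R a) :
    ∃ ν < R, m = (m₀ + 1) * (a + ν) ∧ (m₀ + 1) * a ≤ m ∧ m < (m₀ + 1) * (a + R) := by
  unfold MM at h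
  obtain ⟨ν, hν, rfl⟩ := Finset.mem_image.1 h
  rw [Finset.mem_range] at hν
  refine ⟨ν, hν, rfl, Nat.mul_le_mul_left _ (by omega), ?_⟩
  exact Nat.mul_lt_mul_of_pos_left (by omega) (by omega)

/-- the size of the parameters -/
structure Par (m₀ t R a : ℕ) : Prop where
  /-- `a` is large -/
  ha : R + 3 * 2 ^ t + 3 * m₀ + 3 ≤ a
  /-- `R` is large -/
  hR : R = 2 ^ t + m₀ + 1

/-- lower end of the window -/
def HH (m₀ t a : ℕ) : ℕ := (m₀ + 1) * a - (m₀ + 1) * 2 ^ t - m₀

/-- length of the window -/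
def LL (m₀ t R : ℕ) : ℕ := (m₀ + 1) * (R + 2 ^ t) + m₀

theorem par_ineq (hp : Par m₀ t R a) :
    (m₀ + 1) * 2 ^ t + m₀ ≤ (m₀ + 1) * a ∧ LL m₀ t R ≤ HH m₀ t a ∧
      2 * ((m₀ + 1) * 2 ^ t + m₀) < HH m₀ t a ∧ 2 ≤ HH m₀ t a ∧ m₀ ≤ HH m₀ t a ∧
      HH m₀ t a + LL m₀ t R = (m₀ + 1) * (a + R) ∧ LL m₀ t R ≤ 2 * ((m₀ + 1) * R) := by
  obtain ⟨ha, hR⟩ := hp
  unfold HH LL
  have e1 : (m₀ + 1) * R + 3 * ((m₀ + 1) * 2 ^ t) + 3 * ((m₀ + 1) * m₀) +
      3 * (m₀ + 1) ≤ (m₀ + 1) * a := by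
    refine le_trans (le_of_eq ?_) (Nat.mul_le_mul_left (m₀ + 1) ha)
    ring
  have e2 : (m₀ + 1) * (R + 2 ^ t) = (m₀ + 1) * R + (m₀ + 1) * 2 ^ t := by ring
  have e3 : (m₀ + 1) * (a + R) = (m₀ + 1) * a + (m₀ + 1) * R := by ring
  have e4 : (m₀ + 1) * R = (m₀ + 1) * 2 ^ t + (m₀ + 1) * m₀ + (m₀ + 1) := by rw [hR]; ring
  have e5 : 0 ≤ (m₀ + 1) * m₀ := Nat.zero_le _
  refine ⟨by omega, by omega, by omega, by omega, by omega, by omega, by omega⟩

theorem mem_FF {m k : ℕ} (h : k ∈ FF m₀ t m) :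
    ∃ i < t, k = m - ((m₀ + 1) * 2 ^ i + m₀) ∧ (m₀ + 1) * 2 ^ i ≤ (m₀ + 1) * 2 ^ t := by
  unfold FF at h
  obtain ⟨y, hy, rfl⟩ := Finset.mem_image.1 h
  obtain ⟨i, hi, rfl, h1⟩ := mem_YY hy
  exact ⟨i, hi, rfl, h1⟩

theorem mem_VV (hp : Par m₀ t R a) {k : ℕ} (h : k ∈ VV m₀ t R a) :
    ∃ X i, i < t ∧ k + ((m₀ + 1) * 2 ^ i + m₀) = (m₀ + 1) * X ∧ HH m₀ t a ≤ k := by
  obtain ⟨h1, h2, h3, h4, h5, h6, h7⟩ := par_ineq hp
  unfold VV at h
  obtain ⟨m, hm, hk⟩ := Finset.mem_biUnion.1 h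
  obtain ⟨ν, hν, rfl, h8, h9⟩ := mem_MM hm
  obtain ⟨i, hi, rfl, h10⟩ := mem_FF hk
  unfold HH at *
  refine ⟨a + ν, i, hi, by omega, by omega⟩

theorem card_FF (hp : Par m₀ t R a) {m : ℕ} (hm : m ∈ MM m₀ R a) : (FF m₀ t m).card = t := by
  obtain ⟨h1, h2, h3, h4, h5, h6, h7⟩ := par_ineq hp
  obtain ⟨ν, hν, rfl, h8, h9⟩ := mem_MM hm
  unfold FF
  rw [Finset.card_image_of_injOn, card_YY]
  intro y hy y' hy' h
  obtain ⟨i, hi, rfl, h10⟩ := mem_YY (Finset.mem_coe.1 hy)
  obtain ⟨j, hj, rfl, h11⟩ := mem_YY (Finset.mem_coe.1 hy')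
  simp only at h ⊢
  omega

theorem priv (hp : Par m₀ t R a) {m m' : ℕ} (hm : m ∈ MM m₀ R a) (hm' : m' ∈ MM m₀ R a)
    (hne : m ≠ m') : (FF m₀ t m ∩ FF m₀ t m').card ≤ 1 := by
  obtain ⟨h1, h2, h3, h4, h5, h6, h7⟩ := par_ineq hp
  obtain ⟨ν, hν, rfl, h8, h9⟩ := mem_MM hm
  obtain ⟨ν', hν', rfl, h8', h9'⟩ := mem_MM hm'
  rw [Finset.card_le_one]
  intro k hk k' hk'
  rw [Finset.mem_inter] at hk hk'
  obtain ⟨i, hi, e1, f1⟩ := mem_FF hk.1
  obtain ⟨j, hj, e2, f2⟩ := mem_FF hk.2
  obtain ⟨i', hi', e3, f3⟩ := mem_FF hk'.1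
  obtain ⟨j', hj', e4, f4⟩ := mem_FF hk'.2
  have h10 : (m₀ + 1) * 2 ^ i + (m₀ + 1) * 2 ^ j' = (m₀ + 1) * 2 ^ i' + (m₀ + 1) * 2 ^ j := by
    omega
  have h11 : (m₀ + 1) * (2 ^ i + 2 ^ j') = (m₀ + 1) * (2 ^ i' + 2 ^ j) := by
    rw [mul_add, mul_add]; exact h10
  have h12 : 2 ^ i + 2 ^ j' = 2 ^ i' + 2 ^ j := Nat.eq_of_mul_eq_mul_left (by omega) h11
  rcases two_pow_sidon h12 with h13 | h13
  · rw [e1, e3, h13]
  · exfalso
    rw [h13] at e1
    apply hne
    omega

theorem mod_arg {i X Y : ℕ} (hi : i < m₀) (h : (m₀ + 1) * X + m₀ = i + (m₀ + 1) * Y) :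
    False := by
  have h1 := congrArg (· % (m₀ + 1)) h
  simp only [Nat.mul_add_mod, Nat.add_mul_mod_self_left] at h1
  rw [Nat.mod_eq_of_lt (by omega), Nat.mod_eq_of_lt (by omega)] at h1
  omega

theorem HH_eq (hp : Par m₀ t R a) : HH m₀ t a + (m₀ + 1) * 2 ^ t + m₀ = (m₀ + 1) * a := by
  obtain ⟨h1, _⟩ := par_ineq hp
  unfold HH
  omega

theorem target (hp : Par m₀ t R a) (p q : ℕ → Bool) {m : ℕ} (hm : m ∈ MM m₀ R a)
    {E E₂ Y₁ : Finset ℕ} (hE : E ⊆ VV m₀ t R a) (hE₂ : E₂ ⊆ E) (hY₁ : Y₁ ⊆ YY m₀ t) :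
    (∃ i j, i + j = m ∧ PP p m₀ (Y₁ ∪ E) i = true ∧ PP q m₀ (YY m₀ t ∪ E₂) j = true) ↔
      ¬ Disjoint (FF m₀ t m) E := by
  obtain ⟨h1, h2, h3, h4, h5, h6, h7⟩ := par_ineq hp
  have h0 := HH_eq hp
  obtain ⟨ν, hν, rfl, h8, h9⟩ := mem_MM hm
  rw [Finset.not_disjoint_iff]
  constructor
  · rintro ⟨i, j, hij, hi, hj⟩
    have ci := PP_cases hi
    have cj := PP_cases hj
    rw [Finset.mem_union] at ci cj
    rcases ci with ci | ci | ci
    · rcases cj with cj | cj | cj
      · omega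
      · obtain ⟨l, hl, rfl, h10⟩ := mem_YY cj
        omega
      · obtain ⟨X, l, hl, e, h10⟩ := mem_VV hp (hE (hE₂ cj))
        exfalso
        refine mod_arg (m₀ := m₀) (i := i) (X := a + ν + 2 ^ l) (Y := X) ci ?_
        rw [← e, mul_add, ← hij]
        omega
    · obtain ⟨l, hl, rfl, h10⟩ := mem_YY (hY₁ ci)
      rcases cj with cj | cj | cj
      · omega
      · obtain ⟨l', hl', rfl, h10'⟩ := mem_YY cj
        omega
      · refine ⟨j, ?_, hE₂ cj⟩
        unfold FF
        rw [Finset.mem_image]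
        exact ⟨_, hY₁ ci, by omega⟩
    · obtain ⟨X, l, hl, e, h10⟩ := mem_VV hp (hE ci)
      rcases cj with cj | cj | cj
      · exfalso
        refine mod_arg (m₀ := m₀) (i := j) (X := a + ν + 2 ^ l) (Y := X) cj ?_
        rw [← e, mul_add, ← hij]
        omega
      · refine ⟨i, ?_, ci⟩
        unfold FF
        rw [Finset.mem_image]
        exact ⟨j, cj, by omega⟩
      · obtain ⟨X', l', hl', e', h10'⟩ := mem_VV hp (hE (hE₂ cj))
        omega
  · rintro ⟨k, hk, hkE⟩
    obtain ⟨X, l, hl, e, h10⟩ := mem_VV hp (hE hkE)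
    unfold FF at hk
    obtain ⟨y, hy, hk'⟩ := Finset.mem_image.1 hk
    obtain ⟨i, hi, hyi, h11⟩ := mem_YY hy
    refine ⟨k, y, by omega, ?_, ?_⟩
    · rw [PP_high (by omega)]
      exact Finset.mem_union_right _ hkE
    · rw [PP_high (by omega)]
      exact Finset.mem_union_left _ hy

end Conf

/-! ## The grammars fail -/

section Mistake

variable {ι : Type} (G : Grammar Unit ι)

/-- the numerical contradiction -/
theorem no_par (C N : ℕ) {m₀ t R a : ℕ} (hp : Par m₀ t R a)
    (ht : t = 2 * C * N * (m₀ + 1) + 2) (h : R * t ≤ C * (N * LL m₀ t R)) : False := by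
  obtain ⟨h1, h2, h3, h4, h5, h6, h7⟩ := par_ineq hp
  have hR : 0 < R := by rw [hp.hR]; positivity
  have h8 : C * (N * LL m₀ t R) ≤ C * (N * (2 * ((m₀ + 1) * R))) :=
    Nat.mul_le_mul_left _ (Nat.mul_le_mul_left _ h7)
  have h9 : C * (N * (2 * ((m₀ + 1) * R))) = R * (2 * C * N * (m₀ + 1)) := by ring
  have h10 : R * t = R * (2 * C * N * (m₀ + 1)) + R * 2 := by rw [ht]; ring
  omega

/-- If the variable part of the constants is given by `κ` as in `core`, the grammar makes a mistake on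
some word of the window. -/
theorem mistake (κ : Finset ℕ → ι → Language Unit) {m₀ t R a : ℕ} (hp : Par m₀ t R a)
    (ht : t = 2 * D0 G * G.k * (m₀ + 1) + 2)
    (k1 : ∀ E E', E ⊆ E' → E' ⊆ VV m₀ t R a → ∀ c, ∀ j < HH m₀ t a + LL m₀ t R,
      W j ∈ κ E' c → W j ∈ κ E c)
    (k2 : ∀ E E', E ⊆ VV m₀ t R a → E' ⊆ VV m₀ t R a → ∀ c, ∀ j < HH m₀ t a,
      W j ∈ κ E c → W j ∈ κ E' c)
    (k3 : ∀ E k j c, E ⊆ VV m₀ t R a → k ∈ VV m₀ t R a → k ≠ j → j < HH m₀ t a + LL m₀ t R →
      W j ∈ κ E c → W j ∈ κ {k} c) :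
    ∃ m ∈ MM m₀ R a, ∃ E ⊆ VV m₀ t R a,
      ¬ (W m ∈ sol G (κ E) G.start ↔ Disjoint (FF m₀ t m) E) := by
  by_contra hcon
  push Not at hcon
  obtain ⟨h1, h2, h3, h4, h5, h6, h7⟩ := par_ineq hp
  have h0 := HH_eq hp
  have := core G κ (VV m₀ t R a) h4 h2 k2 k3 (t := t) (by omega) (MM m₀ R a)
    (FF m₀ t) k1 (fun m hm => card_FF hp hm)
    (fun m hm => Finset.subset_biUnion_of_mem (FF m₀ t) hm)
    (fun m hm => by
      obtain ⟨ν, hν, _, h8, h9⟩ := mem_MM hm
      constructor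
      · omega
      · omega)
    (fun m hm m' hm' hne => priv hp hm hm' hne)
    (fun m hm E hE => by
      have := hcon m hm E hE
      exact this)
  rw [card_MM] at this
  exact no_par (D0 G) G.k hp ht this

end Mistake

theorem exists_par {g : ℕ → ℕ} (hg : Tendsto g atTop atTop) (m₀ t : ℕ) :
    ∃ R a, Par m₀ t R a ∧ ∀ n, HH m₀ t a ≤ n → LL m₀ t R ≤ g n := by
  obtain ⟨N, hN⟩ := (tendsto_atTop.1 hg (LL m₀ t (2 ^ t + m₀ + 1))).exists_forall_of_atTop
  refine ⟨2 ^ t + m₀ + 1, 2 ^ t + m₀ + 1 + 3 * 2 ^ t + 3 * m₀ + 3 + N, ⟨by omega, rfl⟩, ?_⟩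
  intro n hn
  refine hN n (le_trans ?_ hn)
  unfold HH
  have e : (m₀ + 1) * (2 ^ t + m₀ + 1 + 3 * 2 ^ t + 3 * m₀ + 3 + N) =
      4 * ((m₀ + 1) * 2 ^ t) + (m₀ + 1) * (m₀ + 1) + 3 * ((m₀ + 1) * (m₀ + 1)) + (m₀ * N) + N := by
    ring
  rw [e]
  have e2 : (m₀ + 1) * (m₀ + 1) = m₀ * m₀ + 2 * m₀ + 1 := by ring
  rw [e2]
  omega

theorem VV_lt {m₀ t R a k : ℕ} (hp : Par m₀ t R a) (h : k ∈ VV m₀ t R a) :
    k < HH m₀ t a + LL m₀ t R := by
  obtain ⟨h1, h2, h3, h4, h5, h6, h7⟩ := par_ineq hp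
  unfold VV at h
  obtain ⟨m, hm, hk⟩ := Finset.mem_biUnion.1 h
  obtain ⟨ν, hν, rfl, h8, h9⟩ := mem_MM hm
  obtain ⟨i, hi, rfl, h10⟩ := mem_FF hk
  omega

/-- Locality in the length. -/
theorem sol_short {ι : Type} (G : Grammar Unit ι) {κ κ' : ι → Language Unit} {n : ℕ}
    (h : ∀ c, ∀ j ≤ n, W j ∈ κ c → W j ∈ κ' c) (A : Fin G.k) (hn : W n ∈ sol G κ A) :
    W n ∈ sol G κ' A := by
  refine sol_on G (D := {w | w.length ≤ n}) ?_ ?_ A (W n) ?_ hn
  · intro u v huv
    simp only [mem_ofPred_eq, List.length_append] at huv ⊢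
    omega
  · intro c w hw h'
    rw [eq_W w] at h' ⊢
    exact h c _ hw h'
  · simp

/-- The membership of `a^n` in the languages `Φ c P Q` depends only on `P` below `n - g(n)` and on
`Q` up to `n`. -/
def Delayed (g : ℕ → ℕ) (Φ : ℕ → (ℕ → Bool) → (ℕ → Bool) → Language Unit) : Prop :=
  ∀ c n P P' Q Q', (∀ i, i + g n < n → P i = P' i) → (∀ i ≤ n, Q i = Q' i) →
    W n ∈ Φ c P Q → W n ∈ Φ c P' Q'

/-- The sets `PP p m₀ (Z ∪ E)`, `E` in the window, agree below the window. -/
theorem PP_agree {p : ℕ → Bool} {m₀ H i : ℕ} {Z E E' : Finset ℕ} (hm : m₀ ≤ H)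
    (hE : ∀ e ∈ E, H ≤ e) (hE' : ∀ e ∈ E', H ≤ e) (hi : i < H) :
    PP p m₀ (Z ∪ E) i = PP p m₀ (Z ∪ E') i := by
  rw [Bool.eq_iff_iff]
  by_cases hj : i < m₀
  · rw [PP_low hj, PP_low hj]
  · rw [PP_high (by omega), PP_high (by omega), Finset.mem_union, Finset.mem_union]
    constructor
    · rintro (h | h)
      · exact Or.inl h
      · have := hE i h; omega
    · rintro (h | h)
      · exact Or.inl h
      · have := hE' i h; omega

theorem PP_sub {p : ℕ → Bool} {m₀ i : ℕ} {Z E E' : Finset ℕ} (h : i ∈ E → i ∈ E')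
    (hi : PP p m₀ (Z ∪ E) i = true) : PP p m₀ (Z ∪ E') i = true := by
  by_cases hj : i < m₀
  · rw [PP_low hj] at hi ⊢; exact hi
  · rw [PP_high (by omega), Finset.mem_union] at hi ⊢
    exact hi.imp_right h

/-! ### The sets for which a grammar fails -/

section Fails

variable (Φ : ℕ → (ℕ → Bool) → (ℕ → Bool) → Language Unit) (G : Grammar Unit (ℕ ⊕ Fin 1))

/-- The constants: the languages `Φ c P Q` and the complement of `K`. -/
def consts (P Q : ℕ → Bool) : ℕ ⊕ Fin 1 → Language Unit := Sum.elim (fun c => Φ c P Q) ![(un P)ᶜ]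

variable {Φ}

theorem mem_consts {g : ℕ → ℕ} (hΦ : Delayed g Φ) {P P' Q Q' : ℕ → Bool} {c : ℕ ⊕ Fin 1} {j : ℕ}
    (h' : ∀ i, i + g j < j → P i = P' i) (hQ : ∀ i ≤ j, Q i = Q' i)
    (h : P' j = true → P j = true) (hj : W j ∈ consts Φ P Q c) : W j ∈ consts Φ P' Q' c := by
  rcases c with c | c
  · exact hΦ c j P P' Q Q' h' hQ hj
  · have e : c = 0 := Subsingleton.elim _ _
    subst e
    have h1 : W j ∈ (un P)ᶜ := hj
    have h2 : ¬ W j ∈ un P := h1
    have h3 : ¬ W j ∈ un P' := fun h4 => h2 (W_mem_un.2 (h (W_mem_un.1 h4)))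
    exact h3

variable (Φ) in
/-- the pairs for which the grammar fails on some word -/
def Fail : Set ((ℕ → Bool) × (ℕ → Bool)) :=
  {x | ∃ n, ¬ (W n ∈ sol G (consts Φ x.1 x.2) G.start ↔ ¬ W n ∈ un x.1 * un x.2)}

theorem exists_fail {g : ℕ → ℕ} (hg : Tendsto g atTop atTop) (hΦ : Delayed g Φ)
    (p q : ℕ → Bool) (m₀ : ℕ) : ∃ P Q : ℕ → Bool, (∀ i < m₀, P i = p i) ∧
    (∀ i < m₀, Q i = q i) ∧ (P, Q) ∈ Fail Φ G := by
  obtain ⟨R, a, hp, hgL⟩ := exists_par hg m₀ (2 * D0 G * G.k * (m₀ + 1) + 2)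
  set t := 2 * D0 G * G.k * (m₀ + 1) + 2 with ht
  obtain ⟨h1, h2, h3, h4, h5, h6, h7⟩ := par_ineq hp
  have hV : ∀ E, E ⊆ VV m₀ t R a → ∀ e ∈ E, HH m₀ t a ≤ e := by
    intro E hE e he
    obtain ⟨X, i, hi, e', h9⟩ := mem_VV hp (hE he)
    exact h9
  have hd : ∀ j < HH m₀ t a + LL m₀ t R, ∀ i, i + g j < j → i < HH m₀ t a := by
    intro j hj i hi
    by_cases hjH : HH m₀ t a ≤ j
    · have := hgL j hjH
      omega
    · omega
  obtain ⟨m, hm, E, hE, hc⟩ := mistake G
    (fun E => consts Φ (PP p m₀ (∅ ∪ E)) (PP q m₀ (YY m₀ t ∪ ∅))) hp ht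
    (by
      intro E E' hEE hE' c j hj hw
      exact mem_consts hΦ (fun i hi => PP_agree h5 (hV E' hE') (hV E (hEE.trans hE')) (hd j hj i hi))
        (fun _ _ => rfl) (fun h => PP_sub (fun he => hEE he) h) hw)
    (by
      intro E E' hE hE' c j hj hw
      refine mem_consts hΦ (fun i hi => PP_agree h5 (hV E hE) (hV E' hE') (by omega))
        (fun _ _ => rfl) ?_ hw
      intro h
      rw [PP_agree h5 (hV E hE) (hV E' hE') hj]
      exact h)
    (by
      intro E k j c hE hk hkj hj hw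
      refine mem_consts hΦ (fun i hi => PP_agree h5 (hV E hE)
        (hV {k} (Finset.singleton_subset_iff.2 hk)) (hd j hj i hi)) (fun _ _ => rfl) ?_ hw
      exact PP_sub fun he => absurd (Finset.mem_singleton.1 he).symm hkj)
  refine ⟨PP p m₀ (∅ ∪ E), PP q m₀ (YY m₀ t ∪ ∅), fun i hi => PP_low hi, fun i hi => PP_low hi,
    m, ?_⟩
  rw [W_mem_mul, target hp p q hm hE (Finset.empty_subset E) (Finset.empty_subset _), not_not]
  exact hc

theorem isOpen_fail {g : ℕ → ℕ} (hΦ : Delayed g Φ) : IsOpen (Fail Φ G) := by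
  rw [isOpen_iff_mem_nhds]
  rintro ⟨P, Q⟩ ⟨n, hn⟩
  have hop : IsOpen (PiNat.cylinder P (n + 1) ×ˢ PiNat.cylinder Q (n + 1)) :=
    (PiNat.isOpen_cylinder _ _ _).prod (PiNat.isOpen_cylinder _ _ _)
  refine mem_of_superset (hop.mem_nhds
    ⟨PiNat.self_mem_cylinder _ _, PiNat.self_mem_cylinder _ _⟩) ?_
  rintro ⟨P', Q'⟩ ⟨h1, h2⟩
  rw [PiNat.mem_cylinder_iff] at h1 h2
  simp only at h1 h2
  refine ⟨n, fun hc => hn ?_⟩
  have e1 : W n ∈ sol G (consts Φ P Q) G.start ↔ W n ∈ sol G (consts Φ P' Q') G.start := by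
    constructor
    · exact sol_short G (fun c j hj => mem_consts hΦ (fun i hi => (h1 i (by omega)).symm)
        (fun i hi => (h2 i (by omega)).symm) (fun h => by rw [← h1 j (by omega)]; exact h)) _
    · exact sol_short G (fun c j hj => mem_consts hΦ (fun i hi => h1 i (by omega))
        (fun i hi => h2 i (by omega)) (fun h => by rw [h1 j (by omega)]; exact h)) _
  have e2 : W n ∈ un P * un Q ↔ W n ∈ un P' * un Q' := by
    rw [W_mem_mul, W_mem_mul]
    constructor
    · rintro ⟨i, j, hij, a, b⟩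
      exact ⟨i, j, hij, by rw [h1 i (by omega)]; exact a, by rw [h2 j (by omega)]; exact b⟩
    · rintro ⟨i, j, hij, a, b⟩
      exact ⟨i, j, hij, by rw [← h1 i (by omega)]; exact a, by rw [← h2 j (by omega)]; exact b⟩
  change W n ∈ sol G (consts Φ P Q) G.start ↔ ¬ W n ∈ un P * un Q
  rw [e1, e2]
  exact hc

theorem dense_fail {g : ℕ → ℕ} (hg : Tendsto g atTop atTop) (hΦ : Delayed g Φ) :
    Dense (Fail Φ G) := by
  rw [dense_iff_inter_open]
  rintro U hU ⟨⟨P₀, Q₀⟩, hx⟩
  obtain ⟨V, hV, W', hW, hVW⟩ := mem_nhds_prod_iff.1 (hU.mem_nhds hx)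
  obtain ⟨V', hV', h1, h1'⟩ :=
    (PiNat.isTopologicalBasis_cylinders (fun _ : ℕ => Bool)).mem_nhds_iff.1 hV
  obtain ⟨W'', hW', h2, h2'⟩ :=
    (PiNat.isTopologicalBasis_cylinders (fun _ : ℕ => Bool)).mem_nhds_iff.1 hW
  obtain ⟨p, m1, rfl⟩ := hV'
  obtain ⟨q, m2, rfl⟩ := hW'
  rw [PiNat.mem_cylinder_iff] at h1 h2
  obtain ⟨P, Q, hP, hQ, hF⟩ := exists_fail G hg hΦ P₀ Q₀ (max m1 m2)
  refine ⟨(P, Q), hVW ⟨h1' ?_, h2' ?_⟩, hF⟩
  · rw [PiNat.mem_cylinder_iff]
    intro i hi
    change P i = p i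
    rw [hP i (lt_of_lt_of_le hi (le_max_left _ _))]
    exact h1 i hi
  · rw [PiNat.mem_cylinder_iff]
    intro i hi
    change Q i = q i
    rw [hQ i (lt_of_lt_of_le hi (le_max_right _ _))]
    exact h2 i hi

end Fails

/-! ## Countably many grammars -/

instance {α ι : Type} {k : ℕ} [Countable α] [Countable ι] : Countable (Sym α k ι) := by
  have hinj : Function.Injective (fun σ : Sym α k ι =>
      (match σ with
        | Sym.letter x => Sum.inl x
        | Sym.var A => Sum.inr (Sum.inl A)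
        | Sym.const c => Sum.inr (Sum.inr c) : α ⊕ (Fin k ⊕ ι))) := by
    intro σ τ h
    cases σ <;> cases τ <;> simp_all
  exact hinj.countable

instance {α ι : Type} [Countable α] [Countable ι] : Countable (Grammar α ι) := by
  have hinj : Function.Injective (fun G : Grammar α ι =>
      (⟨G.k, (G.rules, G.start)⟩ : Σ k : ℕ, List (Fin k × List (List (Sym α k ι))) × Fin k)) := by
    rintro ⟨k, r, s⟩ ⟨k', r', s'⟩ h
    simp only [Sigma.mk.injEq] at h
    obtain ⟨rfl, h⟩ := h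
    simp only [heq_eq_eq, Prod.mk.injEq] at h
    obtain ⟨rfl, rfl⟩ := h
    rfl
  exact hinj.countable

/-- The grammar with the single rule `0 → K L`. -/
def mulGrammar : Grammar Unit (Fin 2) where
  k := 1
  rules := [(0, [[Sym.const 0, Sym.const 1]])]
  start := 0

theorem mul_generates (K L : Language Unit) : Generates mulGrammar ![K, L] (K * L) := by
  rw [generates_iff]
  ext w
  rw [mem_sol]
  constructor
  · rintro ⟨r, hr, hs⟩
    obtain rfl : r = [[Sym.const 0, Sym.const 1]] :=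
      (Prod.mk.inj (List.mem_singleton.1 hr)).2
    have h := hs _ (List.mem_singleton.2 rfl)
    simpa [cat, val] using h
  · intro h
    refine ⟨[[Sym.const 0, Sym.const 1]],
      List.mem_singleton.2 (Prod.ext (Subsingleton.elim (α := Fin 1) _ _) rfl), ?_⟩
    intro s hs
    obtain rfl := List.mem_singleton.1 hs
    simpa [cat, val] using h

/-- **Theorem.** Let `g` tend to infinity, and let `Φ` be a countable family of languages over the
one-letter alphabet, given as functions of `P, Q ⊆ ℕ`, such that the membership of `a^n` depends only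
on `P` below `n - g(n)` and on `Q` up to `n`. For all pairs `(P, Q)` outside a meagre set, with
`K = {a^n : n ∈ P}` and `L = {a^n : n ∈ Q}`: `K L` is generated by a conjunctive grammar with the
constants `K`, `L`, but the complement of `K L` is not generated by any conjunctive grammar with the
constants `Kᶜ` and `Φ c P Q`. -/
theorem result (g : ℕ → ℕ) (hg : Tendsto g atTop atTop)
    (Φ : ℕ → (ℕ → Bool) → (ℕ → Bool) → Language Unit) (hΦ : Delayed g Φ) :
    ∀ᶠ x in residual ((ℕ → Bool) × (ℕ → Bool)),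
      (∃ G : Grammar Unit (Fin 2), Generates G ![un x.1, un x.2] (un x.1 * un x.2)) ∧
      ∀ G : Grammar Unit (ℕ ⊕ Fin 1),
        ¬ Generates G (Sum.elim (fun c => Φ c x.1 x.2) ![(un x.1)ᶜ]) (un x.1 * un x.2)ᶜ := by
  have h : ∀ᶠ x in residual ((ℕ → Bool) × (ℕ → Bool)), ∀ G : Grammar Unit (ℕ ⊕ Fin 1),
      x ∈ Fail Φ G := by
    rw [eventually_countable_forall]
    intro G
    exact residual_of_dense_open (isOpen_fail G hΦ) (dense_fail G hg hΦ)
  filter_upwards [h] with x hx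
  refine ⟨⟨mulGrammar, mul_generates _ _⟩, fun G hG => ?_⟩
  rw [generates_iff] at hG
  obtain ⟨n, hn⟩ := hx G
  apply hn
  change W n ∈ sol G (Sum.elim (fun c => Φ c x.1 x.2) ![(un x.1)ᶜ]) G.start ↔ _
  rw [hG]
  exact Iff.rfl

end Pool.Agent.Results.MP_86a971_lc.UnaryDualConcatenation
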